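import Mathlib

set_option autoImplicit false

namespace Pool.Agent.Helper151.NS

open Finset

/-- a planar staircase with a piecewise translation bijection -/
structure PS (S : Finset (ℕ × ℕ)) (f g : ℕ × ℕ → ℕ × ℕ) : Prop where
  down : ∀ a b c d : ℕ, (a, b) ∈ S → c ≤ a → d ≤ b → (c, d) ∈ S
  fS : ∀ s ∈ S, f s ∈ S
  gS : ∀ s ∈ S, g s ∈ S
  gf : ∀ s ∈ S, g (f s) = s
  fg : ∀ s ∈ S, f (g s) = s
  tx : ∀ a b, (a + 1, b) ∈ S → (f (a + 1, b)).1 ≠ 0 →
    f (a + 1, b) = ((f (a, b)).1 + 1, (f (a, b)).2)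
  ty : ∀ a b, (a, b + 1) ∈ S → (f (a, b + 1)).2 ≠ 0 →
    f (a, b + 1) = ((f (a, b)).1, (f (a, b)).2 + 1)

namespace PS

variable {S : Finset (ℕ × ℕ)} {f g : ℕ × ℕ → ℕ × ℕ}

lemma dual (h : PS S f g) : PS S g f where
  down := h.down
  fS := h.gS
  gS := h.fS
  gf := h.fg
  fg := h.gf
  tx := by
    intro a b hab h1
    obtain ⟨c, d, hcd⟩ : ∃ c d, g (a + 1, b) = (c + 1, d) :=
      ⟨(g (a + 1, b)).1 - 1, (g (a + 1, b)).2, by
        rw [Nat.sub_add_cancel (Nat.pos_of_ne_zero h1)]⟩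
    have h2 : f (c + 1, d) = (a + 1, b) := by rw [← hcd]; exact h.fg _ hab
    have h3 : (c + 1, d) ∈ S := by rw [← hcd]; exact h.gS _ hab
    have h4 := h.tx c d h3 (by rw [h2]; exact Nat.succ_ne_zero a)
    have h5 : (c, d) ∈ S := h.down _ _ _ _ h3 (Nat.le_succ c) le_rfl
    have h6 : f (c, d) = (a, b) := by
      rw [h2] at h4
      have e1 := congrArg Prod.fst h4
      have e2 := congrArg Prod.snd h4
      simp only at e1 e2
      ext
      · simp only; omega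
      · simp only; omega
    have h7 : g (a, b) = (c, d) := by rw [← h6]; exact h.gf _ h5
    rw [hcd, h7]
  ty := by
    intro a b hab h1
    obtain ⟨c, d, hcd⟩ : ∃ c d, g (a, b + 1) = (c, d + 1) :=
      ⟨(g (a, b + 1)).1, (g (a, b + 1)).2 - 1, by
        rw [Nat.sub_add_cancel (Nat.pos_of_ne_zero h1)]⟩
    have h2 : f (c, d + 1) = (a, b + 1) := by rw [← hcd]; exact h.fg _ hab
    have h3 : (c, d + 1) ∈ S := by rw [← hcd]; exact h.gS _ hab
    have h4 := h.ty c d h3 (by rw [h2]; exact Nat.succ_ne_zero b)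
    have h5 : (c, d) ∈ S := h.down _ _ _ _ h3 le_rfl (Nat.le_succ d)
    have h6 : f (c, d) = (a, b) := by
      rw [h2] at h4
      have e1 := congrArg Prod.fst h4
      have e2 := congrArg Prod.snd h4
      simp only at e1 e2
      ext
      · simp only; omega
      · simp only; omega
    have h7 : g (a, b) = (c, d) := by rw [← h6]; exact h.gf _ h5
    rw [hcd, h7]

lemma inj (h : PS S f g) {s t : ℕ × ℕ} (hs : s ∈ S) (ht : t ∈ S) (e : f s = f t) : s = t := by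
  rw [← h.gf s hs, ← h.gf t ht, e]

/-- horizontal flag -/
def H (f : ℕ × ℕ → ℕ × ℕ) (s : ℕ × ℕ) : Prop := s.1 = 0 ∨ (f s).1 = 0

instance (f : ℕ × ℕ → ℕ × ℕ) (s : ℕ × ℕ) : Decidable (H f s) :=
  inferInstanceAs (Decidable (s.1 = 0 ∨ (f s).1 = 0))

/-- vertical flag -/
def V (f : ℕ × ℕ → ℕ × ℕ) (s : ℕ × ℕ) : Prop := s.2 = 0 ∨ (f s).2 = 0

instance (f : ℕ × ℕ → ℕ × ℕ) (s : ℕ × ℕ) : Decidable (V f s) :=
  inferInstanceAs (Decidable (s.2 = 0 ∨ (f s).2 = 0))

/-- the right neighbour is missing or flagged -/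
def Rt (S : Finset (ℕ × ℕ)) (f : ℕ × ℕ → ℕ × ℕ) (s : ℕ × ℕ) : Prop :=
  (s.1 + 1, s.2) ∈ S → (f (s.1 + 1, s.2)).1 = 0

instance (S : Finset (ℕ × ℕ)) (f : ℕ × ℕ → ℕ × ℕ) (s : ℕ × ℕ) : Decidable (Rt S f s) :=
  inferInstanceAs (Decidable ((s.1 + 1, s.2) ∈ S → (f (s.1 + 1, s.2)).1 = 0))

/-- the upper neighbour is missing or flagged -/
def Tp (S : Finset (ℕ × ℕ)) (f : ℕ × ℕ → ℕ × ℕ) (s : ℕ × ℕ) : Prop :=
  (s.1, s.2 + 1) ∈ S → (f (s.1, s.2 + 1)).2 = 0

instance (S : Finset (ℕ × ℕ)) (f : ℕ × ℕ → ℕ × ℕ) (s : ℕ × ℕ) : Decidable (Tp S f s) :=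
  inferInstanceAs (Decidable ((s.1, s.2 + 1) ∈ S → (f (s.1, s.2 + 1)).2 = 0))

/-- covered: not maximal -/
def Cv (S : Finset (ℕ × ℕ)) (s : ℕ × ℕ) : Prop := (s.1 + 1, s.2) ∈ S ∨ (s.1, s.2 + 1) ∈ S

instance (S : Finset (ℕ × ℕ)) (s : ℕ × ℕ) : Decidable (Cv S s) :=
  inferInstanceAs (Decidable ((s.1 + 1, s.2) ∈ S ∨ (s.1, s.2 + 1) ∈ S))

lemma card_or_and (h : PS S f g) (p : ℕ × ℕ → Prop) [DecidablePred p] :
    (S.filter (fun s => p s ∨ p (f s))).card + (S.filter (fun s => p s ∧ p (f s))).card =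
      2 * (S.filter p).card := by
  have h1 : (S.filter (fun s => p (f s))).card = (S.filter p).card := by
    refine Finset.card_bij' (fun s _ => f s) (fun s _ => g s) ?_ ?_ ?_ ?_
    · intro s hs
      rw [mem_filter] at hs ⊢
      exact ⟨h.fS _ hs.1, hs.2⟩
    · intro s hs
      rw [mem_filter] at hs ⊢
      refine ⟨h.gS _ hs.1, ?_⟩
      rw [h.fg _ hs.1]
      exact hs.2
    · intro s hs
      rw [mem_filter] at hs
      exact h.gf _ hs.1
    · intro s hs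
      rw [mem_filter] at hs
      exact h.fg _ hs.1
  have h2 : S.filter (fun s => p s ∨ p (f s)) = S.filter p ∪ S.filter (fun s => p (f s)) :=
    Finset.filter_or _ _ _
  have h3 : S.filter (fun s => p s ∧ p (f s)) = S.filter p ∩ S.filter (fun s => p (f s)) :=
    Finset.filter_and _ _ _
  rw [h2, h3, Finset.card_union_add_card_inter, h1]
  ring

/-- the set of cells with both flags -/
def NN (S : Finset (ℕ × ℕ)) (f : ℕ × ℕ → ℕ × ℕ) : Finset (ℕ × ℕ) :=
  S.filter (fun s => H f s ∧ V f s)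

/-- cells with `H` and not `V` -/
def TH (S : Finset (ℕ × ℕ)) (f : ℕ × ℕ → ℕ × ℕ) : Finset (ℕ × ℕ) :=
  S.filter (fun s => H f s ∧ ¬ V f s)

/-- cells with `V` and not `H` -/
def TV (S : Finset (ℕ × ℕ)) (f : ℕ × ℕ → ℕ × ℕ) : Finset (ℕ × ℕ) :=
  S.filter (fun s => V f s ∧ ¬ H f s)

/-- bottom row fixed -/
def W0 (S : Finset (ℕ × ℕ)) (f : ℕ × ℕ → ℕ × ℕ) : Finset (ℕ × ℕ) :=
  S.filter (fun s => s.2 = 0 ∧ (f s).2 = 0)

/-- left column fixed -/
def H0 (S : Finset (ℕ × ℕ)) (f : ℕ × ℕ → ℕ × ℕ) : Finset (ℕ × ℕ) :=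
  S.filter (fun s => s.1 = 0 ∧ (f s).1 = 0)

/-- the basic identity -/
lemma identity (h : PS S f g) :
    2 * (S.filter (fun s => s.2 = 0)).card + 2 * (S.filter (fun s => s.1 = 0)).card =
      (W0 S f).card + (H0 S f).card + 2 * (NN S f).card + (TH S f).card + (TV S f).card := by
  have h1 := h.card_or_and (fun s => s.2 = 0)
  have h2 := h.card_or_and (fun s => s.1 = 0)
  have h3 : (S.filter (fun s => s.2 = 0 ∨ (f s).2 = 0)).card = (NN S f).card + (TV S f).card := by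
    have := Finset.card_filter_add_card_filter_not (s := S.filter (fun s => V f s)) (fun s => H f s)
    rw [Finset.filter_filter, Finset.filter_filter] at this
    unfold NN TV
    have e : S.filter (fun s => H f s ∧ V f s) = S.filter (fun s => V f s ∧ H f s) := by
      refine Finset.filter_congr fun s _ => ?_
      exact and_comm
    rw [e, this]
    rfl
  have h4 : (S.filter (fun s => s.1 = 0 ∨ (f s).1 = 0)).card = (NN S f).card + (TH S f).card := by
    have := Finset.card_filter_add_card_filter_not (s := S.filter (fun s => H f s)) (fun s => V f s)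
    rw [Finset.filter_filter, Finset.filter_filter] at this
    unfold NN TH
    rw [this]
    rfl
  have h5 : (W0 S f).card = (S.filter (fun s => s.2 = 0 ∧ (f s).2 = 0)).card := rfl
  have h6 : (H0 S f).card = (S.filter (fun s => s.1 = 0 ∧ (f s).1 = 0)).card := rfl
  omega

end PS

end Pool.Agent.Helper151.NS
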