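import Mathlib
import Pool.Agent.Helper151.NS.Abs1

set_option autoImplicit false

namespace Pool.Agent.Helper151.NS

open Finset

namespace PS

variable {S : Finset (ℕ × ℕ)} {f g : ℕ × ℕ → ℕ × ℕ}

lemma card_not_Tp (h : PS S f g) :
    (S.filter (fun s => ¬ Tp S f s)).card = (S.filter (fun s => ¬ V f s)).card := by
  refine Finset.card_bij' (fun s _ => (s.1, s.2 + 1)) (fun s _ => (s.1, s.2 - 1)) ?_ ?_ ?_ ?_
  · rintro ⟨a, b⟩ hs
    rw [mem_filter] at hs ⊢
    obtain ⟨h1, h2⟩ := hs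
    unfold Tp at h2
    push Not at h2
    refine ⟨h2.1, ?_⟩
    unfold V
    push Not
    exact ⟨Nat.succ_ne_zero _, h2.2⟩
  · rintro ⟨a, b⟩ hs
    rw [mem_filter] at hs ⊢
    obtain ⟨h1, h2⟩ := hs
    unfold V at h2
    push Not at h2
    have hb : b ≠ 0 := h2.1
    obtain ⟨c, rfl⟩ : ∃ c, b = c + 1 := ⟨b - 1, by omega⟩
    refine ⟨h.down _ _ _ _ h1 le_rfl (by omega), ?_⟩
    unfold Tp
    push Not
    simp only [Nat.add_sub_cancel]
    exact ⟨h1, h2.2⟩
  · rintro ⟨a, b⟩ hs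
    simp
  · rintro ⟨a, b⟩ hs
    rw [mem_filter] at hs
    obtain ⟨h1, h2⟩ := hs
    unfold V at h2
    push Not at h2
    have hb : b ≠ 0 := h2.1
    simp only [Prod.mk.injEq, true_and]
    omega

lemma card_not_Rt (h : PS S f g) :
    (S.filter (fun s => ¬ Rt S f s)).card = (S.filter (fun s => ¬ H f s)).card := by
  refine Finset.card_bij' (fun s _ => (s.1 + 1, s.2)) (fun s _ => (s.1 - 1, s.2)) ?_ ?_ ?_ ?_
  · rintro ⟨a, b⟩ hs
    rw [mem_filter] at hs ⊢
    obtain ⟨h1, h2⟩ := hs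
    unfold Rt at h2
    push Not at h2
    refine ⟨h2.1, ?_⟩
    unfold H
    push Not
    exact ⟨Nat.succ_ne_zero _, h2.2⟩
  · rintro ⟨a, b⟩ hs
    rw [mem_filter] at hs ⊢
    obtain ⟨h1, h2⟩ := hs
    unfold H at h2
    push Not at h2
    have hb : a ≠ 0 := h2.1
    obtain ⟨c, rfl⟩ : ∃ c, a = c + 1 := ⟨a - 1, by omega⟩
    refine ⟨h.down _ _ _ _ h1 (by omega) le_rfl, ?_⟩
    unfold Rt
    push Not
    simp only [Nat.add_sub_cancel]
    exact ⟨h1, h2.2⟩
  · rintro ⟨a, b⟩ hs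
    simp
  · rintro ⟨a, b⟩ hs
    rw [mem_filter] at hs
    obtain ⟨h1, h2⟩ := hs
    unfold H at h2
    push Not at h2
    have hb : a ≠ 0 := h2.1
    simp only [Prod.mk.injEq, and_true]
    omega

/-- top and right flagged, covered -/
def MC (S : Finset (ℕ × ℕ)) (f : ℕ × ℕ → ℕ × ℕ) : Finset (ℕ × ℕ) :=
  S.filter (fun s => (Tp S f s ∧ Rt S f s) ∧ Cv S s)

/-- maximal cells -/
def MM (S : Finset (ℕ × ℕ)) : Finset (ℕ × ℕ) := S.filter (fun s => ¬ Cv S s)

/-- top, not right -/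
def TR (S : Finset (ℕ × ℕ)) (f : ℕ × ℕ → ℕ × ℕ) : Finset (ℕ × ℕ) :=
  S.filter (fun s => Tp S f s ∧ ¬ Rt S f s)

/-- right, not top -/
def RT (S : Finset (ℕ × ℕ)) (f : ℕ × ℕ → ℕ × ℕ) : Finset (ℕ × ℕ) :=
  S.filter (fun s => Rt S f s ∧ ¬ Tp S f s)

lemma card_split (s : Finset (ℕ × ℕ)) (p q : ℕ × ℕ → Prop) [DecidablePred p] [DecidablePred q] :
    (s.filter p).card = (s.filter (fun x => p x ∧ q x)).card +
      (s.filter (fun x => p x ∧ ¬ q x)).card := by
  have := Finset.card_filter_add_card_filter_not (s := s.filter p) q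
  rw [Finset.filter_filter, Finset.filter_filter] at this
  exact this.symm

/-- the second identity -/
lemma identity2 (h : PS S f g) :
    2 * (S.filter (fun s => s.2 = 0)).card + 2 * (S.filter (fun s => s.1 = 0)).card =
      (W0 S f).card + (H0 S f).card + 2 * (MC S f).card + 2 * (MM S).card + (TR S f).card +
        (RT S f).card := by
  have h1 := h.card_or_and (fun s => s.2 = 0)
  have h2 := h.card_or_and (fun s => s.1 = 0)
  have a1 : (S.filter (fun s => s.2 = 0 ∨ (f s).2 = 0)).card = (S.filter (fun s => V f s)).card :=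
    rfl
  have a2 : (S.filter (fun s => s.1 = 0 ∨ (f s).1 = 0)).card = (S.filter (fun s => H f s)).card :=
    rfl
  have b1 := Finset.card_filter_add_card_filter_not (s := S) (fun s => V f s)
  have b2 := Finset.card_filter_add_card_filter_not (s := S) (fun s => H f s)
  have b3 := Finset.card_filter_add_card_filter_not (s := S) (fun s => Tp S f s)
  have b4 := Finset.card_filter_add_card_filter_not (s := S) (fun s => Rt S f s)
  have c1 := h.card_not_Tp
  have c2 := h.card_not_Rt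
  have d1 := card_split S (fun s => Tp S f s) (fun s => Rt S f s)
  have d2 := card_split S (fun s => Rt S f s) (fun s => Tp S f s)
  have d3 := card_split S (fun s => Tp S f s ∧ Rt S f s) (fun s => Cv S s)
  have d4 : (S.filter (fun s => Rt S f s ∧ Tp S f s)).card =
      (S.filter (fun s => Tp S f s ∧ Rt S f s)).card := by
    congr 1
    exact Finset.filter_congr fun s _ => and_comm
  have d5 : (S.filter (fun s => (Tp S f s ∧ Rt S f s) ∧ ¬ Cv S s)).card = (MM S).card := by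
    congr 1
    unfold MM
    refine Finset.filter_congr fun s _ => ⟨fun h => h.2, fun h3 => ⟨⟨?_, ?_⟩, h3⟩⟩
    · intro h4
      exact absurd (Or.inr h4) h3
    · intro h4
      exact absurd (Or.inl h4) h3
  have h5 : (W0 S f).card = (S.filter (fun s => s.2 = 0 ∧ (f s).2 = 0)).card := rfl
  have h6 : (H0 S f).card = (S.filter (fun s => s.1 = 0 ∧ (f s).1 = 0)).card := rfl
  have e1 : (MC S f).card = (S.filter (fun s => (Tp S f s ∧ Rt S f s) ∧ Cv S s)).card := rfl
  have e2 : (TR S f).card = (S.filter (fun s => Tp S f s ∧ ¬ Rt S f s)).card := rfl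
  have e3 : (RT S f).card = (S.filter (fun s => Rt S f s ∧ ¬ Tp S f s)).card := rfl
  omega

/-- the planar corners -/
def Zc (S : Finset (ℕ × ℕ)) : Finset (ℕ × ℕ) :=
  (S.image (fun s => (s.1 + 1, s.2))).filter
    (fun k => 0 < k.2 ∧ k ∉ S ∧ (k.1, k.2 - 1) ∈ S)

lemma mem_Zc (a b : ℕ) :
    (a + 1, b + 1) ∈ Zc S ↔ (a, b + 1) ∈ S ∧ (a + 1, b) ∈ S ∧ (a + 1, b + 1) ∉ S := by
  unfold Zc
  rw [mem_filter, mem_image]
  constructor
  · rintro ⟨⟨⟨c, d⟩, h1, h2⟩, _, h3, h4⟩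
    simp only [Prod.mk.injEq, Nat.add_right_cancel_iff] at h2
    obtain ⟨rfl, rfl⟩ := h2
    exact ⟨h1, h4, h3⟩
  · rintro ⟨h1, h2, h3⟩
    exact ⟨⟨(a, b + 1), h1, rfl⟩, Nat.succ_pos _, h3, h2⟩

lemma of_mem_Zc {k : ℕ × ℕ} (hk : k ∈ Zc S) : ∃ a b, k = (a + 1, b + 1) := by
  unfold Zc at hk
  rw [mem_filter, mem_image] at hk
  obtain ⟨⟨⟨c, d⟩, h1, h2⟩, h3, _⟩ := hk
  refine ⟨c, k.2 - 1, ?_⟩
  rw [← h2]
  simp only [Prod.mk.injEq, true_and]
  rw [← h2] at h3
  simp only at h3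
  omega

/-- row corners distinct -/
lemma Zc_inj_row (h : PS S f g) {k l : ℕ × ℕ} (hk : k ∈ Zc S) (hl : l ∈ Zc S) (e : k.2 = l.2) :
    k = l := by
  obtain ⟨a, b, rfl⟩ := of_mem_Zc hk
  obtain ⟨c, d, rfl⟩ := of_mem_Zc hl
  rw [mem_Zc] at hk hl
  simp only [Nat.add_right_cancel_iff] at e
  subst e
  rcases Nat.lt_trichotomy a c with h1 | h1 | h1
  · exact absurd (h.down _ _ (a + 1) (b + 1) hl.1 (by omega) le_rfl) hk.2.2
  · rw [h1]
  · exact absurd (h.down _ _ (c + 1) (b + 1) hk.1 (by omega) le_rfl) hl.2.2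

lemma Zc_inj_col (h : PS S f g) {k l : ℕ × ℕ} (hk : k ∈ Zc S) (hl : l ∈ Zc S) (e : k.1 = l.1) :
    k = l := by
  obtain ⟨a, b, rfl⟩ := of_mem_Zc hk
  obtain ⟨c, d, rfl⟩ := of_mem_Zc hl
  rw [mem_Zc] at hk hl
  simp only [Nat.add_right_cancel_iff] at e
  subst e
  rcases Nat.lt_trichotomy b d with h1 | h1 | h1
  · exact absurd (h.down _ _ (a + 1) (b + 1) hl.2.1 le_rfl (by omega)) hk.2.2
  · rw [h1]
  · exact absurd (h.down _ _ (a + 1) (d + 1) hk.2.1 le_rfl (by omega)) hl.2.2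

/-- the last cell of a row -/
lemma exists_last (h : PS S f g) (a b : ℕ) (hab : (a, b) ∈ S) :
    ∃ c, a ≤ c ∧ (c, b) ∈ S ∧ (c + 1, b) ∉ S := by
  by_contra hcon
  push Not at hcon
  have : ∀ n, (a + n, b) ∈ S := by
    intro n
    induction n with
    | zero => exact hab
    | succ n ih => exact hcon _ (Nat.le_add_right _ _) ih
  have h2 : Set.Infinite (S : Set (ℕ × ℕ)) := by
    refine Set.infinite_of_injective_forall_mem (f := fun n : ℕ => (a + n, b)) ?_ this
    intro n m hnm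
    simp only [Prod.mk.injEq, Nat.add_left_cancel_iff, and_true] at hnm
    exact hnm
  exact h2 (Finset.finite_toSet S)

/-- the last row -/
lemma exists_top (h : PS S f g) (h0 : (0, 0) ∈ S) : ∃ b, (0, b) ∈ S ∧ (0, b + 1) ∉ S := by
  by_contra hcon
  push Not at hcon
  have : ∀ n, (0, n) ∈ S := by
    intro n
    induction n with
    | zero => exact h0
    | succ n ih => exact hcon _ ih
  have h2 : Set.Infinite (S : Set (ℕ × ℕ)) := by
    refine Set.infinite_of_injective_forall_mem (f := fun n : ℕ => (0, n)) ?_ this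
    intro n m hnm
    simp only [Prod.mk.injEq, true_and] at hnm
    exact hnm
  exact h2 (Finset.finite_toSet S)

/-- there are more maximal cells than corners -/
lemma card_Zc_lt (h : PS S f g) (h0 : (0, 0) ∈ S) : (Zc S).card + 1 ≤ (MM S).card := by
  obtain ⟨b0, hb0, hb1⟩ := h.exists_top h0
  obtain ⟨c0, _, hc0, hc1⟩ := h.exists_last 0 b0 hb0
  have key : ∀ k : ℕ × ℕ, ∃ m : ℕ × ℕ, k ∈ Zc S → m ∈ MM S ∧ m.2 + 1 = k.2 := by
    intro k
    by_cases hk : k ∈ Zc S
    · obtain ⟨a, b, rfl⟩ := of_mem_Zc hk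
      rw [mem_Zc] at hk
      obtain ⟨c, hc1, hc2, hc3⟩ := h.exists_last (a + 1) b hk.2.1
      refine ⟨(c, b), fun _ => ⟨?_, rfl⟩⟩
      unfold MM
      rw [mem_filter]
      refine ⟨hc2, ?_⟩
      unfold Cv
      push Not
      refine ⟨hc3, fun h5 => hk.2.2 ?_⟩
      exact h.down _ _ _ _ h5 hc1 le_rfl
    · exact ⟨(0, 0), fun h => absurd h hk⟩
  choose F hF using key
  have hlt : ∀ k ∈ Zc S, (F k).2 < b0 := by
    intro k hk
    have h1 := (hF k hk).2
    obtain ⟨a, b, rfl⟩ := of_mem_Zc hk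
    rw [mem_Zc] at hk
    by_contra h2
    have h3 : b0 + 1 ≤ b + 1 := by
      simp only at h1
      omega
    exact hb1 (h.down _ _ _ _ hk.1 (Nat.zero_le _) h3)
  have hm0 : (c0, b0) ∈ MM S := by
    unfold MM
    rw [mem_filter]
    refine ⟨hc0, ?_⟩
    unfold Cv
    push Not
    refine ⟨hc1, fun h5 => hb1 ?_⟩
    exact h.down _ _ _ _ h5 (Nat.zero_le _) le_rfl
  have h1 : (insert (c0, b0) ((Zc S).image F)) ⊆ MM S := by
    intro x hx
    rw [mem_insert, mem_image] at hx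
    rcases hx with rfl | ⟨k, hk, rfl⟩
    · exact hm0
    · exact (hF k hk).1
  have h2 := Finset.card_le_card h1
  rw [Finset.card_insert_of_notMem, Finset.card_image_of_injOn] at h2
  · exact h2
  · intro k hk l hl hkl
    refine h.Zc_inj_row hk hl ?_
    have e1 := (hF k hk).2
    have e2 := (hF l hl).2
    have hkl' : F k = F l := hkl
    rw [← e1, ← e2, hkl']
  · rw [mem_image]
    rintro ⟨k, hk, hk2⟩
    have := hlt k hk
    rw [hk2] at this
    exact lt_irrefl _ this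

end PS

end Pool.Agent.Helper151.NS
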