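import Mathlib
import Pool.Agent.Helper151.NS.Abs2

set_option autoImplicit false

namespace Pool.Agent.Helper151.NS

open Finset

namespace PS

variable {S : Finset (ℕ × ℕ)} {f g : ℕ × ℕ → ℕ × ℕ}

lemma walk_left (h : PS S f g) (b : ℕ) : ∀ a, (a, b) ∈ S → ∃ c, c ≤ a ∧ (c, b) ∈ S ∧ H f (c, b) ∧
    (∀ c', c < c' → c' ≤ a → ¬ H f (c', b)) ∧ (f (a, b)).2 = (f (c, b)).2 := by
  intro a
  induction a with
  | zero => exact fun h0 => ⟨0, le_rfl, h0, Or.inl rfl, fun c' h1 h2 => by omega, rfl⟩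
  | succ a ih =>
    intro hab
    by_cases hH : H f (a + 1, b)
    · exact ⟨a + 1, le_rfl, hab, hH, fun c' h1 h2 => by omega, rfl⟩
    · obtain ⟨c, h1, h2, h3, h4, h5⟩ := ih (h.down _ _ _ _ hab (Nat.le_succ a) le_rfl)
      refine ⟨c, by omega, h2, h3, ?_, ?_⟩
      · intro c' h6 h7
        rcases Nat.lt_or_ge a c' with h8 | h8
        · obtain rfl : c' = a + 1 := by omega
          exact hH
        · exact h4 c' h6 h8
      · unfold H at hH
        push Not at hH
        rw [h.tx a b hab hH.2]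
        exact h5

lemma walk_down (h : PS S f g) (a : ℕ) : ∀ b, (a, b) ∈ S → ∃ c, c ≤ b ∧ (a, c) ∈ S ∧ V f (a, c) ∧
    (∀ c', c < c' → c' ≤ b → ¬ V f (a, c')) ∧ (f (a, b)).1 = (f (a, c)).1 := by
  intro b
  induction b with
  | zero => exact fun h0 => ⟨0, le_rfl, h0, Or.inl rfl, fun c' h1 h2 => by omega, rfl⟩
  | succ b ih =>
    intro hab
    by_cases hH : V f (a, b + 1)
    · exact ⟨b + 1, le_rfl, hab, hH, fun c' h1 h2 => by omega, rfl⟩
    · obtain ⟨c, h1, h2, h3, h4, h5⟩ := ih (h.down _ _ _ _ hab le_rfl (Nat.le_succ b))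
      refine ⟨c, by omega, h2, h3, ?_, ?_⟩
      · intro c' h6 h7
        rcases Nat.lt_or_ge b c' with h8 | h8
        · obtain rfl : c' = b + 1 := by omega
          exact hH
        · exact h4 c' h6 h8
      · unfold V at hH
        push Not at hH
        rw [h.ty a b hab hH.2]
        exact h5

lemma token_H (h : PS S f g) (K : Finset (ℕ × ℕ))
    (hK1 : ∀ k ∈ K, ∃ a b, k = (a + 1, b + 1) ∧ (a, b + 1) ∈ S)
    (hK2 : ∀ k ∈ K, ∀ l ∈ K, k.2 = l.2 → k.1 < l.1 → k ∈ S ∧ H f k) :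
    K.card ≤ (TH S f).card + (K.filter (fun k => V f (k.1 - 1, k.2))).card := by
  have key : ∀ k : ℕ × ℕ, ∃ m : ℕ × ℕ, k ∈ K → ¬ V f (k.1 - 1, k.2) → m ∈ TH S f ∧ m.2 = k.2 ∧
      m.1 < k.1 ∧ ∀ c', m.1 < c' → c' < k.1 → ¬ H f (c', k.2) := by
    intro k
    by_cases hk : k ∈ K
    · by_cases hv : V f (k.1 - 1, k.2)
      · exact ⟨(0, 0), fun _ h => absurd hv h⟩
      · obtain ⟨a, b, rfl, hab⟩ := hK1 k hk
        obtain ⟨c, h1, h2, h3, h4, h5⟩ := h.walk_left (b + 1) a hab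
        refine ⟨(c, b + 1), fun _ _ => ⟨?_, rfl, by simp only; omega, ?_⟩⟩
        · unfold TH
          rw [mem_filter]
          refine ⟨h2, h3, ?_⟩
          simp only [Nat.add_sub_cancel] at hv
          unfold V at hv ⊢
          push Not at hv ⊢
          refine ⟨Nat.succ_ne_zero _, ?_⟩
          rw [← h5]
          exact hv.2
        · intro c' h6 h7
          exact h4 c' h6 (by simp only at h7; omega)
    · exact ⟨(0, 0), fun h => absurd h hk⟩
  choose F hF using key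
  have h1 : (K.filter (fun k => ¬ V f (k.1 - 1, k.2))).card ≤ (TH S f).card := by
    refine Finset.card_le_card_of_injOn F ?_ ?_
    · intro k hk
      rw [Finset.mem_coe, mem_filter] at hk
      exact (hF k hk.1 hk.2).1
    · intro k hk l hl hkl
      rw [Finset.mem_coe, mem_filter] at hk hl
      obtain ⟨a1, a2, a3, a4⟩ := hF k hk.1 hk.2
      obtain ⟨b1, b2, b3, b4⟩ := hF l hl.1 hl.2
      have hrow : k.2 = l.2 := by rw [← a2, ← b2, hkl]
      rcases Nat.lt_trichotomy k.1 l.1 with h6 | h6 | h6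
      · obtain ⟨c1, c2⟩ := hK2 k hk.1 l hl.1 hrow h6
        exfalso
        refine b4 k.1 ?_ h6 ?_
        · rw [← hkl]; exact a3
        · rw [← hrow]; exact c2
      · exact Prod.ext h6 hrow
      · obtain ⟨c1, c2⟩ := hK2 l hl.1 k hk.1 hrow.symm h6
        exfalso
        refine a4 l.1 ?_ h6 ?_
        · rw [hkl]; exact b3
        · rw [hrow]; exact c2
  have h2 := Finset.card_filter_add_card_filter_not (s := K) (fun k => V f (k.1 - 1, k.2))
  omega

lemma token_V (h : PS S f g) (K : Finset (ℕ × ℕ))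
    (hK1 : ∀ k ∈ K, ∃ a b, k = (a + 1, b + 1) ∧ (a + 1, b) ∈ S)
    (hK2 : ∀ k ∈ K, ∀ l ∈ K, k.1 = l.1 → k.2 < l.2 → k ∈ S ∧ V f k) :
    K.card ≤ (TV S f).card + (K.filter (fun k => H f (k.1, k.2 - 1))).card := by
  have key : ∀ k : ℕ × ℕ, ∃ m : ℕ × ℕ, k ∈ K → ¬ H f (k.1, k.2 - 1) → m ∈ TV S f ∧ m.1 = k.1 ∧
      m.2 < k.2 ∧ ∀ c', m.2 < c' → c' < k.2 → ¬ V f (k.1, c') := by
    intro k
    by_cases hk : k ∈ K
    · by_cases hv : H f (k.1, k.2 - 1)
      · exact ⟨(0, 0), fun _ h => absurd hv h⟩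
      · obtain ⟨a, b, rfl, hab⟩ := hK1 k hk
        obtain ⟨c, h1, h2, h3, h4, h5⟩ := h.walk_down (a + 1) b hab
        refine ⟨(a + 1, c), fun _ _ => ⟨?_, rfl, by simp only; omega, ?_⟩⟩
        · unfold TV
          rw [mem_filter]
          refine ⟨h2, h3, ?_⟩
          simp only [Nat.add_sub_cancel] at hv
          unfold H at hv ⊢
          push Not at hv ⊢
          refine ⟨Nat.succ_ne_zero _, ?_⟩
          rw [← h5]
          exact hv.2
        · intro c' h6 h7
          exact h4 c' h6 (by simp only at h7; omega)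
    · exact ⟨(0, 0), fun h => absurd h hk⟩
  choose F hF using key
  have h1 : (K.filter (fun k => ¬ H f (k.1, k.2 - 1))).card ≤ (TV S f).card := by
    refine Finset.card_le_card_of_injOn F ?_ ?_
    · intro k hk
      rw [Finset.mem_coe, mem_filter] at hk
      exact (hF k hk.1 hk.2).1
    · intro k hk l hl hkl
      rw [Finset.mem_coe, mem_filter] at hk hl
      obtain ⟨a1, a2, a3, a4⟩ := hF k hk.1 hk.2
      obtain ⟨b1, b2, b3, b4⟩ := hF l hl.1 hl.2
      have hrow : k.1 = l.1 := by rw [← a2, ← b2, hkl]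
      rcases Nat.lt_trichotomy k.2 l.2 with h6 | h6 | h6
      · obtain ⟨c1, c2⟩ := hK2 k hk.1 l hl.1 hrow h6
        exfalso
        refine b4 k.2 ?_ h6 ?_
        · rw [← hkl]; exact a3
        · rw [← hrow]; exact c2
      · exact Prod.ext hrow h6
      · obtain ⟨c1, c2⟩ := hK2 l hl.1 k hk.1 hrow.symm h6
        exfalso
        refine a4 l.2 ?_ h6 ?_
        · rw [hkl]; exact b3
        · rw [hrow]; exact c2
  have h2 := Finset.card_filter_add_card_filter_not (s := K) (fun k => H f (k.1, k.2 - 1))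
  omega

end PS

end Pool.Agent.Helper151.NS
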