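import Mathlib
import Pool.Agent.Helper151.NS.Abs3

set_option autoImplicit false

namespace Pool.Agent.Helper151.NS

open Finset

namespace PS

variable {S : Finset (ℕ × ℕ)} {f g : ℕ × ℕ → ℕ × ℕ}

/-- the doubly flagged cells on the left column, shifted down -/
def QX (S : Finset (ℕ × ℕ)) (f : ℕ × ℕ → ℕ × ℕ) : Finset ℕ :=
  (S.filter (fun s => s.1 = 0 ∧ 0 < s.2 ∧ (f s).2 = 0)).image (fun s => s.2 - 1)

/-- the doubly flagged cells on the bottom row, shifted left -/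
def QY (S : Finset (ℕ × ℕ)) (f : ℕ × ℕ → ℕ × ℕ) : Finset ℕ :=
  (S.filter (fun s => s.2 = 0 ∧ 0 < s.1 ∧ (f s).1 = 0)).image (fun s => s.1 - 1)

lemma mem_QX (y : ℕ) : y ∈ QX S f ↔ (0, y + 1) ∈ S ∧ (f (0, y + 1)).2 = 0 := by
  unfold QX
  rw [mem_image]
  constructor
  · rintro ⟨⟨a, b⟩, h1, h2⟩
    rw [mem_filter] at h1
    obtain ⟨h3, h4, h5, h6⟩ := h1
    simp only at h2 h4 h5
    obtain rfl : b = y + 1 := by omega
    subst h4
    exact ⟨h3, h6⟩
  · rintro ⟨h1, h2⟩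
    refine ⟨(0, y + 1), ?_, rfl⟩
    rw [mem_filter]
    exact ⟨h1, rfl, Nat.succ_pos _, h2⟩

lemma mem_QY (x : ℕ) : x ∈ QY S f ↔ (x + 1, 0) ∈ S ∧ (f (x + 1, 0)).1 = 0 := by
  unfold QY
  rw [mem_image]
  constructor
  · rintro ⟨⟨a, b⟩, h1, h2⟩
    rw [mem_filter] at h1
    obtain ⟨h3, h4, h5, h6⟩ := h1
    simp only at h2 h4 h5
    obtain rfl : a = x + 1 := by omega
    subst h4
    exact ⟨h3, h6⟩
  · rintro ⟨h1, h2⟩
    refine ⟨(x + 1, 0), ?_, rfl⟩
    rw [mem_filter]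
    exact ⟨h1, rfl, Nat.succ_pos _, h2⟩

lemma card_QX : (QX S f).card = (S.filter (fun s => s.1 = 0 ∧ 0 < s.2 ∧ (f s).2 = 0)).card := by
  unfold QX
  refine Finset.card_image_of_injOn ?_
  rintro ⟨a, b⟩ h1 ⟨c, d⟩ h2 h3
  rw [Finset.mem_coe, mem_filter] at h1 h2
  simp only at h1 h2 h3
  ext
  · simp only; omega
  · simp only; omega

lemma card_QY : (QY S f).card = (S.filter (fun s => s.2 = 0 ∧ 0 < s.1 ∧ (f s).1 = 0)).card := by
  unfold QY
  refine Finset.card_image_of_injOn ?_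
  rintro ⟨a, b⟩ h1 ⟨c, d⟩ h2 h3
  rw [Finset.mem_coe, mem_filter] at h1 h2
  simp only at h1 h2 h3
  ext
  · simp only; omega
  · simp only; omega

/-- when all doubly flagged cells are on the axes -/
lemma card_NN (hax : ∀ s ∈ S, H f s → V f s → s.1 = 0 ∨ s.2 = 0) :
    (NN S f).card ≤ 1 + (QX S f).card + (QY S f).card := by
  rw [card_QX, card_QY]
  have : NN S f ⊆ ({((0 : ℕ), (0 : ℕ))} ∪ S.filter (fun s => s.1 = 0 ∧ 0 < s.2 ∧ (f s).2 = 0)) ∪
      S.filter (fun s => s.2 = 0 ∧ 0 < s.1 ∧ (f s).1 = 0) := by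
    rintro ⟨a, b⟩ hs
    unfold NN at hs
    rw [mem_filter] at hs
    obtain ⟨h1, h2, h3⟩ := hs
    have h4 := hax _ h1 h2 h3
    rw [mem_union, mem_union, mem_singleton, mem_filter, mem_filter]
    unfold H at h2
    unfold V at h3
    simp only at h2 h3 h4
    by_cases ha : a = 0
    · by_cases hb : b = 0
      · left; left; rw [ha, hb]
      · left; right
        exact ⟨h1, ha, Nat.pos_of_ne_zero hb, h3.resolve_left hb⟩
    · right
      exact ⟨h1, h4.resolve_left ha, Nat.pos_of_ne_zero ha, h2.resolve_left ha⟩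
  refine (Finset.card_le_card this).trans ?_
  refine (Finset.card_union_le _ _).trans ?_
  refine Nat.add_le_add_right ?_ _
  refine (Finset.card_union_le _ _).trans ?_
  rw [Finset.card_singleton]

/-- cells of the truncated walks which are `TR` -/
def WX (S : Finset (ℕ × ℕ)) (f : ℕ × ℕ → ℕ × ℕ) : Finset (ℕ × ℕ) :=
  ((QX S f).filter (fun y => ¬ Rt S f (0, y))).image (fun y => ((0 : ℕ), y)) ∪
  ((QX S f).filter (fun y => ¬ Rt S f (0, y) ∧ ¬ Rt S f (1, y))).image (fun y => ((1 : ℕ), y))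

/-- cells of the truncated walks which are `RT` -/
def WY (S : Finset (ℕ × ℕ)) (f : ℕ × ℕ → ℕ × ℕ) : Finset (ℕ × ℕ) :=
  ((QY S f).filter (fun y => ¬ Tp S f (y, 0))).image (fun y => (y, (0 : ℕ))) ∪
  ((QY S f).filter (fun y => ¬ Tp S f (y, 0) ∧ ¬ Tp S f (y, 1))).image (fun y => (y, (1 : ℕ)))

/-- final cells of X walks -/
def FX (S : Finset (ℕ × ℕ)) (f : ℕ × ℕ → ℕ × ℕ) : Finset (ℕ × ℕ) :=
  ((QX S f).filter (fun y => Rt S f (0, y))).image (fun y => ((0 : ℕ), y)) ∪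
  ((QX S f).filter (fun y => ¬ Rt S f (0, y) ∧ (Rt S f (1, y) ∧ Cv S (1, y)))).image
    (fun y => ((1 : ℕ), y))

/-- final cells of Y walks -/
def FY (S : Finset (ℕ × ℕ)) (f : ℕ × ℕ → ℕ × ℕ) : Finset (ℕ × ℕ) :=
  ((QY S f).filter (fun y => Tp S f (y, 0))).image (fun y => (y, (0 : ℕ))) ∪
  ((QY S f).filter (fun y => ¬ Tp S f (y, 0) ∧ (Tp S f (y, 1) ∧ Cv S (y, 1)))).image
    (fun y => (y, (1 : ℕ)))

lemma image_card0 (s t : Finset ℕ) :
    (s.image (fun y => ((0 : ℕ), y)) ∪ t.image (fun y => ((1 : ℕ), y))).card =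
      s.card + t.card := by
  rw [Finset.card_union_of_disjoint, Finset.card_image_of_injective,
    Finset.card_image_of_injective]
  · intro a b hab
    simpa using hab
  · intro a b hab
    simpa using hab
  · rw [Finset.disjoint_left]
    intro a ha hb
    rw [mem_image] at ha hb
    obtain ⟨c, _, rfl⟩ := ha
    obtain ⟨d, _, hd⟩ := hb
    simp at hd

lemma image_card1 (s t : Finset ℕ) :
    (s.image (fun y => (y, (0 : ℕ))) ∪ t.image (fun y => (y, (1 : ℕ)))).card =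
      s.card + t.card := by
  rw [Finset.card_union_of_disjoint, Finset.card_image_of_injective,
    Finset.card_image_of_injective]
  · intro a b hab
    simpa using hab
  · intro a b hab
    simpa using hab
  · rw [Finset.disjoint_left]
    intro a ha hb
    rw [mem_image] at ha hb
    obtain ⟨c, _, rfl⟩ := ha
    obtain ⟨d, _, hd⟩ := hb
    simp at hd

lemma top0 {y : ℕ} (hy : y ∈ QX S f) : Tp S f (0, y) := by
  rw [mem_QX] at hy
  exact fun _ => hy.2

lemma top1 (h : PS S f g) {y : ℕ} (hy : y ∈ QX S f) (hr : ¬ Rt S f (0, y)) : Tp S f (1, y) := by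
  rw [mem_QX] at hy
  unfold Rt at hr
  push Not at hr
  intro h1
  by_contra h2
  have e1 := h.ty 1 y h1 h2
  have e2 := h.tx 0 y hr.1 hr.2
  rw [zero_add] at e2
  rw [e2] at e1
  have h3 : (f (0 + 1, y + 1)).1 ≠ 0 := by
    rw [zero_add]
    have e1' : f (1, y + 1) = ((f (0, y)).1 + 1, (f (0, y)).2 + 1) := e1
    rw [e1']
    exact Nat.succ_ne_zero _
  have e3 := h.tx 0 (y + 1) h1 h3
  rw [zero_add] at e3
  have e1' : f (1, y + 1) = ((f (0, y)).1 + 1, (f (0, y)).2 + 1) := e1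
  rw [e1'] at e3
  have e4 := congrArg Prod.snd e3
  simp only at e4
  rw [hy.2] at e4
  omega

lemma right0 {x : ℕ} (hx : x ∈ QY S f) : Rt S f (x, 0) := by
  rw [mem_QY] at hx
  exact fun _ => hx.2

lemma right1 (h : PS S f g) {x : ℕ} (hx : x ∈ QY S f) (hr : ¬ Tp S f (x, 0)) :
    Rt S f (x, 1) := by
  rw [mem_QY] at hx
  unfold Tp at hr
  push Not at hr
  intro h1
  by_contra h2
  have e1 := h.tx x 1 h1 h2
  have e2 := h.ty x 0 hr.1 hr.2
  rw [zero_add] at e2
  rw [e2] at e1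
  have e1' : f (x + 1, 1) = ((f (x, 0)).1 + 1, (f (x, 0)).2 + 1) := e1
  have h3 : (f (x + 1, 0 + 1)).2 ≠ 0 := by
    rw [zero_add, e1']
    exact Nat.succ_ne_zero _
  have e3 := h.ty (x + 1) 0 h1 h3
  rw [zero_add, e1'] at e3
  have e4 := congrArg Prod.fst e3
  simp only at e4
  rw [hx.2] at e4
  omega

lemma WX_sub (h : PS S f g) : WX S f ⊆ TR S f := by
  intro s hs
  unfold WX at hs
  unfold TR
  rw [mem_union, mem_image, mem_image] at hs
  rw [mem_filter]
  rcases hs with ⟨y, hy, rfl⟩ | ⟨y, hy, rfl⟩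
  · rw [mem_filter] at hy
    refine ⟨?_, top0 hy.1, hy.2⟩
    have := ((mem_QX y).mp hy.1).1
    exact h.down _ _ _ _ this le_rfl (Nat.le_succ y)
  · rw [mem_filter] at hy
    refine ⟨?_, h.top1 hy.1 hy.2.1, hy.2.2⟩
    have := hy.2.1
    unfold Rt at this
    push Not at this
    exact this.1

lemma WY_sub (h : PS S f g) : WY S f ⊆ RT S f := by
  intro s hs
  unfold WY at hs
  unfold RT
  rw [mem_union, mem_image, mem_image] at hs
  rw [mem_filter]
  rcases hs with ⟨y, hy, rfl⟩ | ⟨y, hy, rfl⟩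
  · rw [mem_filter] at hy
    refine ⟨?_, right0 hy.1, hy.2⟩
    have := ((mem_QY y).mp hy.1).1
    exact h.down _ _ _ _ this (Nat.le_succ y) le_rfl
  · rw [mem_filter] at hy
    refine ⟨?_, h.right1 hy.1 hy.2.1, hy.2.2⟩
    have := hy.2.1
    unfold Tp at this
    push Not at this
    exact this.1

lemma FX_sub (h : PS S f g) : FX S f ⊆ MC S f := by
  intro s hs
  unfold FX at hs
  unfold MC
  rw [mem_union, mem_image, mem_image] at hs
  rw [mem_filter]
  rcases hs with ⟨y, hy, rfl⟩ | ⟨y, hy, rfl⟩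
  · rw [mem_filter] at hy
    have := ((mem_QX y).mp hy.1).1
    refine ⟨?_, ⟨top0 hy.1, hy.2⟩, Or.inr this⟩
    exact h.down _ _ _ _ this le_rfl (Nat.le_succ y)
  · rw [mem_filter] at hy
    refine ⟨?_, ⟨h.top1 hy.1 hy.2.1, hy.2.2.1⟩, hy.2.2.2⟩
    have := hy.2.1
    unfold Rt at this
    push Not at this
    exact this.1

lemma FY_sub (h : PS S f g) : FY S f ⊆ MC S f := by
  intro s hs
  unfold FY at hs
  unfold MC
  rw [mem_union, mem_image, mem_image] at hs
  rw [mem_filter]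
  rcases hs with ⟨y, hy, rfl⟩ | ⟨y, hy, rfl⟩
  · rw [mem_filter] at hy
    have := ((mem_QY y).mp hy.1).1
    refine ⟨?_, ⟨hy.2, right0 hy.1⟩, Or.inl this⟩
    exact h.down _ _ _ _ this (Nat.le_succ y) le_rfl
  · rw [mem_filter] at hy
    refine ⟨?_, ⟨hy.2.2.1, h.right1 hy.1 hy.2.1⟩, hy.2.2.2⟩
    have := hy.2.1
    unfold Tp at this
    push Not at this
    exact this.1

/-- counting along the left column -/
lemma countX (h : PS S f g) : ∃ n3 n4 : ℕ, n4 ≤ 1 ∧
    2 * (FX S f).card + (WX S f).card + n4 = 2 * (QX S f).card + n3 ∧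
    (n3 = 0 → ∀ y ∈ QX S f, ¬ (¬ Rt S f (0, y) ∧ (Rt S f (1, y) ∧ Cv S (1, y)))) ∧
    (0 < n4 → ∃ y ∈ QX S f, ¬ Rt S f (0, y)) := by
  have e1 : (FX S f).card = _ := image_card0 _ _
  have e2 : (WX S f).card = _ := image_card0 _ _
  have c1 := Finset.card_filter_add_card_filter_not (s := QX S f) (fun y => Rt S f (0, y))
  have c2 := Finset.card_filter_add_card_filter_not
    (s := (QX S f).filter (fun y => ¬ Rt S f (0, y))) (fun y => Rt S f (1, y))
  rw [Finset.filter_filter, Finset.filter_filter] at c2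
  have c3 := Finset.card_filter_add_card_filter_not
    (s := (QX S f).filter (fun y => ¬ Rt S f (0, y) ∧ Rt S f (1, y))) (fun y => Cv S (1, y))
  rw [Finset.filter_filter, Finset.filter_filter] at c3
  have c4 : ((QX S f).filter (fun y => ¬ Rt S f (0, y) ∧ (Rt S f (1, y) ∧ Cv S (1, y)))).card =
      ((QX S f).filter (fun y => (¬ Rt S f (0, y) ∧ Rt S f (1, y)) ∧ Cv S (1, y))).card := by
    congr 1
    exact Finset.filter_congr fun s _ => and_assoc.symm
  refine ⟨((QX S f).filter (fun y => ¬ Rt S f (0, y) ∧ (Rt S f (1, y) ∧ Cv S (1, y)))).card,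
    ((QX S f).filter (fun y => (¬ Rt S f (0, y) ∧ Rt S f (1, y)) ∧ ¬ Cv S (1, y))).card,
    ?_, ?_, ?_, ?_⟩
  · rw [Finset.card_le_one]
    intro a ha b hb
    rw [mem_filter] at ha hb
    obtain ⟨ha1, ⟨ha2, ha3⟩, ha4⟩ := ha
    obtain ⟨hb1, ⟨hb2, hb3⟩, hb4⟩ := hb
    unfold Rt at ha2 hb2
    unfold Cv at ha4 hb4
    push Not at ha2 hb2 ha4 hb4
    rcases Nat.lt_trichotomy a b with h1 | h1 | h1
    · exact absurd (h.down _ _ 1 (a + 1) hb2.1 le_rfl (by simp only; omega)) ha4.2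
    · exact h1
    · exact absurd (h.down _ _ 1 (b + 1) ha2.1 le_rfl (by simp only; omega)) hb4.2
  · omega
  · intro h0 y hy h1
    rw [Finset.card_eq_zero] at h0
    have : y ∈ (QX S f).filter (fun y => ¬ Rt S f (0, y) ∧ (Rt S f (1, y) ∧ Cv S (1, y))) := by
      rw [mem_filter]
      exact ⟨hy, h1⟩
    rw [h0] at this
    exact absurd this (Finset.notMem_empty _)
  · intro h0
    rw [Finset.card_pos] at h0
    obtain ⟨y, hy⟩ := h0
    rw [mem_filter] at hy
    exact ⟨y, hy.1, hy.2.1.1⟩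

/-- counting along the bottom row -/
lemma countY (h : PS S f g) : ∃ n3 n4 : ℕ, n4 ≤ 1 ∧
    2 * (FY S f).card + (WY S f).card + n4 = 2 * (QY S f).card + n3 ∧
    (n3 = 0 → ∀ y ∈ QY S f, ¬ (¬ Tp S f (y, 0) ∧ (Tp S f (y, 1) ∧ Cv S (y, 1)))) := by
  have e1 : (FY S f).card = _ := image_card1 _ _
  have e2 : (WY S f).card = _ := image_card1 _ _
  have c1 := Finset.card_filter_add_card_filter_not (s := QY S f) (fun y => Tp S f (y, 0))
  have c2 := Finset.card_filter_add_card_filter_not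
    (s := (QY S f).filter (fun y => ¬ Tp S f (y, 0))) (fun y => Tp S f (y, 1))
  rw [Finset.filter_filter, Finset.filter_filter] at c2
  have c3 := Finset.card_filter_add_card_filter_not
    (s := (QY S f).filter (fun y => ¬ Tp S f (y, 0) ∧ Tp S f (y, 1))) (fun y => Cv S (y, 1))
  rw [Finset.filter_filter, Finset.filter_filter] at c3
  have c4 : ((QY S f).filter (fun y => ¬ Tp S f (y, 0) ∧ (Tp S f (y, 1) ∧ Cv S (y, 1)))).card =
      ((QY S f).filter (fun y => (¬ Tp S f (y, 0) ∧ Tp S f (y, 1)) ∧ Cv S (y, 1))).card := by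
    congr 1
    exact Finset.filter_congr fun s _ => and_assoc.symm
  refine ⟨((QY S f).filter (fun y => ¬ Tp S f (y, 0) ∧ (Tp S f (y, 1) ∧ Cv S (y, 1)))).card,
    ((QY S f).filter (fun y => (¬ Tp S f (y, 0) ∧ Tp S f (y, 1)) ∧ ¬ Cv S (y, 1))).card,
    ?_, ?_, ?_⟩
  · rw [Finset.card_le_one]
    intro a ha b hb
    rw [mem_filter] at ha hb
    obtain ⟨ha1, ⟨ha2, ha3⟩, ha4⟩ := ha
    obtain ⟨hb1, ⟨hb2, hb3⟩, hb4⟩ := hb
    unfold Tp at ha2 hb2
    unfold Cv at ha4 hb4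
    push Not at ha2 hb2 ha4 hb4
    rcases Nat.lt_trichotomy a b with h1 | h1 | h1
    · exact absurd (h.down _ _ (a + 1) 1 hb2.1 (by simp only; omega) le_rfl) ha4.1
    · exact h1
    · exact absurd (h.down _ _ (b + 1) 1 ha2.1 (by simp only; omega) le_rfl) hb4.1
  · omega
  · intro h0 y hy h1
    rw [Finset.card_eq_zero] at h0
    have : y ∈ (QY S f).filter (fun y => ¬ Tp S f (y, 0) ∧ (Tp S f (y, 1) ∧ Cv S (y, 1))) := by
      rw [mem_filter]
      exact ⟨hy, h1⟩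
    rw [h0] at this
    exact absurd this (Finset.notMem_empty _)

end PS

end Pool.Agent.Helper151.NS
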