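import Mathlib
import Pool.Agent.Helper151.NS.Abs4

set_option autoImplicit false

namespace Pool.Agent.Helper151.NS

open Finset

namespace PS

variable {S : Finset (ℕ × ℕ)} {f g : ℕ × ℕ → ℕ × ℕ}

lemma of_mem_F {s : ℕ × ℕ} (h1 : s ∈ FX S f) (h2 : s ∈ FY S f) :
    (s = (0, 0) ∧ (0 ∈ QX S f ∧ Rt S f (0, 0)) ∧ (0 ∈ QY S f ∧ Tp S f (0, 0))) ∨
    (s = (0, 1) ∧ (1 ∈ QX S f ∧ Rt S f (0, 1)) ∧
      (0 ∈ QY S f ∧ ¬ Tp S f (0, 0) ∧ (Tp S f (0, 1) ∧ Cv S (0, 1)))) ∨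
    (s = (1, 0) ∧ (0 ∈ QX S f ∧ ¬ Rt S f (0, 0) ∧ (Rt S f (1, 0) ∧ Cv S (1, 0))) ∧
      (1 ∈ QY S f ∧ Tp S f (1, 0))) ∨
    (s = (1, 1) ∧ (1 ∈ QX S f ∧ ¬ Rt S f (0, 1) ∧ (Rt S f (1, 1) ∧ Cv S (1, 1))) ∧
      (1 ∈ QY S f ∧ ¬ Tp S f (1, 0) ∧ (Tp S f (1, 1) ∧ Cv S (1, 1)))) := by
  unfold FX at h1
  unfold FY at h2
  rw [mem_union, mem_image, mem_image] at h1 h2
  rcases h1 with ⟨y, hy, rfl⟩ | ⟨y, hy, rfl⟩
  · rcases h2 with ⟨x, hx, he⟩ | ⟨x, hx, he⟩
    · left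
      simp only [Prod.mk.injEq] at he
      obtain ⟨rfl, rfl⟩ := he
      rw [mem_filter] at hx hy
      exact ⟨rfl, hy, hx⟩
    · right; left
      simp only [Prod.mk.injEq] at he
      obtain ⟨rfl, rfl⟩ := he
      rw [mem_filter] at hx hy
      exact ⟨rfl, hy, hx⟩
  · rcases h2 with ⟨x, hx, he⟩ | ⟨x, hx, he⟩
    · right; right; left
      simp only [Prod.mk.injEq] at he
      obtain ⟨rfl, rfl⟩ := he
      rw [mem_filter] at hx hy
      exact ⟨rfl, hy, hx⟩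
    · right; right; right
      simp only [Prod.mk.injEq] at he
      obtain ⟨rfl, rfl⟩ := he
      rw [mem_filter] at hx hy
      exact ⟨rfl, hy, hx⟩

lemma excl (h : PS S f g) (h1 : 0 ∈ QX S f) (h2 : ¬ Rt S f (0, 1)) (h3 : ¬ Tp S f (1, 0)) :
    False := by
  rw [mem_QX] at h1
  unfold Rt at h2
  unfold Tp at h3
  push Not at h2 h3
  have e := h.tx 0 1 h2.1 h2.2
  have e2 := congrArg Prod.snd e
  simp only at e2
  have e3 : (f (0 + 1, 1)).2 ≠ 0 := h3.2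
  rw [e2] at e3
  exact e3 h1.2

lemma card_inter_le (h : PS S f g) : (FX S f ∩ FY S f).card ≤ 1 := by
  rw [Finset.card_le_one]
  intro a ha b hb
  rw [mem_inter] at ha hb
  rcases of_mem_F ha.1 ha.2 with ⟨rfl, h1, h2⟩ | ⟨rfl, h1, h2⟩ | ⟨rfl, h1, h2⟩ | ⟨rfl, h1, h2⟩ <;>
  rcases of_mem_F hb.1 hb.2 with ⟨rfl, h3, h4⟩ | ⟨rfl, h3, h4⟩ | ⟨rfl, h3, h4⟩ | ⟨rfl, h3, h4⟩
  · rfl
  · exact absurd h2.2 h4.2.1
  · exact absurd h1.2 h3.2.1
  · exact (h.excl h1.1 h3.2.1 h4.2.1).elim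
  · exact absurd h4.2 h2.2.1
  · rfl
  · exact absurd (top0 h3.1) h2.2.1
  · exact absurd h1.2 h3.2.1
  · exact absurd h3.2 h1.2.1
  · exact absurd (top0 h1.1) h4.2.1
  · rfl
  · exact absurd h2.2 h4.2.1
  · exact (h.excl h3.1 h1.2.1 h2.2.1).elim
  · exact absurd h3.2 h1.2.1
  · exact absurd h4.2 h2.2.1
  · rfl

/-- the accounting inequality, with the tight case -/
lemma acct (h : PS S f g) :
    2 * (QX S f).card + 2 * (QY S f).card ≤
      2 * (MC S f).card + (TR S f).card + (RT S f).card + 4 ∧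
    (2 * (MC S f).card + (TR S f).card + (RT S f).card + 4 ≤
      2 * (QX S f).card + 2 * (QY S f).card →
      (Rt S f (0, 0) ∧ (∃ y ∈ QX S f, ¬ Rt S f (0, y)) ∧ TR S f ⊆ WX S f)) := by
  obtain ⟨n3, n4, hn4, hX, hX3, hX4⟩ := h.countX
  obtain ⟨m3, m4, hm4, hY, hY3⟩ := h.countY
  have h1 : (FX S f ∪ FY S f).card ≤ (MC S f).card :=
    Finset.card_le_card (Finset.union_subset h.FX_sub h.FY_sub)
  have h2 := Finset.card_union_add_card_inter (FX S f) (FY S f)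
  have h3 := h.card_inter_le
  have h4 := Finset.card_le_card h.WX_sub
  have h5 := Finset.card_le_card h.WY_sub
  refine ⟨by omega, fun h6 => ?_⟩
  have a1 : n3 = 0 := by omega
  have a2 : m3 = 0 := by omega
  have a3 : 0 < n4 := by omega
  have a4 : 0 < (FX S f ∩ FY S f).card := by omega
  have a5 : (TR S f).card ≤ (WX S f).card := by omega
  refine ⟨?_, hX4 a3, ?_⟩
  · rw [Finset.card_pos] at a4
    obtain ⟨s, hs⟩ := a4
    rw [mem_inter] at hs
    rcases of_mem_F hs.1 hs.2 with ⟨rfl, h7, h8⟩ | ⟨rfl, h7, h8⟩ | ⟨rfl, h7, h8⟩ | ⟨rfl, h7, h8⟩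
    · exact h7.2
    · exact absurd h8.2 (hY3 a2 0 h8.1)
    · exact absurd h7.2 (hX3 a1 0 h7.1)
    · exact absurd h7.2 (hX3 a1 1 h7.1)
  · rw [Finset.eq_of_subset_of_card_le h.WX_sub a5]

lemma not_Rt_img (h : PS S f g) {s : ℕ × ℕ} (h1 : ¬ Rt S f s) : ¬ Rt S g (f s) := by
  obtain ⟨a, b⟩ := s
  unfold Rt at h1 ⊢
  push Not at h1 ⊢
  obtain ⟨h2, h3⟩ := h1
  have e := h.tx a b h2 h3
  have e2 : ((f (a, b)).1 + 1, (f (a, b)).2) ∈ S := by rw [← e]; exact h.fS _ h2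
  refine ⟨e2, ?_⟩
  rw [← e, h.gf _ h2]
  exact Nat.succ_ne_zero _

lemma not_Tp_img (h : PS S f g) {s : ℕ × ℕ} (h1 : ¬ Tp S f s) : ¬ Tp S g (f s) := by
  obtain ⟨a, b⟩ := s
  unfold Tp at h1 ⊢
  push Not at h1 ⊢
  obtain ⟨h2, h3⟩ := h1
  have e := h.ty a b h2 h3
  have e2 : ((f (a, b)).1, (f (a, b)).2 + 1) ∈ S := by rw [← e]; exact h.fS _ h2
  refine ⟨e2, ?_⟩
  rw [← e, h.gf _ h2]
  exact Nat.succ_ne_zero _

lemma TR_img (h : PS S f g) {s : ℕ × ℕ} (hs : s ∈ TR S f) : f s ∈ TR S g := by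
  unfold TR at hs ⊢
  rw [mem_filter] at hs ⊢
  refine ⟨h.fS _ hs.1, ?_, h.not_Rt_img hs.2.2⟩
  by_contra h1
  have := h.dual.not_Tp_img h1
  rw [h.gf _ hs.1] at this
  exact this hs.2.1

lemma card_NN_dual (h : PS S f g) : (NN S g).card = (NN S f).card := by
  unfold NN
  refine Finset.card_bij' (fun s _ => g s) (fun s _ => f s) ?_ ?_ ?_ ?_
  · intro s hs
    rw [mem_filter] at hs ⊢
    refine ⟨h.gS _ hs.1, ?_, ?_⟩
    · unfold H at *
      rw [h.fg _ hs.1]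
      exact hs.2.1.symm
    · unfold V at *
      rw [h.fg _ hs.1]
      exact hs.2.2.symm
  · intro s hs
    rw [mem_filter] at hs ⊢
    refine ⟨h.fS _ hs.1, ?_, ?_⟩
    · unfold H at *
      rw [h.gf _ hs.1]
      exact hs.2.1.symm
    · unfold V at *
      rw [h.gf _ hs.1]
      exact hs.2.2.symm
  · intro s hs
    rw [mem_filter] at hs
    exact h.fg _ hs.1
  · intro s hs
    rw [mem_filter] at hs
    exact h.gf _ hs.1

lemma hax_of (h : PS S f g) (h0 : (0, 0) ∈ S) (hk : (g (0, 0)).1 = 0 ∨ (g (0, 0)).2 = 0) :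
    ∀ s ∈ S, H f s → V f s → s.1 = 0 ∨ s.2 = 0 := by
  intro s hs h1 h2
  by_contra h3
  push Not at h3
  have e1 : (f s).1 = 0 := h1.resolve_left h3.1
  have e2 : (f s).2 = 0 := h2.resolve_left h3.2
  have e3 : f s = (0, 0) := Prod.ext e1 e2
  have e4 : g (0, 0) = s := by rw [← e3]; exact h.gf _ hs
  rw [e4] at hk
  rcases hk with hk | hk
  · exact h3.1 hk
  · exact h3.2 hk

/-- fixed flags, at least two -/
lemma two_le (h : PS S f g) (h0 : (0, 0) ∈ S) (hk : (g (0, 0)).1 = 0 ∨ (g (0, 0)).2 = 0)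
    (hz : (f (0, 0)).1 = 0 ∨ (f (0, 0)).2 = 0) : 2 ≤ (W0 S f).card + (H0 S f).card := by
  have hgS := h.gS _ h0
  have hfg := h.fg _ h0
  by_cases hκ : g (0, 0) = (0, 0)
  · have h1 : (0, 0) ∈ W0 S f := by
      unfold W0
      rw [mem_filter]
      refine ⟨h0, rfl, ?_⟩
      rw [hκ] at hfg
      rw [hfg]
    have h2 : (0, 0) ∈ H0 S f := by
      unfold H0
      rw [mem_filter]
      refine ⟨h0, rfl, ?_⟩
      rw [hκ] at hfg
      rw [hfg]
    have h3 := Finset.card_pos.mpr ⟨_, h1⟩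
    have h4 := Finset.card_pos.mpr ⟨_, h2⟩
    omega
  · have h1 : (0, 0) ∈ W0 S f ∪ H0 S f := by
      unfold W0 H0
      rw [mem_union, mem_filter, mem_filter]
      rcases hz with hz | hz
      · exact Or.inr ⟨h0, rfl, hz⟩
      · exact Or.inl ⟨h0, rfl, hz⟩
    have h2 : g (0, 0) ∈ W0 S f ∪ H0 S f := by
      unfold W0 H0
      rw [mem_union, mem_filter, mem_filter]
      rcases hk with hk | hk
      · refine Or.inr ⟨hgS, hk, ?_⟩
        rw [hfg]
      · refine Or.inl ⟨hgS, hk, ?_⟩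
        rw [hfg]
    have h3 : ({(0, 0), g (0, 0)} : Finset (ℕ × ℕ)) ⊆ W0 S f ∪ H0 S f := by
      intro x hx
      rw [mem_insert, mem_singleton] at hx
      rcases hx with rfl | rfl
      · exact h1
      · exact h2
    have h4 := Finset.card_le_card h3
    rw [Finset.card_pair (Ne.symm hκ)] at h4
    exact h4.trans (Finset.card_union_le _ _)

lemma unique_fix (h : PS S f g) (h0 : (0, 0) ∈ S) (hk : (g (0, 0)).1 = 0 ∨ (g (0, 0)).2 = 0)
    (hz : (f (0, 0)).1 = 0 ∨ (f (0, 0)).2 = 0) (h2 : (W0 S f).card + (H0 S f).card ≤ 2)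
    {y : ℕ} (hy : (0, y) ∈ H0 S f) (hy0 : y ≠ 0) : g (0, 0) = (0, y) := by
  have hgS := h.gS _ h0
  have hfg := h.fg _ h0
  by_cases hκ : g (0, 0) = (0, 0)
  · exfalso
    have h1 : (0, 0) ∈ W0 S f := by
      unfold W0
      rw [mem_filter]
      refine ⟨h0, rfl, ?_⟩
      rw [hκ] at hfg
      rw [hfg]
    have h3 : (0, 0) ∈ H0 S f := by
      unfold H0
      rw [mem_filter]
      refine ⟨h0, rfl, ?_⟩
      rw [hκ] at hfg
      rw [hfg]
    have h4 := Finset.card_pos.mpr ⟨_, h1⟩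
    have h5 : ({(0, 0), (0, y)} : Finset (ℕ × ℕ)) ⊆ H0 S f := by
      intro x hx
      rw [mem_insert, mem_singleton] at hx
      rcases hx with rfl | rfl
      · exact h3
      · exact hy
    have h6 := Finset.card_le_card h5
    rw [Finset.card_pair] at h6
    · omega
    · intro h7
      simp only [Prod.mk.injEq, true_and] at h7
      exact hy0 h7.symm
  · by_contra hne
    have h1 : (0, 0) ∈ W0 S f ∪ H0 S f := by
      unfold W0 H0
      rw [mem_union, mem_filter, mem_filter]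
      rcases hz with hz | hz
      · exact Or.inr ⟨h0, rfl, hz⟩
      · exact Or.inl ⟨h0, rfl, hz⟩
    have h3 : g (0, 0) ∈ W0 S f ∪ H0 S f := by
      unfold W0 H0
      rw [mem_union, mem_filter, mem_filter]
      rcases hk with hk | hk
      · refine Or.inr ⟨hgS, hk, ?_⟩
        rw [hfg]
      · refine Or.inl ⟨hgS, hk, ?_⟩
        rw [hfg]
    have h4 : (0, y) ∈ W0 S f ∪ H0 S f := by
      rw [mem_union]
      exact Or.inr hy
    have h5 : ({(0, 0), g (0, 0), (0, y)} : Finset (ℕ × ℕ)) ⊆ W0 S f ∪ H0 S f := by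
      intro x hx
      rw [mem_insert, mem_insert, mem_singleton] at hx
      rcases hx with rfl | rfl | rfl
      · exact h1
      · exact h3
      · exact h4
    have h6 := Finset.card_le_card h5
    have h7 := Finset.card_union_le (W0 S f) (H0 S f)
    rw [Finset.card_insert_of_notMem, Finset.card_pair hne] at h6
    · omega
    · rw [mem_insert, mem_singleton]
      push Not
      refine ⟨Ne.symm hκ, ?_⟩
      intro h8
      simp only [Prod.mk.injEq, true_and] at h8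
      exact hy0 h8.symm

lemma tight (h : PS S f g) (h0 : (0, 0) ∈ S) (hk : (g (0, 0)).1 = 0 ∨ (g (0, 0)).2 = 0)
    (hz : (f (0, 0)).1 = 0 ∨ (f (0, 0)).2 = 0)
    (hlt : (S.filter (fun s => s.2 = 0)).card + (S.filter (fun s => s.1 = 0)).card <
      (Zc S).card + (NN S f).card) :
    (W0 S f).card + (H0 S f).card ≤ 2 ∧ Rt S f (0, 0) ∧ (∃ y ∈ QX S f, ¬ Rt S f (0, y)) ∧
      TR S f ⊆ WX S f := by
  have h1 := h.identity2
  have h2 := h.card_Zc_lt h0
  have h3 := card_NN (h.hax_of h0 hk)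
  have h4 := h.two_le h0 hk hz
  obtain ⟨h5, h6⟩ := h.acct
  refine ⟨by omega, h6 (by omega)⟩

/-- the case where both special cells are on the axes -/
theorem both_axes (h : PS S f g) (h0 : (0, 0) ∈ S) (hk : (g (0, 0)).1 = 0 ∨ (g (0, 0)).2 = 0)
    (hz : (f (0, 0)).1 = 0 ∨ (f (0, 0)).2 = 0) :
    (Zc S).card + (NN S f).card ≤
      (S.filter (fun s => s.2 = 0)).card + (S.filter (fun s => s.1 = 0)).card := by
  by_contra hcon
  push Not at hcon
  obtain ⟨a1, a2, ⟨y, hy, hy2⟩, a4⟩ := h.tight h0 hk hz hcon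
  obtain ⟨b1, b2, b3, b4⟩ := h.dual.tight h0 hz hk (by rw [h.card_NN_dual]; exact hcon)
  have hy0 : y ≠ 0 := by
    rintro rfl
    exact hy2 a2
  have hyS : (0, y) ∈ S := h.down _ _ _ _ ((mem_QX y).mp hy).1 le_rfl (Nat.le_succ y)
  have c1 : (0, y) ∈ TR S f := by
    unfold TR
    rw [mem_filter]
    exact ⟨hyS, top0 hy, hy2⟩
  have c2 := b4 (h.TR_img c1)
  have c3 : (f (0, y)).1 = 0 := by
    unfold WX at c2
    rw [mem_union, mem_image, mem_image] at c2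
    rcases c2 with ⟨z, hz1, hz2⟩ | ⟨z, hz1, hz2⟩
    · rw [← hz2]
    · exfalso
      rw [mem_filter] at hz1
      have h5 := hz1.2.1
      unfold Rt at h5
      push Not at h5
      have h6 : g (0 + 1, z) = (0, y) := by
        rw [zero_add, hz2]
        exact h.gf _ hyS
      apply h5.2
      show (g (0 + 1, z)).1 = 0
      rw [h6]
  have c4 : (0, y) ∈ H0 S f := by
    unfold H0
    rw [mem_filter]
    exact ⟨hyS, rfl, c3⟩
  have c5 := h.unique_fix h0 hk hz a1 c4 hy0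
  have c6 : f (0, y) = (0, 0) := by rw [← c5]; exact h.fg _ h0
  have c7 := h.not_Rt_img hy2
  rw [c6] at c7
  exact c7 b2

end PS

end Pool.Agent.Helper151.NS
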