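import Mathlib

set_option autoImplicit false

namespace Pool.Agent.Helper151.NS

/-- a transversal down-set in three dimensions -/
structure Q3 {G : Type*} [AddCommGroup G] (x y z : G) (T : ℕ → ℕ → ℕ → Prop) : Prop where
  down : ∀ {a b c a' b' c' : ℕ}, T a b c → a' ≤ a → b' ≤ b → c' ≤ c → T a' b' c'
  inj : ∀ {a b c a' b' c' : ℕ}, T a b c → T a' b' c' →
    a • x + b • y + c • z = a' • x + b' • y + c' • z → a = a' ∧ b = b' ∧ c = c'
  surj : ∀ a b c : ℕ, ∃ a' b' c' : ℕ, T a' b' c' ∧
    a • x + b • y + c • z = a' • x + b' • y + c' • z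

/-- with a full corner `(a+1,b+1,c+1)` -/
structure D1 {G : Type*} [AddCommGroup G] (x y z : G) (T : ℕ → ℕ → ℕ → Prop) (a b c : ℕ) :
    Prop extends Q3 x y z T where
  t1 : T a (b + 1) (c + 1)
  t2 : T (a + 1) b (c + 1)
  t3 : T (a + 1) (b + 1) c
  L : (a + 1) • x + (b + 1) • y + (c + 1) • z = 0

section

variable {G : Type*} [AddCommGroup G] {x y z : G} {T : ℕ → ℕ → ℕ → Prop} {a b c : ℕ}

namespace Q3

lemma swap23 (h : Q3 x y z T) : Q3 x z y (fun p q r => T p r q) where
  down := fun h1 h2 h3 h4 => h.down h1 h2 h4 h3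
  inj := by
    intro a b c a' b' c' h1 h2 h3
    have := h.inj h1 h2 (by linear_combination (norm := module) h3)
    exact ⟨this.1, this.2.2, this.2.1⟩
  surj := by
    intro a b c
    obtain ⟨a', b', c', h1, h2⟩ := h.surj a c b
    exact ⟨a', c', b', h1, by linear_combination (norm := module) h2⟩

lemma swap12 (h : Q3 x y z T) : Q3 y x z (fun p q r => T q p r) where
  down := fun h1 h2 h3 h4 => h.down h1 h3 h2 h4
  inj := by
    intro a b c a' b' c' h1 h2 h3
    have := h.inj h1 h2 (by linear_combination (norm := module) h3)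
    exact ⟨this.2.1, this.1, this.2.2⟩
  surj := by
    intro a b c
    obtain ⟨a', b', c', h1, h2⟩ := h.surj b a c
    exact ⟨b', a', c', h1, by linear_combination (norm := module) h2⟩

/-- the tail of a planar corner -/
lemma tail (h : Q3 x y z T) {i j : ℕ} (h1 : T i (j + 1) 0) (h2 : T (i + 1) j 0)
    (h3 : ¬ T (i + 1) (j + 1) 0) : ∃ t, T 0 0 t ∧ (i + 1) • x + (j + 1) • y = t • z := by
  obtain ⟨p, q, t, h4, h5⟩ := h.surj (i + 1) (j + 1) 0
  rcases Nat.eq_zero_or_pos p with hp | hp
  · rcases Nat.eq_zero_or_pos q with hq | hq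
    · subst hp hq
      exact ⟨t, h4, by linear_combination (norm := module) h5⟩
    · exfalso
      obtain ⟨q', rfl⟩ : ∃ q', q = q' + 1 := ⟨q - 1, by omega⟩
      have := h.inj h2 (h.down h4 le_rfl (Nat.le_succ q') le_rfl)
        (by linear_combination (norm := module) h5)
      obtain ⟨rfl, rfl, rfl⟩ := this
      exact h3 h4
  · exfalso
    obtain ⟨p', rfl⟩ : ∃ p', p = p' + 1 := ⟨p - 1, by omega⟩
    have := h.inj h1 (h.down h4 (Nat.le_succ p') le_rfl le_rfl)
      (by linear_combination (norm := module) h5)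
    obtain ⟨rfl, rfl, rfl⟩ := this
    exact h3 h4

end Q3

namespace D1

lemma swap23 (h : D1 x y z T a b c) : D1 x z y (fun p q r => T p r q) a c b :=
  { h.toQ3.swap23 with
    t1 := h.t1
    t2 := h.t3
    t3 := h.t2
    L := by linear_combination (norm := module) h.L }

lemma swap12 (h : D1 x y z T a b c) : D1 y x z (fun p q r => T q p r) b a c :=
  { h.toQ3.swap12 with
    t1 := h.t2
    t2 := h.t1
    t3 := h.t3
    L := by linear_combination (norm := module) h.L }

/-- the tail of a central corner is large -/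
lemma tail_large (h : D1 x y z T a b c) {i j t : ℕ} (h1 : T i (j + 1) 0) (ha : a ≤ i) (hb : b ≤ j)
    (ht : (i + 1) • x + (j + 1) • y = t • z) : ¬ T 0 0 (t + c + 1) := by
  intro hT
  obtain ⟨i', rfl⟩ := Nat.exists_eq_add_of_le ha
  obtain ⟨j', rfl⟩ := Nat.exists_eq_add_of_le hb
  have h2 : T i' j' 0 := h.down h1 (by omega) (by omega) le_rfl
  have := h.inj hT h2 (by linear_combination (norm := module) h.L - ht)
  omega

/-- the gap dichotomy -/
lemma gap (h : D1 x y z T a b c) {i j dA dB : ℕ} (hA : 1 ≤ dA) (hB : 1 ≤ dB)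
    (ha : a ≤ i) (hb : b ≤ j)
    (h1 : T i (j + dB + 1) 0) (h2 : T (i + 1) (j + dB) 0) (h3 : ¬ T (i + 1) (j + dB + 1) 0)
    (h4 : T (i + dA) (j + 1) 0) (h5 : T (i + dA + 1) j 0) (h6 : ¬ T (i + dA + 1) (j + 1) 0) :
    ∃ d, 1 ≤ d ∧ d ≤ c ∧ ((a + 1 < dA ∧ ¬ T dA 0 d ∧ ¬ T 0 (dB + b + 1) (c + 1 - d)) ∨
      (b + 1 < dB ∧ ¬ T (dA + a + 1) 0 d ∧ ¬ T 0 dB (c + 1 - d))) := by
  obtain ⟨t1, ht1, e1⟩ := h.tail h1 h2 h3
  obtain ⟨t2, ht2, e2⟩ := h.tail h4 h5 h6
  have l1 := h.tail_large h1 ha (by omega) e1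
  have l2 := h.tail_large h4 (by omega) hb e2
  have m1 : t1 < t2 + c + 1 := by
    by_contra hcon
    exact l2 (h.down ht1 le_rfl le_rfl (by omega))
  have m2 : t2 < t1 + c + 1 := by
    by_contra hcon
    exact l1 (h.down ht2 le_rfl le_rfl (by omega))
  have hTB : T 0 dB 0 := h.down h1 (Nat.zero_le _) (by omega) le_rfl
  have hTA : T dA 0 0 := h.down h5 (by omega) (Nat.zero_le _) le_rfl
  rcases Nat.lt_trichotomy t2 t1 with hlt | heq | hlt
  · obtain ⟨d, rfl⟩ := Nat.exists_eq_add_of_lt hlt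
    have n1 : ¬ T dA 0 (d + 1) := by
      intro hT
      have := h.inj hT hTB (by linear_combination (norm := module) e2 - e1)
      omega
    have n2 : a + 1 < dA := by
      by_contra hcon
      exact n1 (h.down h.t3 (by omega) (Nat.zero_le _) (by omega))
    obtain ⟨e, rfl⟩ := Nat.exists_eq_add_of_lt n2
    obtain ⟨f, rfl⟩ : ∃ f, c = d + 1 + f := ⟨c - (d + 1), by omega⟩
    refine ⟨d + 1, by omega, by omega, Or.inl ⟨n2, n1, ?_⟩⟩
    have e3 : d + 1 + f + 1 - (d + 1) = f + 1 := by omega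
    rw [e3]
    intro hT
    have hTe : T (e + 1) 0 0 := h.down hTA (by omega) le_rfl le_rfl
    have := h.inj hT hTe (by linear_combination (norm := module) h.L + e1 - e2)
    omega
  · exfalso
    subst heq
    have := h.inj hTA hTB (by linear_combination (norm := module) e2 - e1)
    omega
  · obtain ⟨d, rfl⟩ := Nat.exists_eq_add_of_lt hlt
    obtain ⟨f, rfl⟩ : ∃ f, c = d + 1 + f := ⟨c - (d + 1), by omega⟩
    have e3 : d + 1 + f + 1 - (f + 1) = d + 1 := by omega
    have n1 : ¬ T 0 dB (d + 1) := by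
      intro hT
      have := h.inj hT hTA (by linear_combination (norm := module) e1 - e2)
      omega
    have n2 : b + 1 < dB := by
      by_contra hcon
      exact n1 (h.down h.t3 (Nat.zero_le _) (by omega) (by omega))
    refine ⟨f + 1, by omega, by omega, Or.inr ⟨n2, ?_, ?_⟩⟩
    · obtain ⟨e, rfl⟩ := Nat.exists_eq_add_of_lt n2
      intro hT
      have hTe : T 0 (e + 1) 0 := h.down hTB le_rfl (by omega) le_rfl
      have := h.inj hT hTe (by linear_combination (norm := module) h.L + e2 - e1)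
      omega
    · rw [e3]
      exact n1

/-- no collision in a thin rectangle -/
lemma rect_inj (h : D1 x y z T a b c) {i l i' l' : ℕ} (hi : T i 0 0) (hi' : T i' 0 0)
    (hl : l ≤ c + 1) (hl' : l' ≤ c + 1) (he : i • x + l • z = i' • x + l' • z) :
    i = i' ∧ l = l' := by
  have main : ∀ i l i' l' : ℕ, T i 0 0 → T i' 0 0 → l ≤ c + 1 → l' ≤ c + 1 → i' ≤ i →
      i • x + l • z = i' • x + l' • z → i = i' ∧ l = l' := by
    intro i l i' l' hi hi' hl hl' hii he
    obtain ⟨e, rfl⟩ := Nat.exists_eq_add_of_le hii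
    have hTe : T e 0 0 := h.down hi (by omega) le_rfl le_rfl
    rcases Nat.le_total l l' with hll | hll
    · obtain ⟨f, rfl⟩ := Nat.exists_eq_add_of_le hll
      have hTf : T 0 0 f := h.down h.t1 (Nat.zero_le _) (Nat.zero_le _) (by omega)
      have := h.inj hTe hTf (by linear_combination (norm := module) he)
      omega
    · obtain ⟨f, rfl⟩ := Nat.exists_eq_add_of_le hll
      rcases Nat.eq_zero_or_pos f with hf | hf
      · subst hf
        have hT0 : T 0 0 0 := h.down hTe (Nat.zero_le _) le_rfl le_rfl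
        have := h.inj hTe hT0 (by linear_combination (norm := module) he)
        omega
      · exfalso
        obtain ⟨f', rfl⟩ : ∃ f', f = f' + 1 := ⟨f - 1, by omega⟩
        obtain ⟨g, rfl⟩ : ∃ g, c = f' + g := ⟨c - f', by omega⟩
        have hTg : T (a + 1) (b + 1) g := h.down h.t3 le_rfl le_rfl (by omega)
        have := h.inj hTe hTg (by linear_combination (norm := module) he - h.L)
        omega
  rcases Nat.le_total i' i with hii | hii
  · exact main i l i' l' hi hi' hl hl' hii he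
  · obtain ⟨h1, h2⟩ := main i' l' i l hi' hi hl' hl hii he.symm
    exact ⟨h1.symm, h2.symm⟩

end D1

end

end Pool.Agent.Helper151.NS
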