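import Mathlib
import Pool.Agent.Helper151.NS.Cen1

set_option autoImplicit false

namespace Pool.Agent.Helper151.NS

open Finset

section

variable {G : Type*} [AddCommGroup G] {x y z : G} {T : ℕ → ℕ → ℕ → Prop} {a b c : ℕ}

/-- `(i+1, j+1)` is a corner of a planar down-set -/
def PC (F : ℕ → ℕ → Prop) (i j : ℕ) : Prop := F i (j + 1) ∧ F (i + 1) j ∧ ¬ F (i + 1) (j + 1)

namespace D1

lemma gap' (h : D1 x y z T a b c) {i j i2 j2 : ℕ} (hi : i < i2)
    (ha : a ≤ i) (hb : b ≤ j2)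
    (h1 : PC (fun p q => T p q 0) i j) (h2 : PC (fun p q => T p q 0) i2 j2) :
    j2 < j ∧ ∃ d, 1 ≤ d ∧ d ≤ c ∧
      ((a + 1 < i2 - i ∧ ¬ T (i2 - i) 0 d ∧ ¬ T 0 (j - j2 + b + 1) (c + 1 - d)) ∨
      (b + 1 < j - j2 ∧ ¬ T (i2 - i + a + 1) 0 d ∧ ¬ T 0 (j - j2) (c + 1 - d))) := by
  obtain ⟨p1, p2, p3⟩ := h1
  obtain ⟨q1, q2, q3⟩ := h2
  have hj : j2 < j := by
    by_contra hcon
    exact p3 (h.down q1 (by omega) (by omega) le_rfl)
  refine ⟨hj, ?_⟩
  obtain ⟨dA, rfl⟩ := Nat.exists_eq_add_of_lt hi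
  obtain ⟨dB, rfl⟩ := Nat.exists_eq_add_of_lt hj
  have e1 : i + dA + 1 - i = dA + 1 := by omega
  have e2 : j2 + dB + 1 - j2 = dB + 1 := by omega
  rw [e1, e2]
  exact h.gap (i := i) (j := j2) (dA := dA + 1) (dB := dB + 1) (by omega) (by omega) ha hb
    p1 p2 p3 q1 q2 q3

/-- at most one plane has two central corners -/
lemma structure_S (h : D1 x y z T a b c) {i j i2 j2 k l k2 l2 : ℕ} (hi : i < i2)
    (ha : a ≤ i) (hb : b ≤ j2)
    (h1 : PC (fun p q => T p q 0) i j) (h2 : PC (fun p q => T p q 0) i2 j2)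
    (hk : k < k2) (ha' : a ≤ k) (hc : c ≤ l2)
    (h3 : PC (fun p q => T p 0 q) k l) (h4 : PC (fun p q => T p 0 q) k2 l2) : False := by
  obtain ⟨_, d, hd1, hd2, hd3⟩ := h.gap' hi ha hb h1 h2
  obtain ⟨_, e, he1, he2, he3⟩ := h.swap23.gap' hk ha' hc h3 h4
  have f1 : ¬ T (i2 - i + a + 1) 0 d := by
    rcases hd3 with ⟨_, hd3, _⟩ | ⟨_, hd3, _⟩
    · intro hT
      exact hd3 (h.down hT (by omega) le_rfl le_rfl)
    · exact hd3
  have f2 : ¬ T (k2 - k + a + 1) e 0 := by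
    rcases he3 with ⟨_, he3, _⟩ | ⟨_, he3, _⟩
    · intro hT
      exact he3 (h.down hT (by omega) le_rfl le_rfl)
    · exact he3
  have g1 : k2 + 1 < i2 - i + a + 1 := by
    by_contra hcon
    exact f1 (h.down h4.2.1 (by omega) le_rfl (by omega))
  have g2 : i2 + 1 < k2 - k + a + 1 := by
    by_contra hcon
    exact f2 (h.down h2.2.1 (by omega) (by omega) le_rfl)
  omega

lemma width (h : D1 x y z T a b c) (Q : Finset (ℕ × ℕ))
    (hQ : ∀ s ∈ Q, PC (fun p q => T p 0 q) s.1 s.2 ∧ s.2 + 1 ≤ c) {s d : ℕ}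
    (hT : ¬ T s 0 d) (hd : d ≤ c) : Q.card + a + 2 ≤ s + d := by
  have hs : a + 2 ≤ s := by
    by_contra hcon
    exact hT (h.down h.t3 (by omega) (Nat.zero_le _) hd)
  have c0 := Finset.card_filter_add_card_filter_not (s := Q) (fun s => s.2 < d)
  have c1 : (Q.filter (fun s => s.2 < d)).card ≤ d := by
    refine le_trans (Finset.card_le_card_of_injOn (t := range d) (fun s => s.2) ?_ ?_)
      (Finset.card_range d).le
    · intro s hs
      rw [Finset.mem_coe, mem_filter] at hs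
      rw [Finset.mem_coe, mem_range]
      exact hs.2
    · rintro ⟨p, q⟩ h1 ⟨p', q'⟩ h2 he
      rw [Finset.mem_coe, mem_filter] at h1 h2
      obtain ⟨⟨a1, a2, a3⟩, _⟩ := hQ _ h1.1
      obtain ⟨⟨b1, b2, b3⟩, _⟩ := hQ _ h2.1
      simp only at he a1 a2 a3 b1 b2 b3
      subst he
      rcases Nat.lt_trichotomy p p' with h3 | h3 | h3
      · exact absurd (h.down b1 h3 le_rfl le_rfl) a3
      · rw [h3]
      · exact absurd (h.down a1 h3 le_rfl le_rfl) b3
  have c2 : (Q.filter (fun s => ¬ s.2 < d)).card ≤ s - 1 - (a + 1) := by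
    rw [← Nat.card_Ico]
    refine Finset.card_le_card_of_injOn (fun s => s.1) ?_ ?_
    · rintro ⟨p, q⟩ h1
      rw [Finset.mem_coe, mem_filter] at h1
      obtain ⟨⟨a1, a2, a3⟩, a4⟩ := hQ _ h1.1
      simp only at a1 a2 a3 a4
      have h5 := h1.2
      simp only at h5
      rw [Finset.mem_coe, mem_Ico]
      simp only
      constructor
      · by_contra hcon
        exact a3 (h.down h.t3 (by omega) (Nat.zero_le _) a4)
      · by_contra hcon
        exact hT (h.down a2 (by omega) le_rfl (by omega))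
    · rintro ⟨p, q⟩ h1 ⟨p', q'⟩ h2 he
      rw [Finset.mem_coe, mem_filter] at h1 h2
      obtain ⟨⟨a1, a2, a3⟩, _⟩ := hQ _ h1.1
      obtain ⟨⟨b1, b2, b3⟩, _⟩ := hQ _ h2.1
      simp only at he a1 a2 a3 b1 b2 b3
      subst he
      rcases Nat.lt_trichotomy q q' with h3 | h3 | h3
      · exact absurd (h.down b2 le_rfl le_rfl h3) a3
      · rw [h3]
      · exact absurd (h.down a2 le_rfl le_rfl h3) b3
  omega

/-- the gap inequalities -/
theorem gap_count (h : D1 x y z T a b c) (Q P : Finset (ℕ × ℕ))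
    (hQ : ∀ s ∈ Q, PC (fun p q => T p 0 q) s.1 s.2 ∧ s.2 + 1 ≤ c)
    (hP : ∀ s ∈ P, PC (fun p q => T 0 p q) s.1 s.2 ∧ s.2 + 1 ≤ c)
    {i j i2 j2 : ℕ} (hi : i < i2) (ha : a ≤ i) (hb : b ≤ j2)
    (h1 : PC (fun p q => T p q 0) i j) (h2 : PC (fun p q => T p q 0) i2 j2) :
    j2 < j ∧
    ((a + 2 ≤ i2 - i ∧ Q.card + P.card + a + 2 ≤ (i2 - i) + (j - j2) + c) ∨
     (b + 2 ≤ j - j2 ∧ Q.card + P.card + b + 2 ≤ (i2 - i) + (j - j2) + c)) := by
  obtain ⟨hj, d, hd1, hd2, hd3⟩ := h.gap' hi ha hb h1 h2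
  refine ⟨hj, ?_⟩
  rcases hd3 with ⟨e1, e2, e3⟩ | ⟨e1, e2, e3⟩
  · left
    have w1 := h.width Q hQ e2 hd2
    have w2 := h.swap12.width P hP (s := j - j2 + b + 1) (d := c + 1 - d) e3 (by omega)
    omega
  · right
    have w1 := h.width Q hQ e2 hd2
    have w2 := h.swap12.width P hP (s := j - j2) (d := c + 1 - d) e3 (by omega)
    omega

/-- the rectangle bound -/
theorem rect_bound [Fintype G] (h : D1 x y z T a b c) {A : ℕ} (hA : ∀ k, k < A → T k 0 0) :
    A * (c + 2) ≤ Fintype.card G := by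
  classical
  have : ((range A ×ˢ range (c + 2)).image (fun s : ℕ × ℕ => s.1 • x + s.2 • z)).card =
      A * (c + 2) := by
    rw [Finset.card_image_of_injOn, Finset.card_product, Finset.card_range, Finset.card_range]
    rintro ⟨i, l⟩ h1 ⟨i', l'⟩ h2 he
    rw [Finset.mem_coe, mem_product, mem_range, mem_range] at h1 h2
    obtain ⟨e1, e2⟩ := h.rect_inj (hA _ h1.1) (hA _ h2.1) (by have := h1.2; simp only at this; omega)
      (by have := h2.2; simp only at this; omega) he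
    simp only at e1 e2
    rw [e1, e2]
  rw [← this]
  exact Finset.card_le_univ _

end D1

end

end Pool.Agent.Helper151.NS
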