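import Mathlib

set_option autoImplicit false

namespace Pool.Agent.Helper151.NS

open MvPolynomial

/-- the degree (value in the semigroup) of an exponent -/
def deg (a : Fin 4 → ℕ) (v : Fin 4 →₀ ℕ) : ℕ := ∑ i, v i * a i

lemma deg_add (a : Fin 4 → ℕ) (v w : Fin 4 →₀ ℕ) : deg a (v + w) = deg a v + deg a w := by
  unfold deg
  rw [← Finset.sum_add_distrib]
  refine Finset.sum_congr rfl fun i _ => ?_
  rw [Finsupp.add_apply, add_mul]

/-- the toric ideal -/
noncomputable def tor (a : Fin 4 → ℕ) : Ideal (MvPolynomial (Fin 4) ℚ) :=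
  RingHom.ker (MvPolynomial.aeval
    (fun i : Fin 4 => (Polynomial.X : Polynomial ℚ) ^ (a i)))

lemma aeval_mono (a : Fin 4 → ℕ) (v : Fin 4 →₀ ℕ) (c : ℚ) :
    MvPolynomial.aeval (R := ℚ) (fun i : Fin 4 => (Polynomial.X : Polynomial ℚ) ^ (a i))
      (monomial v c) = Polynomial.monomial (deg a v) c := by
  rw [MvPolynomial.aeval_monomial]
  rw [Finsupp.prod_fintype _ _ (by intro i; simp)]
  have : ∏ i, ((Polynomial.X : Polynomial ℚ) ^ a i) ^ v i = Polynomial.X ^ deg a v := by
    unfold deg
    rw [← Finset.prod_pow_eq_pow_sum]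
    refine Finset.prod_congr rfl fun i _ => ?_
    rw [← pow_mul, mul_comm]
  rw [this, ← Polynomial.C_mul_X_pow_eq_monomial]
  rfl

lemma mem_tor_binom (a : Fin 4 → ℕ) (v w : Fin 4 →₀ ℕ) (h : deg a v = deg a w) :
    monomial v (1 : ℚ) - monomial w 1 ∈ tor a := by
  unfold tor
  rw [RingHom.mem_ker, map_sub, aeval_mono, aeval_mono, h, sub_self]

/-- coefficient extraction -/
lemma coeff_aeval (a : Fin 4 → ℕ) (p : MvPolynomial (Fin 4) ℚ) (d : ℕ) :
    (MvPolynomial.aeval (R := ℚ) (fun i : Fin 4 => (Polynomial.X : Polynomial ℚ) ^ (a i))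
      p).coeff d = ∑ v ∈ p.support, if deg a v = d then coeff v p else 0 := by
  conv_lhs => rw [p.as_sum, map_sum, Polynomial.finsetSum_coeff]
  refine Finset.sum_congr rfl fun v _ => ?_
  rw [aeval_mono, Polynomial.coeff_monomial]

/-- if every binomial lies in `J` then so does the toric ideal -/
lemma tor_le (a : Fin 4 → ℕ) (J : Ideal (MvPolynomial (Fin 4) ℚ))
    (h : ∀ v w : Fin 4 →₀ ℕ, deg a v = deg a w → monomial v (1 : ℚ) - monomial w 1 ∈ J) :
    tor a ≤ J := by
  classical
  let F : ℕ → (Fin 4 →₀ ℕ) := fun d => if h : ∃ v, deg a v = d then h.choose else 0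
  have hF : ∀ v, deg a (F (deg a v)) = deg a v := by
    intro v
    have hv : ∃ w, deg a w = deg a v := ⟨v, rfl⟩
    simp only [F, dif_pos hv]
    exact hv.choose_spec
  let Ψ : Polynomial ℚ →ₗ[ℚ] MvPolynomial (Fin 4) ℚ :=
    Polynomial.lsum (fun d => (MvPolynomial.monomial (F d) : ℚ →ₗ[ℚ] MvPolynomial (Fin 4) ℚ))
  have hΨ : ∀ (d : ℕ) (c : ℚ), Ψ (Polynomial.monomial d c) = monomial (F d) c := by
    intro d c
    simp only [Ψ, Polynomial.lsum_apply]
    rw [Polynomial.sum_monomial_index]
    simp
  have key : ∀ p : MvPolynomial (Fin 4) ℚ, p - Ψ (MvPolynomial.aeval (R := ℚ)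
      (fun i : Fin 4 => (Polynomial.X : Polynomial ℚ) ^ (a i)) p) ∈ J := by
    intro p
    induction p using MvPolynomial.induction_on' with
    | monomial v c =>
      rw [aeval_mono, hΨ]
      have h1 := h v (F (deg a v)) (hF v).symm
      have h2 : monomial v c - monomial (F (deg a v)) c =
          C c * (monomial v (1 : ℚ) - monomial (F (deg a v)) 1) := by
        rw [mul_sub, C_mul_monomial, C_mul_monomial, mul_one]
      rw [h2]
      exact Ideal.mul_mem_left _ _ h1
    | add p q hp hq =>
      rw [map_add, map_add]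
      have : p + q - (Ψ (MvPolynomial.aeval (R := ℚ)
        (fun i : Fin 4 => (Polynomial.X : Polynomial ℚ) ^ (a i)) p) + Ψ (MvPolynomial.aeval (R := ℚ)
        (fun i : Fin 4 => (Polynomial.X : Polynomial ℚ) ^ (a i)) q)) =
        (p - Ψ (MvPolynomial.aeval (R := ℚ)
        (fun i : Fin 4 => (Polynomial.X : Polynomial ℚ) ^ (a i)) p)) +
        (q - Ψ (MvPolynomial.aeval (R := ℚ)
        (fun i : Fin 4 => (Polynomial.X : Polynomial ℚ) ^ (a i)) q)) := by ring
      rw [this]
      exact Ideal.add_mem _ hp hq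
  intro p hp
  have h0 : MvPolynomial.aeval (R := ℚ)
      (fun i : Fin 4 => (Polynomial.X : Polynomial ℚ) ^ (a i)) p = 0 := hp
  have := key p
  rw [h0, map_zero, sub_zero] at this
  exact this

/-- elements with a unique factorization have zero coefficient in the toric ideal -/
lemma coeff_zero_of_unique (a : Fin 4 → ℕ) (e : Fin 4 →₀ ℕ)
    (he : ∀ v, deg a v = deg a e → v = e) (g : MvPolynomial (Fin 4) ℚ) (hg : g ∈ tor a) :
    coeff e g = 0 := by
  have h0 : MvPolynomial.aeval (R := ℚ)
      (fun i : Fin 4 => (Polynomial.X : Polynomial ℚ) ^ (a i)) g = 0 := hg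
  have h1 := coeff_aeval a g (deg a e)
  rw [h0, Polynomial.coeff_zero] at h1
  have h2 : ∑ v ∈ g.support, (if deg a v = deg a e then coeff v g else 0) =
      ∑ v ∈ g.support, (if v = e then coeff v g else 0) := by
    refine Finset.sum_congr rfl fun v _ => ?_
    by_cases hv : v = e
    · subst hv; simp
    · rw [if_neg hv, if_neg (fun h => hv (he v h))]
  rw [h2, Finset.sum_ite_eq'] at h1
  by_cases hs : e ∈ g.support
  · rw [if_pos hs] at h1; exact h1.symm
  · exact notMem_support_iff.mp hs

/-- the lower bound for the number of generators -/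
theorem lower (a : Fin 4 → ℕ) (E : Finset (Fin 4 →₀ ℕ))
    (hE : ∀ u ∈ E, ∀ i, 0 < u i → ∀ v, deg a v = deg a (u - Finsupp.single i 1) →
      v = u - Finsupp.single i 1)
    (hE2 : ∀ u ∈ E, ∃ v, v ∉ E ∧ deg a v = deg a u)
    (s : Finset (MvPolynomial (Fin 4) ℚ)) (hs : Ideal.span (s : Set (MvPolynomial (Fin 4) ℚ)) = tor a) :
    E.card ≤ s.card := by
  classical
  let L : MvPolynomial (Fin 4) ℚ →ₗ[ℚ] (E → ℚ) :=
    LinearMap.pi fun u => MvPolynomial.lcoeff ℚ u.1
  have hL : ∀ p u, L p u = coeff u.1 p := by intro p u; rfl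
  -- strict divisors have unique factorization
  have hdiv : ∀ u ∈ E, ∀ x y : Fin 4 →₀ ℕ, x + y = u → x ≠ 0 → ∀ g ∈ tor a, coeff y g = 0 := by
    intro u hu x y hxy hx g hg
    obtain ⟨i, hi⟩ : ∃ i, x i ≠ 0 := by
      by_contra hcon
      push Not at hcon
      exact hx (Finsupp.ext fun i => by simpa using hcon i)
    have hui : 0 < u i := by
      rw [← hxy, Finsupp.add_apply]; omega
    refine coeff_zero_of_unique a y ?_ g hg
    intro v hv
    have hx1 : x = (x - Finsupp.single i 1) + Finsupp.single i 1 := by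
      ext j
      simp only [Finsupp.add_apply, Finsupp.tsub_apply, Finsupp.single_apply]
      split_ifs with hj
      · subst hj; omega
      · omega
    have hu1 : u - Finsupp.single i 1 = (x - Finsupp.single i 1) + y := by
      rw [← hxy]
      conv_lhs => rw [hx1]
      ext j
      simp only [Finsupp.add_apply, Finsupp.tsub_apply, Finsupp.single_apply]
      omega
    have := hE u hu i hui ((x - Finsupp.single i 1) + v) (by
      rw [hu1, deg_add, deg_add, hv])
    rw [hu1] at this
    exact add_left_cancel this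
  have hmul : ∀ p g : MvPolynomial (Fin 4) ℚ, g ∈ tor a → L (p * g) = (coeff 0 p) • L g := by
    intro p g hg
    funext u
    rw [hL, Pi.smul_apply, hL, coeff_mul, smul_eq_mul]
    rw [Finset.sum_eq_single ((0 : Fin 4 →₀ ℕ), u.1)]
    · rintro ⟨x, y⟩ hxy hne
      rw [Finset.HasAntidiagonal.mem_antidiagonal] at hxy
      have hx : x ≠ 0 := by
        rintro rfl
        apply hne
        simp at hxy
        rw [hxy]
      simp only
      rw [hdiv u.1 u.2 x y hxy hx g hg, mul_zero]
    · intro h
      exact absurd (Finset.HasAntidiagonal.mem_antidiagonal.mpr (zero_add _)) h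
  let S : Submodule ℚ (E → ℚ) := Submodule.span ℚ ((s.image L : Finset (E → ℚ)) : Set (E → ℚ))
  have hspan : ∀ g ∈ tor a, L g ∈ S := by
    intro g hg
    rw [← hs] at hg
    induction hg using Submodule.span_induction with
    | mem x hx =>
      refine Submodule.subset_span ?_
      rw [Finset.coe_image]
      exact ⟨x, hx, rfl⟩
    | zero => rw [map_zero]; exact Submodule.zero_mem _
    | add x y _ _ hx hy => rw [map_add]; exact Submodule.add_mem _ hx hy
    | smul p x hxm hx =>
      rw [smul_eq_mul, hmul p x (by rw [← hs]; exact hxm)]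
      exact Submodule.smul_mem _ _ hx
  have htop : S = ⊤ := by
    rw [eq_top_iff]
    intro w _
    have hw : w = ∑ u, w u • (Pi.single u (1 : ℚ) : E → ℚ) := by
      funext u'
      simp [Finset.sum_apply, Pi.single_apply]
    rw [hw]
    refine Submodule.sum_mem _ fun u _ => Submodule.smul_mem _ _ ?_
    obtain ⟨v, hv, hd⟩ := hE2 u.1 u.2
    have h1 := hspan _ (mem_tor_binom a u.1 v hd.symm)
    have h2 : L (monomial u.1 (1 : ℚ) - monomial v 1) = Pi.single u 1 := by
      funext u'
      rw [hL, coeff_sub, coeff_monomial, coeff_monomial, Pi.single_apply]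
      have h3 : v ≠ u'.1 := by rintro rfl; exact hv u'.2
      rw [if_neg h3, sub_zero]
      by_cases h4 : u' = u
      · subst h4; simp
      · rw [if_neg h4, if_neg (fun h => h4 (Subtype.ext h.symm))]
    rw [h2] at h1
    exact h1
  have h1 : Module.finrank ℚ S ≤ (s.image L).card := finrank_span_finset_le_card _
  rw [htop, finrank_top, Module.finrank_fintype_fun_eq_card, Fintype.card_coe] at h1
  exact h1.trans Finset.card_image_le

end Pool.Agent.Helper151.NS
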