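import Mathlib
import Pool.Agent.Helper151.NS.Abs5

set_option autoImplicit false

namespace Pool.Agent.Helper151.NS

open Finset

/-- a transversal staircase in three dimensions, given by heights -/
structure T3 {G : Type*} [AddCommGroup G] (x y z : G) (S : Finset (ℕ × ℕ)) (Z : ℕ → ℕ → ℕ) :
    Prop where
  hS : ∀ a b, (a, b) ∈ S ↔ 0 < Z a b
  anti1 : ∀ a b, Z (a + 1) b ≤ Z a b
  anti2 : ∀ a b, Z a (b + 1) ≤ Z a b
  inj : ∀ a b c a' b' c' : ℕ, c < Z a b → c' < Z a' b' →
    a • x + b • y + c • z = a' • x + b' • y + c' • z → a = a' ∧ b = b' ∧ c = c'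
  surj : ∀ a b c : ℕ, ∃ a' b' c' : ℕ, c' < Z a' b' ∧ a • x + b • y + c • z = a' • x + b' • y + c' • z

namespace T3

variable {G : Type*} [AddCommGroup G] {x y z : G} {S : Finset (ℕ × ℕ)} {Z : ℕ → ℕ → ℕ}

lemma anti (h : T3 x y z S Z) {a b a' b' : ℕ} (h1 : a' ≤ a) (h2 : b' ≤ b) : Z a b ≤ Z a' b' := by
  have e1 : Z a b ≤ Z a' b := antitone_nat_of_succ_le (f := fun a => Z a b)
    (fun n => h.anti1 n b) h1
  have e2 : Z a' b ≤ Z a' b' := antitone_nat_of_succ_le (f := fun b => Z a' b)
    (fun n => h.anti2 a' n) h2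
  exact e1.trans e2

/-- the swapped structure -/
lemma swap (h : T3 x y z S Z) : T3 y x z (S.image Prod.swap) (fun a b => Z b a) where
  hS := by
    intro a b
    rw [← h.hS, mem_image]
    constructor
    · rintro ⟨⟨c, d⟩, h1, h2⟩
      simp only [Prod.swap_prod_mk, Prod.mk.injEq] at h2
      obtain ⟨rfl, rfl⟩ := h2
      exact h1
    · intro h1
      exact ⟨(b, a), h1, rfl⟩
  anti1 := fun a b => h.anti2 b a
  anti2 := fun a b => h.anti1 b a
  inj := by
    intro a b c a' b' c' h1 h2 h3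
    have := h.inj b a c b' a' c' h1 h2 (by
      rw [add_comm (b • x), add_comm (b' • x)]
      exact h3)
    exact ⟨this.2.1, this.1, this.2.2⟩
  surj := by
    intro a b c
    obtain ⟨a', b', c', h1, h2⟩ := h.surj b a c
    refine ⟨b', a', c', h1, ?_⟩
    rw [add_comm (a • y), add_comm (b' • y)]
    exact h2

lemma exists_f (h : T3 x y z S Z) : ∃ f : ℕ × ℕ → ℕ × ℕ, ∀ a b, (a, b) ∈ S → f (a, b) ∈ S ∧
    a • x + b • y + Z a b • z = (f (a, b)).1 • x + (f (a, b)).2 • y := by
  have : ∀ s : ℕ × ℕ, ∃ t : ℕ × ℕ, s ∈ S → t ∈ S ∧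
      s.1 • x + s.2 • y + Z s.1 s.2 • z = t.1 • x + t.2 • y := by
    rintro ⟨a, b⟩
    by_cases hs : (a, b) ∈ S
    · obtain ⟨a', b', c', h1, h2⟩ := h.surj a b (Z a b)
      have hc : c' = 0 := by
        by_contra hc
        obtain ⟨d, rfl⟩ : ∃ d, c' = d + 1 := ⟨c' - 1, by omega⟩
        have hpos := (h.hS a b).mp hs
        obtain ⟨e, he⟩ : ∃ e, Z a b = e + 1 := ⟨Z a b - 1, by omega⟩
        have h3 : a • x + b • y + e • z = a' • x + b' • y + d • z := by
          have : a • x + b • y + e • z + z = a' • x + b' • y + d • z + z := by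
            rw [he] at h2
            rw [add_assoc _ _ z, add_assoc _ _ z, ← succ_nsmul, ← succ_nsmul]
            exact h2
          exact add_right_cancel this
        have h4 := h.inj _ _ _ _ _ _ (by omega) (by omega) h3
        obtain ⟨rfl, rfl, rfl⟩ := h4
        omega
      subst hc
      refine ⟨(a', b'), fun _ => ⟨(h.hS _ _).mpr h1, ?_⟩⟩
      simp only
      rw [h2, zero_nsmul, add_zero]
    · exact ⟨(0, 0), fun h => absurd h hs⟩
  choose f hf using this
  exact ⟨f, fun a b hab => hf (a, b) hab⟩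

/-- the height map structure -/
theorem exists_PS (h : T3 x y z S Z) : ∃ f g : ℕ × ℕ → ℕ × ℕ, PS S f g ∧
    ∀ a b, (a, b) ∈ S → a • x + b • y + Z a b • z = (f (a, b)).1 • x + (f (a, b)).2 • y := by
  obtain ⟨f, hf⟩ := h.exists_f
  have hfS : ∀ s ∈ S, f s ∈ S := fun s hs => (hf s.1 s.2 hs).1
  have hinj : ∀ s ∈ S, ∀ t ∈ S, f s = f t → s = t := by
    rintro ⟨a, b⟩ hs ⟨c, d⟩ ht he
    have e1 := (hf a b hs).2
    have e2 := (hf c d ht).2
    rw [he, ← e2] at e1
    have p1 := (h.hS _ _).mp hs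
    have p2 := (h.hS _ _).mp ht
    rcases Nat.le_total (Z a b) (Z c d) with h1 | h1
    · obtain ⟨k, hk⟩ := Nat.exists_eq_add_of_le h1
      rw [hk, add_nsmul] at e1
      have e3 : a • x + b • y + 0 • z = c • x + d • y + k • z := by
        have : a • x + b • y + 0 • z + Z a b • z = c • x + d • y + k • z + Z a b • z := by
          rw [zero_nsmul, add_zero, e1]
          abel
        exact add_right_cancel this
      obtain ⟨rfl, rfl, _⟩ := h.inj _ _ _ _ _ _ p1 (by omega) e3
      rfl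
    · obtain ⟨k, hk⟩ := Nat.exists_eq_add_of_le h1
      rw [hk, add_nsmul] at e1
      have e3 : a • x + b • y + k • z = c • x + d • y + 0 • z := by
        have : a • x + b • y + k • z + Z c d • z = c • x + d • y + 0 • z + Z c d • z := by
          rw [zero_nsmul, add_zero, ← e1]
          abel
        exact add_right_cancel this
      obtain ⟨rfl, rfl, _⟩ := h.inj _ _ _ _ _ _ (by omega) p2 e3
      rfl
  have hsurj : ∀ t ∈ S, ∃ s ∈ S, f s = t := by
    have himg : S.image f = S := by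
      refine Finset.eq_of_subset_of_card_le ?_ ?_
      · intro t ht
        rw [mem_image] at ht
        obtain ⟨s, hs, rfl⟩ := ht
        exact hfS s hs
      · rw [Finset.card_image_of_injOn]
        intro s hs t ht he
        exact hinj s hs t ht he
    intro t ht
    rw [← himg, mem_image] at ht
    exact ht
  have hg : ∀ t : ℕ × ℕ, ∃ s : ℕ × ℕ, t ∈ S → s ∈ S ∧ f s = t := by
    intro t
    by_cases ht : t ∈ S
    · obtain ⟨s, h1, h2⟩ := hsurj t ht
      exact ⟨s, fun _ => ⟨h1, h2⟩⟩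
    · exact ⟨(0, 0), fun h => absurd h ht⟩
  choose g hg using hg
  refine ⟨f, g, ⟨?_, hfS, fun s hs => (hg s hs).1, ?_, fun s hs => (hg s hs).2, ?_, ?_⟩,
    fun a b hab => (hf a b hab).2⟩
  · intro a b c d hab hc hd
    rw [h.hS] at hab ⊢
    exact lt_of_lt_of_le hab (h.anti hc hd)
  · intro s hs
    exact hinj _ (hg _ (hfS s hs)).1 _ hs (hg _ (hfS s hs)).2
  · intro a b hab hne
    obtain ⟨p, q, hpq⟩ : ∃ p q, f (a + 1, b) = (p + 1, q) :=
      ⟨(f (a + 1, b)).1 - 1, (f (a + 1, b)).2, by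
        rw [Nat.sub_add_cancel (Nat.pos_of_ne_zero hne)]⟩
    obtain ⟨h1, h2⟩ := hf _ _ hab
    rw [hpq] at h1 h2
    simp only at h2
    have hab' : (a, b) ∈ S := by
      rw [h.hS] at hab ⊢
      exact lt_of_lt_of_le hab (h.anti (Nat.le_succ a) le_rfl)
    have h3 : a • x + b • y + Z (a + 1) b • z = p • x + q • y := by
      have : a • x + b • y + Z (a + 1) b • z + x = p • x + q • y + x := by
        rw [succ_nsmul, succ_nsmul] at h2
        have e1 : a • x + b • y + Z (a + 1) b • z + x = a • x + x + b • y + Z (a + 1) b • z := by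
          abel
        rw [e1, h2]
        abel
      exact add_right_cancel this
    have h1' := (h.hS _ _).mp h1
    have hpq' : 0 < Z p q := lt_of_lt_of_le h1' (h.anti (Nat.le_succ p) le_rfl)
    have h4 : Z (a + 1) b = Z a b := by
      refine le_antisymm (h.anti1 a b) ?_
      by_contra hlt
      push Not at hlt
      have := h.inj _ _ _ _ _ 0 hlt hpq' (by rw [h3, zero_nsmul, add_zero])
      have h5 := (h.hS _ _).mp hab
      omega
    obtain ⟨h5, h6⟩ := hf _ _ hab'
    rw [← h4, h3] at h6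
    have h7 : 0 < Z (f (a, b)).1 (f (a, b)).2 := (h.hS _ _).mp h5
    obtain ⟨h8, h9, _⟩ := h.inj _ _ 0 _ _ 0 hpq' h7 (by rw [h6])
    rw [hpq, ← h8, ← h9]
  · intro a b hab hne
    obtain ⟨p, q, hpq⟩ : ∃ p q, f (a, b + 1) = (p, q + 1) :=
      ⟨(f (a, b + 1)).1, (f (a, b + 1)).2 - 1, by
        rw [Nat.sub_add_cancel (Nat.pos_of_ne_zero hne)]⟩
    obtain ⟨h1, h2⟩ := hf _ _ hab
    rw [hpq] at h1 h2
    simp only at h2
    have hab' : (a, b) ∈ S := by
      rw [h.hS] at hab ⊢
      exact lt_of_lt_of_le hab (h.anti le_rfl (Nat.le_succ b))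
    have h3 : a • x + b • y + Z a (b + 1) • z = p • x + q • y := by
      have : a • x + b • y + Z a (b + 1) • z + y = p • x + q • y + y := by
        rw [succ_nsmul, succ_nsmul] at h2
        have e1 : a • x + b • y + Z a (b + 1) • z + y =
            a • x + (b • y + y) + Z a (b + 1) • z := by
          abel
        rw [e1, h2]
        abel
      exact add_right_cancel this
    have h1' := (h.hS _ _).mp h1
    have hpq' : 0 < Z p q := lt_of_lt_of_le h1' (h.anti le_rfl (Nat.le_succ q))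
    have h4 : Z a (b + 1) = Z a b := by
      refine le_antisymm (h.anti2 a b) ?_
      by_contra hlt
      push Not at hlt
      have := h.inj _ _ _ _ _ 0 hlt hpq' (by rw [h3, zero_nsmul, add_zero])
      have h5 := (h.hS _ _).mp hab
      omega
    obtain ⟨h5, h6⟩ := hf _ _ hab'
    rw [← h4, h3] at h6
    have h7 : 0 < Z (f (a, b)).1 (f (a, b)).2 := (h.hS _ _).mp h5
    obtain ⟨h8, h9, _⟩ := h.inj _ _ 0 _ _ 0 hpq' h7 (by rw [h6])
    rw [hpq, ← h8, ← h9]

end T3

end Pool.Agent.Helper151.NS
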