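import Mathlib
import Pool.Agent.Helper151.NS.Tri1

set_option autoImplicit false

namespace Pool.Agent.Helper151.NS

open Finset PS

namespace T3

variable {G : Type*} [AddCommGroup G] {x y z : G} {S : Finset (ℕ × ℕ)} {Z : ℕ → ℕ → ℕ}

/-- the tail of a planar corner -/
lemma corner_tail (h : T3 x y z S Z) {i j : ℕ} (h1 : 0 < Z i (j + 1)) (h2 : 0 < Z (i + 1) j)
    (h3 : Z (i + 1) (j + 1) = 0) : ∃ t, t < Z 0 0 ∧ (i + 1) • x + (j + 1) • y = t • z := by
  obtain ⟨p, q, t, h4, h5⟩ := h.surj (i + 1) (j + 1) 0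
  rw [zero_nsmul, add_zero] at h5
  have hp : p = 0 := by
    by_contra hp
    obtain ⟨p', rfl⟩ : ∃ p', p = p' + 1 := ⟨p - 1, by omega⟩
    have h6 : i • x + (j + 1) • y + 0 • z = p' • x + q • y + t • z := by
      have : i • x + (j + 1) • y + 0 • z + x = p' • x + q • y + t • z + x := by
        rw [zero_nsmul, add_zero]
        have e1 : i • x + (j + 1) • y + x = (i + 1) • x + (j + 1) • y := by
          rw [succ_nsmul x i]; abel
        rw [e1, h5, succ_nsmul x p']; abel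
      exact add_right_cancel this
    obtain ⟨rfl, rfl, rfl⟩ := h.inj _ _ _ _ _ _ h1
      (lt_of_lt_of_le h4 (h.anti (Nat.le_succ p') le_rfl)) h6
    omega
  have hq : q = 0 := by
    by_contra hq
    obtain ⟨q', rfl⟩ : ∃ q', q = q' + 1 := ⟨q - 1, by omega⟩
    have h6 : (i + 1) • x + j • y + 0 • z = p • x + q' • y + t • z := by
      have : (i + 1) • x + j • y + 0 • z + y = p • x + q' • y + t • z + y := by
        rw [zero_nsmul, add_zero]
        have e1 : (i + 1) • x + j • y + y = (i + 1) • x + (j + 1) • y := by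
          rw [succ_nsmul y j]; abel
        rw [e1, h5, succ_nsmul y q']; abel
      exact add_right_cancel this
    obtain ⟨rfl, rfl, rfl⟩ := h.inj _ _ _ _ _ _ h2
      (lt_of_lt_of_le h4 (h.anti le_rfl (Nat.le_succ q'))) h6
    omega
  subst hp hq
  refine ⟨t, h4, ?_⟩
  rw [h5, zero_nsmul, zero_nsmul, zero_add, zero_add]

/-- classification of bad corners -/
lemma typ (h : T3 x y z S Z) {i j a : ℕ} (h1 : 0 < Z i (j + 1)) (h2 : 0 < Z (i + 1) j)
    (h3 : Z (i + 1) (j + 1) = 0) (ha : 0 < Z a 0)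
    (he : i • x + (j + 1) • y + Z i (j + 1) • z = a • x) :
    Z (a + 1) 0 = 0 ∨ ((∃ c, c < Z i (j + 1) ∧
      (i + 1) • x + (j + 1) • y + c • z = (Z 0 0 - 1) • z) ∧
      ∀ p q, 0 < Z p q → Z 0 0 • z = p • x + q • y → p = 0 ∨ q = 0) := by
  obtain ⟨t, ht, hte⟩ := h.corner_tail h1 h2 h3
  have h0 : 0 < Z 0 0 := lt_of_lt_of_le h1 (h.anti (Nat.zero_le _) (Nat.zero_le _))
  have hτ : (t + Z i (j + 1)) • z = (a + 1) • x := by
    rw [add_nsmul, ← hte, succ_nsmul x a, ← he, succ_nsmul x i]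
    abel
  rcases Nat.lt_or_ge (t + Z i (j + 1)) (Z 0 0) with hlt | hge
  · left
    by_contra hne
    have := h.inj (a + 1) 0 0 0 0 (t + Z i (j + 1)) (Nat.pos_of_ne_zero hne) hlt (by
      rw [hτ, zero_nsmul, zero_nsmul, zero_nsmul, add_zero, add_zero, add_zero, zero_add])
    omega
  · right
    refine ⟨⟨Z 0 0 - 1 - t, by omega, ?_⟩, ?_⟩
    · rw [hte, ← add_nsmul]
      congr 1
      omega
    · intro p q hpq hz
      by_contra hcon
      push Not at hcon
      obtain ⟨hp, hq⟩ := hcon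
      obtain ⟨p', rfl⟩ : ∃ p', p = p' + 1 := ⟨p - 1, by omega⟩
      have hpq' : 0 < Z p' q := lt_of_lt_of_le hpq (h.anti (Nat.le_succ p') le_rfl)
      rcases Nat.lt_or_ge (Z 0 0) (t + Z i (j + 1)) with h5 | h5
      · have h6 : i • x + (j + 1) • y + (Z 0 0 - t) • z = p' • x + q • y + 0 • z := by
          have : i • x + (j + 1) • y + (Z 0 0 - t) • z + x = p' • x + q • y + 0 • z + x := by
            have e1 : i • x + (j + 1) • y + (Z 0 0 - t) • z + x =
                ((i + 1) • x + (j + 1) • y) + (Z 0 0 - t) • z := by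
              rw [succ_nsmul x i]; abel
            rw [e1, hte, ← add_nsmul]
            have e2 : t + (Z 0 0 - t) = Z 0 0 := by omega
            rw [e2, hz, succ_nsmul x p', zero_nsmul]
            abel
          exact add_right_cancel this
        have := h.inj _ _ _ _ _ _ (by omega) hpq' h6
        omega
      · have h6 : t + Z i (j + 1) = Z 0 0 := le_antisymm h5 hge
        rw [h6, hz] at hτ
        have h7 : a • x + 0 • y + 0 • z = p' • x + q • y + 0 • z := by
          have : a • x + 0 • y + 0 • z + x = p' • x + q • y + 0 • z + x := by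
            rw [zero_nsmul, zero_nsmul, add_zero, add_zero, ← succ_nsmul, ← hτ, succ_nsmul x p']
            abel
          exact add_right_cancel this
        have := h.inj _ _ _ _ _ _ ha hpq' h7
        omega

/-- the special cell -/
lemma typ0 (h : T3 x y z S Z) {i j a : ℕ} (h1 : 0 < Z (i + 1) (j + 1))
    (h2 : (i + 1) • x + (j + 1) • y + Z (i + 1) (j + 1) • z = 0)
    (he : i • x + (j + 1) • y + Z i (j + 1) • z = a • x) :
    Z (a + 1) 0 = 0 := by
  have h3 : Z (i + 1) (j + 1) ≤ Z i (j + 1) := h.anti1 _ _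
  have h4 : Z i (j + 1) ≤ Z 0 0 := h.anti (Nat.zero_le _) (Nat.zero_le _)
  have hτ : (Z i (j + 1) - Z (i + 1) (j + 1)) • z = (a + 1) • x := by
    have e1 : (Z i (j + 1) - Z (i + 1) (j + 1)) • z + Z (i + 1) (j + 1) • z =
        Z i (j + 1) • z := by
      rw [← add_nsmul, Nat.sub_add_cancel h3]
    have e2 : (i + 1) • x + (j + 1) • y +
        ((Z i (j + 1) - Z (i + 1) (j + 1)) • z + Z (i + 1) (j + 1) • z) = (a + 1) • x := by
      rw [e1, succ_nsmul x a, ← he, succ_nsmul x i]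
      abel
    have e3 : (i + 1) • x + (j + 1) • y +
        ((Z i (j + 1) - Z (i + 1) (j + 1)) • z + Z (i + 1) (j + 1) • z) =
        ((i + 1) • x + (j + 1) • y + Z (i + 1) (j + 1) • z) +
          (Z i (j + 1) - Z (i + 1) (j + 1)) • z := by
      abel
    rw [e3, h2, zero_add] at e2
    exact e2
  by_contra hne
  have := h.inj (a + 1) 0 0 0 0 (Z i (j + 1) - Z (i + 1) (j + 1)) (Nat.pos_of_ne_zero hne)
    (by omega) (by
      rw [hτ, zero_nsmul, zero_nsmul, zero_nsmul, add_zero, add_zero, add_zero, zero_add])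
  omega

open Classical in
/-- the number of bad corners, horizontally -/
lemma bad_card (h : T3 x y z S Z) {f g : ℕ × ℕ → ℕ × ℕ} (hP : PS S f g)
    (hf : ∀ a b, (a, b) ∈ S → a • x + b • y + Z a b • z = (f (a, b)).1 • x + (f (a, b)).2 • y)
    (h0 : (0, 0) ∈ S)
    (K : Finset (ℕ × ℕ)) (hK : ∀ k ∈ K, k ∈ Zc S ∨ (k = g (0, 0) ∧ k.1 ≠ 0 ∧ k.2 ≠ 0)) :
    (K.filter (fun k => V f (k.1 - 1, k.2))).card ≤ 2 ∧
    ((f (0, 0)).1 ≠ 0 → (f (0, 0)).2 ≠ 0 → (K.filter (fun k => V f (k.1 - 1, k.2))).card ≤ 1) := by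
  have key : ∀ k ∈ K.filter (fun k => V f (k.1 - 1, k.2)),
      k ∈ K.filter (fun k => 0 < k.1 ∧ (k.1 - 1, k.2) ∈ S ∧ (f (k.1 - 1, k.2)).2 = 0 ∧
        Z ((f (k.1 - 1, k.2)).1 + 1) 0 = 0) ∪
      K.filter (fun k => 0 < k.1 ∧ (∃ c, c < Z (k.1 - 1) k.2 ∧
        k.1 • x + k.2 • y + c • z = (Z 0 0 - 1) • z) ∧
        ∀ p q, 0 < Z p q → Z 0 0 • z = p • x + q • y → p = 0 ∨ q = 0) := by
    intro k hk
    rw [mem_filter] at hk
    obtain ⟨hkK, hkV⟩ := hk
    rw [mem_union, mem_filter, mem_filter]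
    rcases hK k hkK with h1 | ⟨h1, h2, h3⟩
    · obtain ⟨i, j, rfl⟩ := PS.of_mem_Zc h1
      rw [PS.mem_Zc] at h1
      obtain ⟨a1, a2, a3⟩ := h1
      have hv : (f (i, j + 1)).2 = 0 := by
        rcases hkV with hv | hv
        · exact absurd hv (Nat.succ_ne_zero j)
        · exact hv
      have e1 := hf i (j + 1) a1
      rw [hv, zero_nsmul, add_zero] at e1
      have hfs := hP.fS _ a1
      have ha : 0 < Z (f (i, j + 1)).1 0 := by
        rw [← h.hS, ← hv]
        exact hfs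
      have a3' : Z (i + 1) (j + 1) = 0 := by
        rw [h.hS] at a3
        omega
      rcases h.typ ((h.hS _ _).mp a1) ((h.hS _ _).mp a2) a3' ha e1 with h4 | ⟨h4, h5⟩
      · left
        exact ⟨hkK, Nat.succ_pos _, a1, hv, h4⟩
      · right
        exact ⟨hkK, Nat.succ_pos _, h4, h5⟩
    · left
      obtain ⟨i, j, rfl⟩ : ∃ i j, k = (i + 1, j + 1) := ⟨k.1 - 1, k.2 - 1, by
        ext
        · simp only; omega
        · simp only; omega⟩
      have hkS : (i + 1, j + 1) ∈ S := by rw [h1]; exact hP.gS _ h0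
      have hfk : f (i + 1, j + 1) = (0, 0) := by rw [h1]; exact hP.fg _ h0
      have a1 : (i, j + 1) ∈ S := hP.down _ _ _ _ hkS (Nat.le_succ i) le_rfl
      have hv : (f (i, j + 1)).2 = 0 := by
        rcases hkV with hv | hv
        · exact absurd hv (Nat.succ_ne_zero j)
        · exact hv
      have e1 := hf i (j + 1) a1
      rw [hv, zero_nsmul, add_zero] at e1
      have e2 := hf _ _ hkS
      rw [hfk, zero_nsmul, zero_nsmul, add_zero] at e2
      exact ⟨hkK, Nat.succ_pos _, a1, hv, h.typ0 ((h.hS _ _).mp hkS) e2 e1⟩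
  have u1 : (K.filter (fun k => 0 < k.1 ∧ (k.1 - 1, k.2) ∈ S ∧ (f (k.1 - 1, k.2)).2 = 0 ∧
        Z ((f (k.1 - 1, k.2)).1 + 1) 0 = 0)).card ≤ 1 := by
    rw [Finset.card_le_one]
    rintro ⟨a, b⟩ ha ⟨c, d⟩ hc
    rw [mem_filter] at ha hc
    obtain ⟨_, a1, a2, a3, a4⟩ := ha
    obtain ⟨_, c1, c2, c3, c4⟩ := hc
    simp only at a1 a2 a3 a4 c1 c2 c3 c4
    have e1 := hP.fS _ a2
    have e2 := hP.fS _ c2
    have e3 : (f (a - 1, b)).1 = (f (c - 1, d)).1 := by
      have f1 : 0 < Z (f (a - 1, b)).1 0 := by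
        rw [← h.hS, ← a3]; exact e1
      have f2 : 0 < Z (f (c - 1, d)).1 0 := by
        rw [← h.hS, ← c3]; exact e2
      rcases Nat.lt_trichotomy (f (a - 1, b)).1 (f (c - 1, d)).1 with h6 | h6 | h6
      · have := h.anti (a := (f (c - 1, d)).1) (b := 0) (a' := (f (a - 1, b)).1 + 1) (b' := 0)
          (by omega) le_rfl
        omega
      · exact h6
      · have := h.anti (a := (f (a - 1, b)).1) (b := 0) (a' := (f (c - 1, d)).1 + 1) (b' := 0)
          (by omega) le_rfl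
        omega
    have e4 : f (a - 1, b) = f (c - 1, d) := Prod.ext e3 (by rw [a3, c3])
    have e5 := hP.inj a2 c2 e4
    simp only [Prod.mk.injEq] at e5
    ext
    · simp only; omega
    · simp only; omega
  have u2 : (K.filter (fun k => 0 < k.1 ∧ (∃ c, c < Z (k.1 - 1) k.2 ∧
        k.1 • x + k.2 • y + c • z = (Z 0 0 - 1) • z) ∧
        ∀ p q, 0 < Z p q → Z 0 0 • z = p • x + q • y → p = 0 ∨ q = 0)).card ≤ 1 := by
    rw [Finset.card_le_one]
    rintro ⟨a, b⟩ ha ⟨c, d⟩ hc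
    rw [mem_filter] at ha hc
    obtain ⟨_, a1, ⟨r, a2, a3⟩, _⟩ := ha
    obtain ⟨_, c1, ⟨s, c2, c3⟩, _⟩ := hc
    simp only at a1 a2 a3 c1 c2 c3
    obtain ⟨a', rfl⟩ : ∃ a', a = a' + 1 := ⟨a - 1, by omega⟩
    obtain ⟨c', rfl⟩ : ∃ c', c = c' + 1 := ⟨c - 1, by omega⟩
    have e : a' • x + b • y + r • z = c' • x + d • y + s • z := by
      have : a' • x + b • y + r • z + x = c' • x + d • y + s • z + x := by
        have e1 : a' • x + b • y + r • z + x = (a' + 1) • x + b • y + r • z := by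
          rw [succ_nsmul x a']; abel
        have e2 : c' • x + d • y + s • z + x = (c' + 1) • x + d • y + s • z := by
          rw [succ_nsmul x c']; abel
        rw [e1, e2, a3, c3]
      exact add_right_cancel this
    obtain ⟨rfl, rfl, _⟩ := h.inj _ _ _ _ _ _ a2 c2 e
    rfl
  have h1 := Finset.card_le_card key
  have h2 := h1.trans (Finset.card_union_le _ _)
  refine ⟨by omega, fun hz1 hz2 => ?_⟩
  have u3 : (K.filter (fun k => 0 < k.1 ∧ (∃ c, c < Z (k.1 - 1) k.2 ∧
        k.1 • x + k.2 • y + c • z = (Z 0 0 - 1) • z) ∧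
        ∀ p q, 0 < Z p q → Z 0 0 • z = p • x + q • y → p = 0 ∨ q = 0)).card = 0 := by
    rw [Finset.card_eq_zero, Finset.filter_eq_empty_iff]
    rintro k _ ⟨_, _, h4⟩
    have e1 := hf 0 0 h0
    rw [zero_nsmul, zero_nsmul, zero_add, zero_add] at e1
    rcases h4 _ _ ((h.hS _ _).mp (hP.fS _ h0)) e1 with h5 | h5
    · exact hz1 h5
    · exact hz2 h5
  omega

end T3

end Pool.Agent.Helper151.NS
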