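import Mathlib
import Pool.Agent.Helper151.NS.Tri2

set_option autoImplicit false

namespace Pool.Agent.Helper151.NS

open Finset PS

namespace T3

variable {G : Type*} [AddCommGroup G] {x y z : G} {S : Finset (ℕ × ℕ)} {Z : ℕ → ℕ → ℕ}

lemma typV (h : T3 x y z S Z) {i j b : ℕ} (h1 : 0 < Z i (j + 1)) (h2 : 0 < Z (i + 1) j)
    (h3 : Z (i + 1) (j + 1) = 0) (ha : 0 < Z 0 b)
    (he : (i + 1) • x + j • y + Z (i + 1) j • z = b • y) :
    Z 0 (b + 1) = 0 ∨ ((∃ c, c < Z (i + 1) j ∧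
      (i + 1) • x + (j + 1) • y + c • z = (Z 0 0 - 1) • z) ∧
      ∀ p q, 0 < Z p q → Z 0 0 • z = p • x + q • y → p = 0 ∨ q = 0) := by
  have := h.swap.typ (i := j) (j := i) (a := b) h2 h1 h3 ha (by
    rw [add_comm (j • y)]; exact he)
  rcases this with h4 | ⟨⟨c, h4, h5⟩, h6⟩
  · exact Or.inl h4
  · right
    refine ⟨⟨c, h4, ?_⟩, ?_⟩
    · rw [add_comm ((i + 1) • x)]; exact h5
    · intro p q h7 h8
      exact (h6 q p h7 (by rw [h8, add_comm])).symm

lemma typ0V (h : T3 x y z S Z) {i j b : ℕ} (h1 : 0 < Z (i + 1) (j + 1))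
    (h2 : (i + 1) • x + (j + 1) • y + Z (i + 1) (j + 1) • z = 0)
    (he : (i + 1) • x + j • y + Z (i + 1) j • z = b • y) :
    Z 0 (b + 1) = 0 :=
  h.swap.typ0 (i := j) (j := i) (a := b) h1
    (by rw [add_comm ((j + 1) • y)]; exact h2) (by rw [add_comm (j • y)]; exact he)

open Classical in
/-- the number of bad corners, vertically -/
lemma bad_cardV (h : T3 x y z S Z) {f g : ℕ × ℕ → ℕ × ℕ} (hP : PS S f g)
    (hf : ∀ a b, (a, b) ∈ S → a • x + b • y + Z a b • z = (f (a, b)).1 • x + (f (a, b)).2 • y)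
    (h0 : (0, 0) ∈ S)
    (K : Finset (ℕ × ℕ)) (hK : ∀ k ∈ K, k ∈ Zc S ∨ (k = g (0, 0) ∧ k.1 ≠ 0 ∧ k.2 ≠ 0)) :
    (K.filter (fun k => H f (k.1, k.2 - 1))).card ≤ 2 ∧
    ((f (0, 0)).1 ≠ 0 → (f (0, 0)).2 ≠ 0 → (K.filter (fun k => H f (k.1, k.2 - 1))).card ≤ 1) := by
  have key : ∀ k ∈ K.filter (fun k => H f (k.1, k.2 - 1)),
      k ∈ K.filter (fun k => 0 < k.2 ∧ (k.1, k.2 - 1) ∈ S ∧ (f (k.1, k.2 - 1)).1 = 0 ∧
        Z 0 ((f (k.1, k.2 - 1)).2 + 1) = 0) ∪
      K.filter (fun k => 0 < k.2 ∧ (∃ c, c < Z k.1 (k.2 - 1) ∧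
        k.1 • x + k.2 • y + c • z = (Z 0 0 - 1) • z) ∧
        ∀ p q, 0 < Z p q → Z 0 0 • z = p • x + q • y → p = 0 ∨ q = 0) := by
    intro k hk
    rw [mem_filter] at hk
    obtain ⟨hkK, hkV⟩ := hk
    rw [mem_union, mem_filter, mem_filter]
    rcases hK k hkK with h1 | ⟨h1, h2, h3⟩
    · obtain ⟨i, j, rfl⟩ := PS.of_mem_Zc h1
      rw [PS.mem_Zc] at h1
      obtain ⟨a1, a2, a3⟩ := h1
      have hv : (f (i + 1, j)).1 = 0 := by
        rcases hkV with hv | hv
        · exact absurd hv (Nat.succ_ne_zero i)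
        · exact hv
      have e1 := hf (i + 1) j a2
      rw [hv, zero_nsmul, zero_add] at e1
      have hfs := hP.fS _ a2
      have ha : 0 < Z 0 (f (i + 1, j)).2 := by
        rw [← h.hS, ← hv]
        exact hfs
      have a3' : Z (i + 1) (j + 1) = 0 := by
        rw [h.hS] at a3
        omega
      rcases h.typV ((h.hS _ _).mp a1) ((h.hS _ _).mp a2) a3' ha e1 with h4 | ⟨h4, h5⟩
      · left
        exact ⟨hkK, Nat.succ_pos _, a2, hv, h4⟩
      · right
        exact ⟨hkK, Nat.succ_pos _, h4, h5⟩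
    · left
      obtain ⟨i, j, rfl⟩ : ∃ i j, k = (i + 1, j + 1) := ⟨k.1 - 1, k.2 - 1, by
        ext
        · simp only; omega
        · simp only; omega⟩
      have hkS : (i + 1, j + 1) ∈ S := by rw [h1]; exact hP.gS _ h0
      have hfk : f (i + 1, j + 1) = (0, 0) := by rw [h1]; exact hP.fg _ h0
      have a1 : (i + 1, j) ∈ S := hP.down _ _ _ _ hkS le_rfl (Nat.le_succ j)
      have hv : (f (i + 1, j)).1 = 0 := by
        rcases hkV with hv | hv
        · exact absurd hv (Nat.succ_ne_zero i)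
        · exact hv
      have e1 := hf (i + 1) j a1
      rw [hv, zero_nsmul, zero_add] at e1
      have e2 := hf _ _ hkS
      rw [hfk, zero_nsmul, zero_nsmul, add_zero] at e2
      exact ⟨hkK, Nat.succ_pos _, a1, hv, h.typ0V ((h.hS _ _).mp hkS) e2 e1⟩
  have u1 : (K.filter (fun k => 0 < k.2 ∧ (k.1, k.2 - 1) ∈ S ∧ (f (k.1, k.2 - 1)).1 = 0 ∧
        Z 0 ((f (k.1, k.2 - 1)).2 + 1) = 0)).card ≤ 1 := by
    rw [Finset.card_le_one]
    rintro ⟨a, b⟩ ha ⟨c, d⟩ hc
    rw [mem_filter] at ha hc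
    obtain ⟨_, a1, a2, a3, a4⟩ := ha
    obtain ⟨_, c1, c2, c3, c4⟩ := hc
    simp only at a1 a2 a3 a4 c1 c2 c3 c4
    have e1 := hP.fS _ a2
    have e2 := hP.fS _ c2
    have e3 : (f (a, b - 1)).2 = (f (c, d - 1)).2 := by
      have f1 : 0 < Z 0 (f (a, b - 1)).2 := by
        rw [← h.hS, ← a3]; exact e1
      have f2 : 0 < Z 0 (f (c, d - 1)).2 := by
        rw [← h.hS, ← c3]; exact e2
      rcases Nat.lt_trichotomy (f (a, b - 1)).2 (f (c, d - 1)).2 with h6 | h6 | h6
      · have := h.anti (a := 0) (b := (f (c, d - 1)).2) (a' := 0) (b' := (f (a, b - 1)).2 + 1)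
          le_rfl (by omega)
        omega
      · exact h6
      · have := h.anti (a := 0) (b := (f (a, b - 1)).2) (a' := 0) (b' := (f (c, d - 1)).2 + 1)
          le_rfl (by omega)
        omega
    have e4 : f (a, b - 1) = f (c, d - 1) := Prod.ext (by rw [a3, c3]) e3
    have e5 := hP.inj a2 c2 e4
    simp only [Prod.mk.injEq] at e5
    ext
    · simp only; omega
    · simp only; omega
  have u2 : (K.filter (fun k => 0 < k.2 ∧ (∃ c, c < Z k.1 (k.2 - 1) ∧
        k.1 • x + k.2 • y + c • z = (Z 0 0 - 1) • z) ∧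
        ∀ p q, 0 < Z p q → Z 0 0 • z = p • x + q • y → p = 0 ∨ q = 0)).card ≤ 1 := by
    rw [Finset.card_le_one]
    rintro ⟨a, b⟩ ha ⟨c, d⟩ hc
    rw [mem_filter] at ha hc
    obtain ⟨_, a1, ⟨r, a2, a3⟩, _⟩ := ha
    obtain ⟨_, c1, ⟨s, c2, c3⟩, _⟩ := hc
    simp only at a1 a2 a3 c1 c2 c3
    obtain ⟨b', rfl⟩ : ∃ b', b = b' + 1 := ⟨b - 1, by omega⟩
    obtain ⟨d', rfl⟩ : ∃ d', d = d' + 1 := ⟨d - 1, by omega⟩
    have e : a • x + b' • y + r • z = c • x + d' • y + s • z := by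
      have : a • x + b' • y + r • z + y = c • x + d' • y + s • z + y := by
        have e1 : a • x + b' • y + r • z + y = a • x + (b' + 1) • y + r • z := by
          rw [succ_nsmul y b']; abel
        have e2 : c • x + d' • y + s • z + y = c • x + (d' + 1) • y + s • z := by
          rw [succ_nsmul y d']; abel
        rw [e1, e2, a3, c3]
      exact add_right_cancel this
    obtain ⟨rfl, rfl, _⟩ := h.inj _ _ _ _ _ _ a2 c2 e
    rfl
  have h1 := Finset.card_le_card key
  have h2 := h1.trans (Finset.card_union_le _ _)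
  refine ⟨by omega, fun hz1 hz2 => ?_⟩
  have u3 : (K.filter (fun k => 0 < k.2 ∧ (∃ c, c < Z k.1 (k.2 - 1) ∧
        k.1 • x + k.2 • y + c • z = (Z 0 0 - 1) • z) ∧
        ∀ p q, 0 < Z p q → Z 0 0 • z = p • x + q • y → p = 0 ∨ q = 0)).card = 0 := by
    rw [Finset.card_eq_zero, Finset.filter_eq_empty_iff]
    rintro k _ ⟨_, _, h4⟩
    have e1 := hf 0 0 h0
    rw [zero_nsmul, zero_nsmul, zero_add, zero_add] at e1
    rcases h4 _ _ ((h.hS _ _).mp (hP.fS _ h0)) e1 with h5 | h5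
    · exact hz1 h5
    · exact hz2 h5
  omega

/-- the main planar inequality -/
theorem main (h : T3 x y z S Z) {f g : ℕ × ℕ → ℕ × ℕ} (hP : PS S f g)
    (hf : ∀ a b, (a, b) ∈ S → a • x + b • y + Z a b • z = (f (a, b)).1 • x + (f (a, b)).2 • y)
    (h0 : (0, 0) ∈ S) :
    (Zc S).card + (NN S f).card ≤
      (S.filter (fun s => s.2 = 0)).card + (S.filter (fun s => s.1 = 0)).card := by
  classical
  by_cases hκ : (g (0, 0)).1 = 0 ∨ (g (0, 0)).2 = 0
  · by_cases hζ : (f (0, 0)).1 = 0 ∨ (f (0, 0)).2 = 0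
    · exact hP.both_axes h0 hκ hζ
    · push Not at hζ
      have hK1 : ∀ k ∈ Zc S, k ∈ Zc S ∨ (k = g (0, 0) ∧ k.1 ≠ 0 ∧ k.2 ≠ 0) :=
        fun k hk => Or.inl hk
      obtain ⟨_, b1⟩ := h.bad_card hP hf h0 (Zc S) hK1
      obtain ⟨_, b2⟩ := h.bad_cardV hP hf h0 (Zc S) hK1
      have c1 := b1 hζ.1 hζ.2
      have c2 := b2 hζ.1 hζ.2
      have d1 := hP.token_H (Zc S) (by
        intro k hk
        obtain ⟨a, b, rfl⟩ := of_mem_Zc hk
        exact ⟨a, b, rfl, ((mem_Zc _ _).mp hk).1⟩) (by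
        intro k hk l hl h1 h2
        have := hP.Zc_inj_row hk hl h1
        rw [this] at h2
        exact absurd h2 (lt_irrefl _))
      have d2 := hP.token_V (Zc S) (by
        intro k hk
        obtain ⟨a, b, rfl⟩ := of_mem_Zc hk
        exact ⟨a, b, rfl, ((mem_Zc _ _).mp hk).2.1⟩) (by
        intro k hk l hl h1 h2
        have := hP.Zc_inj_col hk hl h1
        rw [this] at h2
        exact absurd h2 (lt_irrefl _))
      have e := hP.identity
      have hgS := hP.gS _ h0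
      have hfg := hP.fg _ h0
      have w : 1 ≤ (W0 S f).card + (H0 S f).card := by
        rcases hκ with hκ | hκ
        · have : g (0, 0) ∈ H0 S f := by
            unfold H0
            rw [mem_filter]
            exact ⟨hgS, hκ, by rw [hfg]⟩
          have := Finset.card_pos.mpr ⟨_, this⟩
          omega
        · have : g (0, 0) ∈ W0 S f := by
            unfold W0
            rw [mem_filter]
            exact ⟨hgS, hκ, by rw [hfg]⟩
          have := Finset.card_pos.mpr ⟨_, this⟩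
          omega
      omega
  · push Not at hκ
    have hgS := hP.gS _ h0
    have hfg := hP.fg _ h0
    have hnot : g (0, 0) ∉ Zc S := by
      intro h1
      obtain ⟨a, b, h2⟩ := of_mem_Zc h1
      rw [h2, mem_Zc] at h1
      rw [h2] at hgS
      exact h1.2.2 hgS
    have hHV : H f (g (0, 0)) ∧ V f (g (0, 0)) := by
      unfold H V
      rw [hfg]
      exact ⟨Or.inr rfl, Or.inr rfl⟩
    obtain ⟨i, j, hij⟩ : ∃ i j, g (0, 0) = (i + 1, j + 1) :=
      ⟨(g (0, 0)).1 - 1, (g (0, 0)).2 - 1, by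
        ext
        · simp only; omega
        · simp only; omega⟩
    have hK1 : ∀ k ∈ insert (g (0, 0)) (Zc S), k ∈ Zc S ∨ (k = g (0, 0) ∧ k.1 ≠ 0 ∧ k.2 ≠ 0) := by
      intro k hk
      rw [mem_insert] at hk
      rcases hk with rfl | hk
      · exact Or.inr ⟨rfl, hκ⟩
      · exact Or.inl hk
    obtain ⟨a1, b1⟩ := h.bad_card hP hf h0 _ hK1
    obtain ⟨a2, b2⟩ := h.bad_cardV hP hf h0 _ hK1
    have d1 := hP.token_H (insert (g (0, 0)) (Zc S)) (by
      intro k hk
      rw [mem_insert] at hk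
      rcases hk with hk | hk
      · refine ⟨i, j, hk.trans hij, ?_⟩
        rw [hij] at hgS
        exact hP.down _ _ _ _ hgS (Nat.le_succ i) le_rfl
      · obtain ⟨a, b, rfl⟩ := of_mem_Zc hk
        exact ⟨a, b, rfl, ((mem_Zc _ _).mp hk).1⟩) (by
      intro k hk l hl h1 h2
      rw [mem_insert] at hk hl
      rcases hk with rfl | hk
      · exact ⟨hgS, hHV.1⟩
      · exfalso
        rcases hl with rfl | hl
        · obtain ⟨a, b, rfl⟩ := of_mem_Zc hk
          rw [mem_Zc] at hk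
          refine hk.2.2 (hP.down _ _ _ _ hgS (le_of_lt h2) (le_of_eq h1))
        · have := hP.Zc_inj_row hk hl h1
          rw [this] at h2
          exact absurd h2 (lt_irrefl _))
    have d2 := hP.token_V (insert (g (0, 0)) (Zc S)) (by
      intro k hk
      rw [mem_insert] at hk
      rcases hk with hk | hk
      · refine ⟨i, j, hk.trans hij, ?_⟩
        rw [hij] at hgS
        exact hP.down _ _ _ _ hgS le_rfl (Nat.le_succ j)
      · obtain ⟨a, b, rfl⟩ := of_mem_Zc hk
        exact ⟨a, b, rfl, ((mem_Zc _ _).mp hk).2.1⟩) (by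
      intro k hk l hl h1 h2
      rw [mem_insert] at hk hl
      rcases hk with rfl | hk
      · exact ⟨hgS, hHV.2⟩
      · exfalso
        rcases hl with rfl | hl
        · obtain ⟨a, b, rfl⟩ := of_mem_Zc hk
          rw [mem_Zc] at hk
          refine hk.2.2 (hP.down _ _ _ _ hgS (le_of_eq h1) (le_of_lt h2))
        · have := hP.Zc_inj_col hk hl h1
          rw [this] at h2
          exact absurd h2 (lt_irrefl _))
    rw [Finset.card_insert_of_notMem hnot] at d1 d2
    have e := hP.identity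
    by_cases hζ : (f (0, 0)).1 = 0 ∨ (f (0, 0)).2 = 0
    · have w : 1 ≤ (W0 S f).card + (H0 S f).card := by
        rcases hζ with hζ | hζ
        · have : (0, 0) ∈ H0 S f := by
            unfold H0
            rw [mem_filter]
            exact ⟨h0, rfl, hζ⟩
          have := Finset.card_pos.mpr ⟨_, this⟩
          omega
        · have : (0, 0) ∈ W0 S f := by
            unfold W0
            rw [mem_filter]
            exact ⟨h0, rfl, hζ⟩
          have := Finset.card_pos.mpr ⟨_, this⟩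
          omega
      omega
    · push Not at hζ
      have c1 := b1 hζ.1 hζ.2
      have c2 := b2 hζ.1 hζ.2
      omega

end T3

end Pool.Agent.Helper151.NS
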