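import Mathlib
import Pool.Agent.Helper151.NS.Tri3
import Pool.Agent.Helper151.NS.Glue2

set_option autoImplicit false

namespace Pool.Agent.Helper151.NS

open Finset PS

variable {m : ℕ} {r : Fin 3 → ZMod m} {B C : Finset (Fin 3 → ℕ)}

lemma vec3_eta (w : Fin 3 → ℕ) : w = ![w 0, w 1, w 2] := by
  funext i
  fin_cases i <;> rfl

lemma res_vec3 (a b c : ℕ) : res m r ![a, b, c] = a • r 0 + b • r 1 + c • r 2 := by
  unfold res
  rw [Fin.sum_univ_three, nsmul_eq_mul, nsmul_eq_mul, nsmul_eq_mul]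
  rfl

lemma vec3_le {a b c a' b' c' : ℕ} (h1 : a ≤ a') (h2 : b ≤ b') (h3 : c ≤ c') :
    (![a, b, c] : Fin 3 → ℕ) ≤ ![a', b', c'] := by
  intro i
  fin_cases i
  · exact h1
  · exact h2
  · exact h3

lemma exists_notMem (B : Finset (Fin 3 → ℕ)) (a b : ℕ) : ∃ c, ![a, b, c] ∉ B := by
  by_contra hcon
  push Not at hcon
  have h2 : Set.Infinite (B : Set (Fin 3 → ℕ)) := by
    refine Set.infinite_of_injective_forall_mem (f := fun n : ℕ => ![a, b, n]) ?_ hcon
    intro n k hnk
    exact congrFun hnk 2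
  exact h2 (Finset.finite_toSet B)

/-- the height function -/
def ht (B : Finset (Fin 3 → ℕ)) (a b : ℕ) : ℕ := Nat.find (exists_notMem B a b)

lemma lt_ht (h : Stair m r B C) (a b c : ℕ) : c < ht B a b ↔ ![a, b, c] ∈ B := by
  unfold ht
  constructor
  · intro h1
    have := Nat.find_min (exists_notMem B a b) h1
    push Not at this
    exact this
  · intro h1
    by_contra h2
    push Not at h2
    have h3 := Nat.find_spec (exists_notMem B a b)
    exact h3 (h.down _ h1 _ (vec3_le le_rfl le_rfl h2))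

lemma stair_zero_mem (h : Stair m r B C) : (![0, 0, 0] : Fin 3 → ℕ) ∈ B := by
  obtain ⟨u, hu, _⟩ := h.surj 0
  refine h.down u hu _ ?_
  rw [vec3_eta u]
  exact vec3_le (Nat.zero_le _) (Nat.zero_le _) (Nat.zero_le _)

/-- the planar shadow -/
def shadow (B : Finset (Fin 3 → ℕ)) : Finset (ℕ × ℕ) := B.image (fun w => (w 0, w 1))

lemma mem_shadow (h : Stair m r B C) (a b : ℕ) : (a, b) ∈ shadow B ↔ 0 < ht B a b := by
  rw [lt_ht h]
  unfold shadow
  rw [mem_image]
  constructor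
  · rintro ⟨w, h1, h2⟩
    simp only [Prod.mk.injEq] at h2
    obtain ⟨rfl, rfl⟩ := h2
    refine h.down w h1 _ ?_
    rw [vec3_eta w]
    exact vec3_le le_rfl le_rfl (Nat.zero_le _)
  · intro h1
    exact ⟨_, h1, rfl⟩

lemma stair_T3 (h : Stair m r B C) : T3 (r 0) (r 1) (r 2) (shadow B) (ht B) where
  hS := mem_shadow h
  anti1 := by
    intro a b
    by_contra hlt
    push Not at hlt
    rw [lt_ht h] at hlt
    have := (lt_ht h _ _ _).mpr (h.down _ hlt _ (vec3_le (Nat.le_succ a) le_rfl le_rfl))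
    exact lt_irrefl _ this
  anti2 := by
    intro a b
    by_contra hlt
    push Not at hlt
    rw [lt_ht h] at hlt
    have := (lt_ht h _ _ _).mpr (h.down _ hlt _ (vec3_le le_rfl (Nat.le_succ b) le_rfl))
    exact lt_irrefl _ this
  inj := by
    intro a b c a' b' c' h1 h2 h3
    rw [lt_ht h] at h1 h2
    have := h.inj _ h1 _ h2 (by rw [res_vec3, res_vec3]; exact h3)
    exact ⟨congrFun this 0, congrFun this 1, congrFun this 2⟩
  surj := by
    intro a b c
    obtain ⟨u, h1, h2⟩ := h.surj ![a, b, c]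
    refine ⟨u 0, u 1, u 2, ?_, ?_⟩
    · rw [lt_ht h, ← vec3_eta]
      exact h1
    · rw [vec3_eta u, res_vec3, res_vec3] at h2
      exact h2.symm

lemma sub_ei0 (a b c : ℕ) : (![a + 1, b, c] : Fin 3 → ℕ) - ei 0 = ![a, b, c] := by
  funext i
  fin_cases i <;> simp [ei]

lemma sub_ei1 (a b c : ℕ) : (![a, b + 1, c] : Fin 3 → ℕ) - ei 1 = ![a, b, c] := by
  funext i
  fin_cases i <;> simp [ei]

lemma sub_ei2 (a b c : ℕ) : (![a, b, c + 1] : Fin 3 → ℕ) - ei 2 = ![a, b, c] := by
  funext i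
  fin_cases i <;> simp [ei]

/-- counting the corners -/
lemma card_corners (h : Stair m r B C) {f g : ℕ × ℕ → ℕ × ℕ} (hP : PS (shadow B) f g)
    (hf : ∀ a b, (a, b) ∈ shadow B →
      a • r 0 + b • r 1 + ht B a b • r 2 = (f (a, b)).1 • r 0 + (f (a, b)).2 • r 1) :
    C.card ≤ (Zc (shadow B)).card + (NN (shadow B) f).card + 2 := by
  have hT := stair_T3 h
  have p1 : (C.filter (fun w => w 2 ≠ 0)).card ≤ (NN (shadow B) f).card := by
    refine Finset.card_le_card_of_injOn (fun w => (w 0, w 1)) ?_ ?_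
    · intro w hw
      rw [Finset.mem_coe, mem_filter] at hw
      obtain ⟨h1, h2⟩ := hw
      obtain ⟨h3, h4⟩ := (h.corner w).mp h1
      obtain ⟨c, hc⟩ : ∃ c, w 2 = c + 1 := ⟨w 2 - 1, by omega⟩
      have hw2 : w = ![w 0, w 1, c + 1] := by
        rw [← hc]; exact vec3_eta w
      have h5 := h4 2 (Nat.pos_of_ne_zero h2)
      rw [hw2, sub_ei2, ← lt_ht h] at h5
      rw [hw2, ← lt_ht h] at h3
      have hht : ht B (w 0) (w 1) = c + 1 := by omega
      have hmem : (w 0, w 1) ∈ shadow B := by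
        rw [mem_shadow h]
        omega
      rw [Finset.mem_coe]
      unfold NN
      rw [mem_filter]
      refine ⟨hmem, ?_, ?_⟩
      · unfold H
        by_contra hcon
        push Not at hcon
        obtain ⟨hc1, hc2⟩ := hcon
        obtain ⟨a, ha⟩ : ∃ a, w 0 = a + 1 := ⟨w 0 - 1, by omega⟩
        have h6 := h4 0 (Nat.pos_of_ne_zero hc1)
        rw [hw2, ha, sub_ei0, ← lt_ht h] at h6
        have hmem' := hmem
        rw [ha] at hmem' hc2 hht
        have h7 := hP.tx a (w 1) hmem' hc2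
        have h8 := hf _ _ hmem'
        have hmem2 : (a, w 1) ∈ shadow B := hP.down _ _ _ _ hmem' (Nat.le_succ a) le_rfl
        have h9 := hf _ _ hmem2
        rw [h7] at h8
        have h10 : a • r 0 + w 1 • r 1 + (c + 1) • r 2 =
            a • r 0 + w 1 • r 1 + ht B a (w 1) • r 2 := by
          rw [h9]
          rw [hht] at h8
          have : a • r 0 + w 1 • r 1 + (c + 1) • r 2 + r 0 =
              (f (a, w 1)).1 • r 0 + (f (a, w 1)).2 • r 1 + r 0 := by
            have e1 : a • r 0 + w 1 • r 1 + (c + 1) • r 2 + r 0 =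
              (a + 1) • r 0 + w 1 • r 1 + (c + 1) • r 2 := by
              rw [succ_nsmul (r 0) a]; abel
            rw [e1, h8, succ_nsmul (r 0) (f (a, w 1)).1]
            abel
          exact add_right_cancel this
        have h11 : a • r 0 + w 1 • r 1 + 0 • r 2 =
            a • r 0 + w 1 • r 1 + (ht B a (w 1) - (c + 1)) • r 2 := by
          have e1 : ht B a (w 1) • r 2 = (ht B a (w 1) - (c + 1)) • r 2 + (c + 1) • r 2 := by
            rw [← add_nsmul]
            congr 1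
            omega
          rw [e1] at h10
          have : a • r 0 + w 1 • r 1 + 0 • r 2 + (c + 1) • r 2 =
              a • r 0 + w 1 • r 1 + (ht B a (w 1) - (c + 1)) • r 2 + (c + 1) • r 2 := by
            rw [zero_nsmul, add_zero, h10]
            abel
          exact add_right_cancel this
        have h12 := hT.inj _ _ _ _ _ _ (by omega) (by omega) h11
        omega
      · unfold V
        by_contra hcon
        push Not at hcon
        obtain ⟨hc1, hc2⟩ := hcon
        obtain ⟨a, ha⟩ : ∃ a, w 1 = a + 1 := ⟨w 1 - 1, by omega⟩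
        have h6 := h4 1 (Nat.pos_of_ne_zero hc1)
        rw [hw2, ha, sub_ei1, ← lt_ht h] at h6
        have hmem' := hmem
        rw [ha] at hmem' hc2 hht
        have h7 := hP.ty (w 0) a hmem' hc2
        have h8 := hf _ _ hmem'
        have hmem2 : (w 0, a) ∈ shadow B := hP.down _ _ _ _ hmem' le_rfl (Nat.le_succ a)
        have h9 := hf _ _ hmem2
        rw [h7] at h8
        have h10 : w 0 • r 0 + a • r 1 + (c + 1) • r 2 =
            w 0 • r 0 + a • r 1 + ht B (w 0) a • r 2 := by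
          rw [h9]
          rw [hht] at h8
          have : w 0 • r 0 + a • r 1 + (c + 1) • r 2 + r 1 =
              (f (w 0, a)).1 • r 0 + (f (w 0, a)).2 • r 1 + r 1 := by
            have e1 : w 0 • r 0 + a • r 1 + (c + 1) • r 2 + r 1 =
              w 0 • r 0 + (a + 1) • r 1 + (c + 1) • r 2 := by
              rw [succ_nsmul (r 1) a]; abel
            rw [e1, h8, succ_nsmul (r 1) (f (w 0, a)).2]
            abel
          exact add_right_cancel this
        have h11 : w 0 • r 0 + a • r 1 + 0 • r 2 =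
            w 0 • r 0 + a • r 1 + (ht B (w 0) a - (c + 1)) • r 2 := by
          have e1 : ht B (w 0) a • r 2 = (ht B (w 0) a - (c + 1)) • r 2 + (c + 1) • r 2 := by
            rw [← add_nsmul]
            congr 1
            omega
          rw [e1] at h10
          have : w 0 • r 0 + a • r 1 + 0 • r 2 + (c + 1) • r 2 =
              w 0 • r 0 + a • r 1 + (ht B (w 0) a - (c + 1)) • r 2 + (c + 1) • r 2 := by
            rw [zero_nsmul, add_zero, h10]
            abel
          exact add_right_cancel this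
        have h12 := hT.inj _ _ _ _ _ _ (by omega) (by omega) h11
        omega
    · intro w hw v hv he
      rw [Finset.mem_coe, mem_filter] at hw hv
      simp only [Prod.mk.injEq] at he
      obtain ⟨e0, e1⟩ := he
      obtain ⟨h3, h4⟩ := (h.corner w).mp hw.1
      obtain ⟨h5, h6⟩ := (h.corner v).mp hv.1
      obtain ⟨c, hc⟩ : ∃ c, w 2 = c + 1 := ⟨w 2 - 1, by omega⟩
      obtain ⟨d, hd⟩ : ∃ d, v 2 = d + 1 := ⟨v 2 - 1, by omega⟩
      have hw2 : w = ![w 0, w 1, c + 1] := by
        rw [← hc]; exact vec3_eta w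
      have hv2 : v = ![w 0, w 1, d + 1] := by
        rw [← hd, e0, e1]; exact vec3_eta v
      have h7 := h4 2 (Nat.pos_of_ne_zero hw.2)
      have h8 := h6 2 (Nat.pos_of_ne_zero hv.2)
      rw [hw2, sub_ei2, ← lt_ht h] at h7
      rw [hw2, ← lt_ht h] at h3
      rw [hv2, sub_ei2, ← lt_ht h] at h8
      rw [hv2, ← lt_ht h] at h5
      have : c = d := by omega
      rw [hw2, hv2, this]
  have p2 : (C.filter (fun w => w 2 = 0 ∧ w 0 ≠ 0 ∧ w 1 ≠ 0)).card ≤ (Zc (shadow B)).card := by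
    refine Finset.card_le_card_of_injOn (fun w => (w 0, w 1)) ?_ ?_
    · intro w hw
      rw [Finset.mem_coe, mem_filter] at hw
      obtain ⟨h1, h2, h3, h4⟩ := hw
      obtain ⟨h5, h6⟩ := (h.corner w).mp h1
      obtain ⟨a, ha⟩ : ∃ a, w 0 = a + 1 := ⟨w 0 - 1, by omega⟩
      obtain ⟨b, hb⟩ : ∃ b, w 1 = b + 1 := ⟨w 1 - 1, by omega⟩
      have hw2 : w = ![a + 1, b + 1, 0] := by
        rw [← ha, ← hb]
        conv_lhs => rw [vec3_eta w, h2]
      have h7 := h6 0 (Nat.pos_of_ne_zero h3)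
      have h8 := h6 1 (Nat.pos_of_ne_zero h4)
      rw [hw2, sub_ei0, ← lt_ht h, ← mem_shadow h] at h7
      rw [hw2, sub_ei1, ← lt_ht h, ← mem_shadow h] at h8
      rw [hw2, ← lt_ht h, ← mem_shadow h] at h5
      rw [Finset.mem_coe]
      show (w 0, w 1) ∈ Zc (shadow B)
      rw [ha, hb, mem_Zc]
      exact ⟨h7, h8, h5⟩
    · intro w hw v hv he
      rw [Finset.mem_coe, mem_filter] at hw hv
      simp only [Prod.mk.injEq] at he
      obtain ⟨e0, e1⟩ := he
      rw [vec3_eta w, vec3_eta v, e0, e1, hw.2.1, hv.2.1]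
  have p3 : (C.filter (fun w => w 2 = 0 ∧ w 1 = 0)).card ≤ 1 := by
    rw [Finset.card_le_one]
    intro w hw v hv
    rw [mem_filter] at hw hv
    obtain ⟨h1, h2, h3⟩ := hw
    obtain ⟨h4, h5, h6⟩ := hv
    obtain ⟨a1, a2⟩ := (h.corner w).mp h1
    obtain ⟨b1, b2⟩ := (h.corner v).mp h4
    have hw2 : w = ![w 0, 0, 0] := by
      conv_lhs => rw [vec3_eta w, h2, h3]
    have hv2 : v = ![v 0, 0, 0] := by
      conv_lhs => rw [vec3_eta v, h5, h6]
    have hw0 : w 0 ≠ 0 := by
      intro h0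
      rw [h0] at hw2
      rw [hw2] at a1
      exact a1 (stair_zero_mem h)
    have hv0 : v 0 ≠ 0 := by
      intro h0
      rw [h0] at hv2
      rw [hv2] at b1
      exact b1 (stair_zero_mem h)
    obtain ⟨a, ha⟩ : ∃ a, w 0 = a + 1 := ⟨w 0 - 1, by omega⟩
    obtain ⟨b, hb⟩ : ∃ b, v 0 = b + 1 := ⟨v 0 - 1, by omega⟩
    have a3 := a2 0 (Nat.pos_of_ne_zero hw0)
    have b3 := b2 0 (Nat.pos_of_ne_zero hv0)
    rw [ha] at hw2
    rw [hb] at hv2
    rw [hw2, sub_ei0] at a3
    rw [hv2, sub_ei0] at b3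
    rw [hw2] at a1
    rw [hv2] at b1
    rcases Nat.lt_trichotomy a b with h7 | h7 | h7
    · exact absurd (h.down _ b3 _ (vec3_le (by omega) le_rfl le_rfl)) a1
    · rw [hw2, hv2, h7]
    · exact absurd (h.down _ a3 _ (vec3_le (by omega) le_rfl le_rfl)) b1
  have p4 : (C.filter (fun w => w 2 = 0 ∧ w 0 = 0)).card ≤ 1 := by
    rw [Finset.card_le_one]
    intro w hw v hv
    rw [mem_filter] at hw hv
    obtain ⟨h1, h2, h3⟩ := hw
    obtain ⟨h4, h5, h6⟩ := hv
    obtain ⟨a1, a2⟩ := (h.corner w).mp h1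
    obtain ⟨b1, b2⟩ := (h.corner v).mp h4
    have hw2 : w = ![0, w 1, 0] := by
      conv_lhs => rw [vec3_eta w, h2, h3]
    have hv2 : v = ![0, v 1, 0] := by
      conv_lhs => rw [vec3_eta v, h5, h6]
    have hw0 : w 1 ≠ 0 := by
      intro h0
      rw [h0] at hw2
      rw [hw2] at a1
      exact a1 (stair_zero_mem h)
    have hv0 : v 1 ≠ 0 := by
      intro h0
      rw [h0] at hv2
      rw [hv2] at b1
      exact b1 (stair_zero_mem h)
    obtain ⟨a, ha⟩ : ∃ a, w 1 = a + 1 := ⟨w 1 - 1, by omega⟩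
    obtain ⟨b, hb⟩ : ∃ b, v 1 = b + 1 := ⟨v 1 - 1, by omega⟩
    have a3 := a2 1 (Nat.pos_of_ne_zero hw0)
    have b3 := b2 1 (Nat.pos_of_ne_zero hv0)
    rw [ha] at hw2
    rw [hb] at hv2
    rw [hw2, sub_ei1] at a3
    rw [hv2, sub_ei1] at b3
    rw [hw2] at a1
    rw [hv2] at b1
    rcases Nat.lt_trichotomy a b with h7 | h7 | h7
    · exact absurd (h.down _ b3 _ (vec3_le le_rfl (by omega) le_rfl)) a1
    · rw [hw2, hv2, h7]
    · exact absurd (h.down _ a3 _ (vec3_le le_rfl (by omega) le_rfl)) b1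
  have cov : C ⊆ ((C.filter (fun w => w 2 ≠ 0) ∪
      C.filter (fun w => w 2 = 0 ∧ w 0 ≠ 0 ∧ w 1 ≠ 0)) ∪
      C.filter (fun w => w 2 = 0 ∧ w 1 = 0)) ∪ C.filter (fun w => w 2 = 0 ∧ w 0 = 0) := by
    intro w hw
    simp only [mem_union, mem_filter]
    by_cases h2 : w 2 = 0
    · by_cases h0 : w 0 = 0
      · right; exact ⟨hw, h2, h0⟩
      · by_cases h1 : w 1 = 0
        · left; right; exact ⟨hw, h2, h1⟩
        · left; left; right; exact ⟨hw, h2, h0, h1⟩
    · left; left; left; exact ⟨hw, h2⟩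
  have q0 := Finset.card_le_card cov
  have q1 := Finset.card_union_le ((C.filter (fun w => w 2 ≠ 0) ∪
      C.filter (fun w => w 2 = 0 ∧ w 0 ≠ 0 ∧ w 1 ≠ 0)) ∪
      C.filter (fun w => w 2 = 0 ∧ w 1 = 0)) (C.filter (fun w => w 2 = 0 ∧ w 0 = 0))
  have q2 := Finset.card_union_le (C.filter (fun w => w 2 ≠ 0) ∪
      C.filter (fun w => w 2 = 0 ∧ w 0 ≠ 0 ∧ w 1 ≠ 0)) (C.filter (fun w => w 2 = 0 ∧ w 1 = 0))
  have q3 := Finset.card_union_le (C.filter (fun w => w 2 ≠ 0))
    (C.filter (fun w => w 2 = 0 ∧ w 0 ≠ 0 ∧ w 1 ≠ 0))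
  omega

/-- Claim 1 for the first two axes -/
theorem claim1_01 (h : Stair m r B C) (A : Fin 3 → ℕ)
    (hA : ∀ i k, Pi.single i k ∈ B ↔ k < A i) : C.card ≤ A 0 + A 1 + 2 := by
  have hT := stair_T3 h
  obtain ⟨f, g, hP, hf⟩ := hT.exists_PS
  have h0 : (0, 0) ∈ shadow B := by
    rw [mem_shadow h, lt_ht h]
    exact stair_zero_mem h
  have h1 := hT.main hP hf h0
  have h2 := card_corners h hP hf
  have e0 : ∀ k : ℕ, (Pi.single 0 k : Fin 3 → ℕ) = ![k, 0, 0] := by
    intro k
    funext i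
    fin_cases i <;> simp
  have e1 : ∀ k : ℕ, (Pi.single 1 k : Fin 3 → ℕ) = ![0, k, 0] := by
    intro k
    funext i
    fin_cases i <;> simp
  have h3 : ((shadow B).filter (fun s => s.2 = 0)).card ≤ A 0 := by
    rw [← Finset.card_range (A 0)]
    refine Finset.card_le_card_of_injOn (fun s => s.1) ?_ ?_
    · rintro ⟨a, b⟩ hs
      rw [Finset.mem_coe, mem_filter] at hs
      obtain ⟨hs1, hs2⟩ := hs
      simp only at hs2
      subst hs2
      rw [mem_shadow h, lt_ht h] at hs1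
      rw [Finset.mem_coe, mem_range, ← hA, e0]
      exact hs1
    · rintro ⟨a, b⟩ hs ⟨c, d⟩ ht he
      rw [Finset.mem_coe, mem_filter] at hs ht
      simp only at hs ht he
      rw [hs.2, ht.2, he]
  have h4 : ((shadow B).filter (fun s => s.1 = 0)).card ≤ A 1 := by
    rw [← Finset.card_range (A 1)]
    refine Finset.card_le_card_of_injOn (fun s => s.2) ?_ ?_
    · rintro ⟨a, b⟩ hs
      rw [Finset.mem_coe, mem_filter] at hs
      obtain ⟨hs1, hs2⟩ := hs
      simp only at hs2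
      subst hs2
      rw [mem_shadow h, lt_ht h] at hs1
      rw [Finset.mem_coe, mem_range, ← hA, e1]
      exact hs1
    · rintro ⟨a, b⟩ hs ⟨c, d⟩ ht he
      rw [Finset.mem_coe, mem_filter] at hs ht
      simp only at hs ht he
      rw [hs.2, ht.2, he]
  omega

end Pool.Agent.Helper151.NS
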