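import Mathlib
import Pool.Agent.Helper151.NS.Claim1

set_option autoImplicit false

namespace Pool.Agent.Helper151.NS

open Finset PS

variable {m : ℕ} {r : Fin 3 → ZMod m} {B C : Finset (Fin 3 → ℕ)}

lemma mem_permImage (B : Finset (Fin 3 → ℕ)) (σ : Equiv.Perm (Fin 3)) (w : Fin 3 → ℕ) :
    w ∈ B.image (fun w => w ∘ σ) ↔ w ∘ σ.symm ∈ B := by
  rw [mem_image]
  constructor
  · rintro ⟨v, hv, rfl⟩
    have : (v ∘ σ) ∘ σ.symm = v := by
      funext i
      simp
    rw [this]
    exact hv
  · intro h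
    refine ⟨w ∘ σ.symm, h, ?_⟩
    funext i
    simp

lemma res_perm (σ : Equiv.Perm (Fin 3)) (w : Fin 3 → ℕ) :
    res m (r ∘ σ) w = res m r (w ∘ σ.symm) := by
  unfold res
  rw [← Equiv.sum_comp σ (fun i => ((w ∘ σ.symm) i : ZMod m) * r i)]
  refine Finset.sum_congr rfl fun i _ => ?_
  simp

lemma stair_perm (h : Stair m r B C) (σ : Equiv.Perm (Fin 3)) :
    Stair m (r ∘ σ) (B.image (fun w => w ∘ σ)) (C.image (fun w => w ∘ σ)) where
  down := by
    intro u hu v hv
    rw [mem_permImage] at hu ⊢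
    exact h.down _ hu _ (fun i => hv _)
  inj := by
    intro u hu v hv he
    rw [mem_permImage] at hu hv
    rw [res_perm, res_perm] at he
    have := h.inj _ hu _ hv he
    funext i
    have := congrFun this (σ i)
    simpa using this
  surj := by
    intro v
    obtain ⟨u, hu, he⟩ := h.surj (v ∘ σ.symm)
    refine ⟨u ∘ σ, ?_, ?_⟩
    · rw [mem_permImage]
      have : (u ∘ σ) ∘ σ.symm = u := by
        funext i
        simp
      rw [this]
      exact hu
    · rw [res_perm, res_perm]
      have : (u ∘ σ) ∘ σ.symm = u := by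
        funext i
        simp
      rw [this]
      exact he
  corner := by
    intro u
    rw [mem_permImage, mem_permImage, h.corner]
    refine and_congr Iff.rfl ?_
    constructor
    · intro h1 i hi
      rw [mem_permImage]
      have := h1 (σ i) (by simpa using hi)
      convert this using 1
      funext j
      simp [ei, Pi.single_apply, Equiv.symm_apply_eq]
    · intro h1 i hi
      have := h1 (σ.symm i) (by simpa using hi)
      rw [mem_permImage] at this
      convert this using 1
      funext j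
      simp [ei, Pi.single_apply]

lemma single_comp (σ : Equiv.Perm (Fin 3)) (i : Fin 3) (k : ℕ) :
    (Pi.single i k : Fin 3 → ℕ) ∘ σ.symm = Pi.single (σ i) k := by
  funext j
  simp [Pi.single_apply, Equiv.symm_apply_eq]

/-- Claim 1 -/
theorem claim1 (h : Stair m r B C) (A : Fin 3 → ℕ)
    (hA : ∀ i k, Pi.single i k ∈ B ↔ k < A i) (σ : Equiv.Perm (Fin 3)) :
    C.card ≤ A (σ 0) + A (σ 1) + 2 := by
  have h1 := claim1_01 (stair_perm h σ) (A ∘ σ) (by
    intro i k
    rw [mem_permImage, single_comp, hA]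
    rfl)
  rw [Finset.card_image_of_injective] at h1
  · exact h1
  · intro u v he
    funext i
    have := congrFun he (σ.symm i)
    simpa using this

theorem claim1_sum (h : Stair m r B C) (A : Fin 3 → ℕ)
    (hA : ∀ i k, Pi.single i k ∈ B ↔ k < A i) :
    C.card ≤ A 0 + A 1 + 2 ∧ C.card ≤ A 1 + A 2 + 2 ∧ C.card ≤ A 0 + A 2 + 2 ∧
    3 * (C.card - 2) ≤ 2 * (A 0 + A 1 + A 2) := by
  have h1 := claim1_01 h A hA
  have h2 := claim1 h A hA (finRotate 3)
  have h3 := claim1 h A hA (Equiv.swap 1 2)
  have e1 : (finRotate 3) (0 : Fin 3) = 1 := by decide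
  have e2 : (finRotate 3) (1 : Fin 3) = 2 := by decide
  have e3 : (Equiv.swap (1 : Fin 3) 2) 0 = 0 := by decide
  have e4 : (Equiv.swap (1 : Fin 3) 2) 1 = 2 := by decide
  rw [e1, e2] at h2
  rw [e3, e4] at h3
  refine ⟨h1, h2, h3, ?_⟩
  omega

end Pool.Agent.Helper151.NS
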