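import Mathlib
import Pool.Agent.Helper151.NS.Glue2

set_option autoImplicit false

namespace Pool.Agent.Helper151.NS

open MvPolynomial

lemma sub_ei_add {u : Fin 3 → ℕ} {i : Fin 3} (h : 0 < u i) : (u - ei i) + ei i = u := by
  funext j
  simp only [Pi.add_apply, Pi.sub_apply, ei, Pi.single_apply]
  split_ifs with hj
  · subst hj; omega
  · omega

/-- the step condition -/
def Step (m : ℕ) (a : Fin 4 → ℕ) (P : (Fin 3 → ℕ) → Prop) : Prop :=
  ∀ u, P u → ∀ i, ∃ u', P u' ∧ (u' = u + ei i ∨
      ∃ t, 0 < t ∧ wt a (u + ei i) = wt a u' + m * t)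

lemma exists_small (m : ℕ) (hm : 0 < m) (a : Fin 4 → ℕ)
    (P : (Fin 3 → ℕ) → Prop) (hP0 : P 0)
    (hstep : Step m a P) (w : Fin 3 → ℕ) :
    ∃ u, P u ∧ wt a u ≡ wt a w [MOD m] ∧ (u = w ∨ wt a u < wt a w) := by
  induction hn : (∑ i, w i) using Nat.strong_induction_on generalizing w with
  | _ n ih =>
    by_cases hw : ∃ i, 0 < w i
    · obtain ⟨i, hi⟩ := hw
      have hwi := sub_ei_add hi
      have hlt : ∑ j, (w - ei i) j < n := by
        rw [← hn]
        conv_rhs => rw [← hwi]
        simp only [Pi.add_apply, Finset.sum_add_distrib]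
        have : ∑ j, ei i j = 1 := by
          unfold ei
          rw [Finset.sum_pi_single']
          simp
        omega
      obtain ⟨u, hu, hmod, hor⟩ := ih _ hlt (w - ei i) rfl
      obtain ⟨u', hu', hst⟩ := hstep u hu i
      have hwt : wt a w = wt a (w - ei i) + wt a (ei i) := by
        rw [← wt_add, hwi]
      have hle : wt a u ≤ wt a (w - ei i) := by
        rcases hor with h | h
        · rw [h]
        · exact h.le
      have hmod2 : wt a (u + ei i) ≡ wt a w [MOD m] := by
        rw [wt_add, hwt]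
        exact Nat.ModEq.add_right _ hmod
      have hmod3 : wt a u' ≡ wt a (u + ei i) [MOD m] := by
        rcases hst with h | ⟨t, _, h⟩
        · rw [h]
        · rw [h]
          exact (Nat.modEq_iff_dvd' (Nat.le_add_right _ _)).mpr (by simp)
      refine ⟨u', hu', hmod3.trans hmod2, ?_⟩
      rcases hst with h | ⟨t, ht, h⟩
      · rcases hor with h1 | h1
        · left; rw [h, h1, hwi]
        · right; rw [h, wt_add, hwt]; omega
      · right
        have := Nat.mul_pos hm ht
        have h2 : wt a (u + ei i) ≤ wt a w := by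
          rw [wt_add, hwt]; omega
        omega
    · push Not at hw
      have : w = 0 := by
        funext i
        have := hw i
        simpa using this
      subst this
      exact ⟨0, hP0, rfl, Or.inl rfl⟩

lemma uf (m : ℕ) (hm : 0 < m) (a : Fin 4 → ℕ) (ha0 : a 0 = m)
    (P : (Fin 3 → ℕ) → Prop) (hP0 : P 0) (hstep : Step m a P)
    (hinj : ∀ u v, P u → P v → wt a u ≡ wt a v [MOD m] → u = v)
    (u : Fin 3 → ℕ) (hu : P u) (v : Fin 4 →₀ ℕ) (hv : deg a v = wt a u) : v = emb 0 u := by
  rw [eq_emb v, deg_emb, ha0] at hv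
  rw [eq_emb v]
  set w : Fin 3 → ℕ := fun i => v i.succ with hw
  obtain ⟨u', hu', hmod, hor⟩ := exists_small m hm a P hP0 hstep w
  have h1 : wt a u' ≡ wt a u [MOD m] := by
    rw [← hv]
    refine hmod.trans ?_
    exact (Nat.modEq_iff_dvd' (Nat.le_add_left _ _)).mpr (by simp)
  have h2 := hinj _ _ hu' hu h1
  subst h2
  rcases hor with h | h
  · rw [← h] at hv
    have h3 : v 0 * m = 0 := by omega
    have h4 : v 0 = 0 := by
      rcases Nat.mul_eq_zero.mp h3 with h | h
      · exact h
      · omega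
    rw [h4, h]
  · omega

lemma fam_lower (m : ℕ) (hm : 0 < m) (a : Fin 4 → ℕ) (ha0 : a 0 = m)
    (P : (Fin 3 → ℕ) → Prop) (hP0 : P 0) (hstep : Step m a P)
    (hinj : ∀ u v, P u → P v → wt a u ≡ wt a v [MOD m] → u = v)
    (E : Finset (Fin 3 → ℕ)) (hE1 : ∀ u ∈ E, ¬ P u) (hE2 : ∀ u ∈ E, ∀ i, 0 < u i → P (u - ei i))
    (s : Finset (MvPolynomial (Fin 4) ℚ))
    (hs : Ideal.span (s : Set (MvPolynomial (Fin 4) ℚ)) = tor a) : E.card ≤ s.card := by
  classical
  have hinje : Function.Injective (emb 0) := by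
    intro u v huv
    funext i
    have := DFunLike.congr_fun huv i.succ
    simpa [emb_succ] using this
  have hcard : (E.image (emb 0)).card = E.card := Finset.card_image_of_injective _ hinje
  rw [← hcard]
  refine lower a _ ?_ ?_ s hs
  · intro u' hu' i hi v hv
    rw [Finset.mem_image] at hu'
    obtain ⟨u, hu, rfl⟩ := hu'
    revert hi hv
    refine Fin.cases ?_ (fun i => ?_) i
    · intro hi
      exact absurd hi (by rw [emb_zero]; omega)
    · intro hi hv
      rw [emb_succ] at hi
      have h1 : emb 0 u - Finsupp.single i.succ 1 = emb 0 (u - ei i) := by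
        ext l
        refine Fin.cases ?_ (fun l => ?_) l
        · simp [emb_zero]
        · rw [Finsupp.tsub_apply, emb_succ, emb_succ]
          simp only [Pi.sub_apply, ei, Pi.single_apply, Finsupp.single_apply, Fin.succ_inj]
          by_cases hil : i = l
          · subst hil; simp
          · rw [if_neg hil, if_neg (fun h => hil h.symm)]
      rw [h1] at hv ⊢
      rw [deg_emb, zero_mul, zero_add] at hv
      exact uf m hm a ha0 P hP0 hstep hinj _ (hE2 u hu i hi) v hv
  · intro u' hu'
    rw [Finset.mem_image] at hu'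
    obtain ⟨u, hu, rfl⟩ := hu'
    obtain ⟨w, hw, hmod, hor⟩ := exists_small m hm a P hP0 hstep u
    have hne : w ≠ u := by
      rintro rfl
      exact hE1 _ hu hw
    have hlt : wt a w < wt a u := by
      rcases hor with h | h
      · exact absurd h hne
      · exact h
    obtain ⟨k, hk⟩ := (Nat.modEq_iff_dvd' hlt.le).mp hmod
    refine ⟨emb k w, ?_, ?_⟩
    · intro hmem
      rw [Finset.mem_image] at hmem
      obtain ⟨u2, hu2, he⟩ := hmem
      have : u2 = w := by
        funext i
        have := DFunLike.congr_fun he i.succ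
        simpa [emb_succ] using this
      subst this
      exact hE1 _ hu2 hw
    · rw [deg_emb, deg_emb, ha0, mul_comm k m, ← hk]
      omega

lemma closure_exists (a : Fin 4 → ℕ) (i : Fin 4) (x : ℕ)
    (hx : x ∈ AddSubmonoid.closure (a '' {j : Fin 4 | j ≠ i})) :
    ∃ v : Fin 4 →₀ ℕ, v i = 0 ∧ deg a v = x := by
  induction hx using AddSubmonoid.closure_induction with
  | mem x hx =>
    obtain ⟨j, hj, rfl⟩ := hx
    refine ⟨Finsupp.single j 1, ?_, ?_⟩
    · rw [Finsupp.single_apply, if_neg hj]
    · unfold deg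
      rw [Finset.sum_eq_single j]
      · simp
      · intro l _ hl
        rw [Finsupp.single_apply, if_neg (fun h => hl h.symm), zero_mul]
      · intro h; exact absurd (Finset.mem_univ j) h
  | zero => exact ⟨0, rfl, by simp [deg]⟩
  | add x y _ _ hx hy =>
    obtain ⟨v, hv, hvx⟩ := hx
    obtain ⟨w, hw, hwy⟩ := hy
    exact ⟨v + w, by rw [Finsupp.add_apply, hv, hw], by rw [deg_add, hvx, hwy]⟩

lemma minimal (m : ℕ) (hm : 0 < m) (a : Fin 4 → ℕ) (ha0 : a 0 = m) (hmono : StrictMono a)
    (P : (Fin 3 → ℕ) → Prop) (hP0 : P 0) (hstep : Step m a P)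
    (hinj : ∀ u v, P u → P v → wt a u ≡ wt a v [MOD m] → u = v)
    (hP1 : ∀ i, P (ei i)) (i : Fin 4) :
    a i ∉ AddSubmonoid.closure (a '' {j : Fin 4 | j ≠ i}) := by
  intro hi
  obtain ⟨v, hv0, hv⟩ := closure_exists a i _ hi
  revert hv0 hv
  clear hi
  refine Fin.cases ?_ (fun i => ?_) i
  · intro hv0 hv
    have hz : ∀ l : Fin 3, v l.succ = 0 := by
      intro l
      by_contra hne
      have h1 : a 0 < a l.succ := hmono (Fin.succ_pos l)
      have h2 : v l.succ * a l.succ ≤ deg a v :=
        Finset.single_le_sum (f := fun l => v l * a l) (fun _ _ => Nat.zero_le _)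
          (Finset.mem_univ l.succ)
      have h3 : a l.succ ≤ v l.succ * a l.succ := Nat.le_mul_of_pos_left _ (Nat.pos_of_ne_zero hne)
      omega
    have : deg a v = 0 := by
      unfold deg
      rw [Fin.sum_univ_succ, hv0]
      simp [hz]
    omega
  · intro hv0 hv
    have h1 : wt a (ei i) = a i.succ := by
      unfold wt ei
      rw [Finset.sum_eq_single i]
      · simp
      · intro l _ hl
        rw [Pi.single_apply, if_neg hl, zero_mul]
      · intro h; exact absurd (Finset.mem_univ i) h
    have h2 := uf m hm a ha0 P hP0 hstep hinj _ (hP1 i) v (by rw [hv, h1])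
    rw [h2, emb_succ] at hv0
    simp [ei] at hv0

end Pool.Agent.Helper151.NS
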