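import Mathlib
import Pool.Agent.Helper151.NS.Fam

set_option autoImplicit false

namespace Pool.Agent.Helper151.NS

open MvPolynomial

lemma vec_eq (u : Fin 3 → ℕ) : u = ![u 0, u 1, u 2] := by
  funext i
  fin_cases i <;> rfl

lemma wt_vec (a : Fin 4 → ℕ) (x y z : ℕ) : wt a ![x, y, z] = x * a 1 + y * a 2 + z * a 3 := by
  unfold wt
  rw [Fin.sum_univ_three]
  rfl

lemma ei0 (x y z : ℕ) : (![x, y, z] : Fin 3 → ℕ) + ei 0 = ![x + 1, y, z] := by
  funext i
  fin_cases i <;> simp [ei]
lemma ei1 (x y z : ℕ) : (![x, y, z] : Fin 3 → ℕ) + ei 1 = ![x, y + 1, z] := by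
  funext i
  fin_cases i <;> simp [ei]
lemma ei2 (x y z : ℕ) : (![x, y, z] : Fin 3 → ℕ) + ei 2 = ![x, y, z + 1] := by
  funext i
  fin_cases i <;> simp [ei]
lemma se0 (x y z : ℕ) : (![x, y, z] : Fin 3 → ℕ) - ei 0 = ![x - 1, y, z] := by
  funext i
  fin_cases i <;> simp [ei]
lemma se1 (x y z : ℕ) : (![x, y, z] : Fin 3 → ℕ) - ei 1 = ![x, y - 1, z] := by
  funext i
  fin_cases i <;> simp [ei]
lemma se2 (x y z : ℕ) : (![x, y, z] : Fin 3 → ℕ) - ei 2 = ![x, y, z - 1] := by
  funext i
  fin_cases i <;> simp [ei]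

/-- standard monomials of the first family -/
def P1 (k j : ℕ) (u : Fin 3 → ℕ) : Prop :=
  (u 0 = 0 ∨ u 1 = 0) ∧ u 0 + u 2 < k ∧ (u 1 + u 2 < k ∨ (u 1 + u 2 = k ∧ u 0 + u 2 < j))

lemma P1_vec (k j x y z : ℕ) : P1 k j ![x, y, z] ↔
    ((x = 0 ∨ y = 0) ∧ x + z < k ∧ (y + z < k ∨ (y + z = k ∧ x + z < j))) := Iff.rfl

/-- generators of the first family -/
def A1 (m k : ℕ) : Fin 4 → ℕ := ![m, 2 * m + 1, 2 * m + k, 3 * m + k + 1]

lemma wt1 (m k x y z : ℕ) : wt (A1 m k) ![x, y, z] =
    x * (2 * m + 1) + y * (2 * m + k) + z * (3 * m + k + 1) := by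
  rw [wt_vec]; rfl

lemma step1 (m k j : ℕ) (hk : 2 ≤ k) (hj : j ≤ k) (hm : m = k * k + j) :
    Step m (A1 m k) (P1 k j) := by
  intro u hu i
  obtain ⟨x, y, z, rfl⟩ : ∃ x y z, u = ![x, y, z] := ⟨u 0, u 1, u 2, vec_eq u⟩
  rw [P1_vec] at hu
  obtain ⟨hxy, hx, hy⟩ := hu
  have hi : i = 0 ∨ i = 1 ∨ i = 2 := by fin_cases i <;> simp
  rcases hi with rfl | rfl | rfl
  · rw [ei0]
    simp only [wt1]
    rcases Nat.eq_zero_or_pos y with hy0 | hy0
    · subst hy0
      by_cases h1 : x + 1 + z < k
      · refine ⟨![x + 1, 0, z], ?_, Or.inl rfl⟩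
        rw [P1_vec]; omega
      · have hk1 : k = x + 1 + z := by omega
        by_cases h2 : z + 1 < k ∨ 0 < j
        · refine ⟨![0, z + 1, 0], ?_, Or.inr ⟨2 * x + z, by omega, ?_⟩⟩
          · rw [P1_vec]; omega
          · rw [wt1, hk1]; ring
        · have hj0 : j = 0 := by omega
          have hx0 : x = 0 := by omega
          subst hj0 hx0
          refine ⟨0, ?_, Or.inr ⟨3 * z + 3, by omega, ?_⟩⟩
          · show P1 k 0 ![0, 0, 0]
            rw [P1_vec]; omega
          · have : (0 : Fin 3 → ℕ) = ![0, 0, 0] := vec_eq _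
            rw [this, wt1, hm, hk1]; ring
    · have hx0 : x = 0 := by omega
      subst hx0
      obtain ⟨y, rfl⟩ : ∃ y', y = y' + 1 := ⟨y - 1, by omega⟩
      by_cases h1 : z + 1 < k ∧ (y + 1 + z < k ∨ (y + 1 + z = k ∧ z + 1 < j))
      · refine ⟨![0, y, z + 1], ?_, Or.inr ⟨1, by omega, ?_⟩⟩
        · rw [P1_vec]; omega
        · rw [wt1]; ring
      · have h2 : k = y + 1 + z := by omega
        have h3 : j = z + 1 := by omega
        refine ⟨![0, 0, 0], ?_, Or.inr ⟨2 * (y + 1) + 3 * z + 3, by omega, ?_⟩⟩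
        · rw [P1_vec]; omega
        · rw [wt1, hm, h3, h2]; ring
  · rw [ei1]
    simp only [wt1]
    rcases Nat.eq_zero_or_pos x with hx0 | hx0
    · subst hx0
      by_cases h1 : y + 1 + z < k ∨ (y + 1 + z = k ∧ z < j)
      · refine ⟨![0, y + 1, z], ?_, Or.inl rfl⟩
        rw [P1_vec]; omega
      · by_cases h2 : y + 1 + z = k
        · obtain ⟨d, rfl⟩ : ∃ d, z = j + d := ⟨z - j, by omega⟩
          refine ⟨![d, 0, 0], ?_, Or.inr ⟨2 * y + 3 + 3 * j + d, by omega, ?_⟩⟩
          · rw [P1_vec]; omega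
          · rw [wt1, hm, ← h2]; ring
        · have h3 : k = y + z := by omega
          obtain ⟨e, he⟩ : ∃ e, z + k = j + e := ⟨z + k - j, by omega⟩
          obtain ⟨t, ht⟩ : ∃ t, 2 * y + 3 + 3 * z = 2 * e + t := ⟨2 * y + 3 + 3 * z - 2 * e, by omega⟩
          refine ⟨![e, 0, 0], ?_, Or.inr ⟨t, by omega, ?_⟩⟩
          · rw [P1_vec]; omega
          · rw [wt1]
            have e1 : 0 * (2 * m + 1) + (y + 1) * (2 * m + k) + z * (3 * m + k + 1) =
              m * (2 * y + 3 * z + 2) + (k * (y + z) + k + z) := by ring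
            have e2 : k * (y + z) + k + z = m + e := by
              rw [← h3, hm]; omega
            have e3 : e * (2 * m + 1) + 0 * (2 * m + k) + 0 * (3 * m + k + 1) + m * t =
              m * (2 * e + t) + e := by ring
            rw [e1, e2, e3, ← ht]; ring
    · have hy0 : y = 0 := by omega
      subst hy0
      obtain ⟨x, rfl⟩ : ∃ x', x = x' + 1 := ⟨x - 1, by omega⟩
      refine ⟨![x, 0, z + 1], ?_, Or.inr ⟨1, by omega, ?_⟩⟩
      · rw [P1_vec]; omega
      · rw [wt1]; ring
  · rw [ei2]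
    simp only [wt1]
    have e1 : x * (2 * m + 1) + y * (2 * m + k) + (z + 1) * (3 * m + k + 1) =
      m * (2 * x + 2 * y + 3 * z + 3) + (x + z + 1 + k * (y + z + 1)) := by ring
    rw [e1]
    by_cases h0 : x + (z + 1) < k ∧ (y + (z + 1) < k ∨ (y + (z + 1) = k ∧ x + (z + 1) < j))
    · refine ⟨![x, y, z + 1], ?_, Or.inl rfl⟩
      rw [P1_vec]; omega
    · by_cases h1 : x + (z + 1) < k
      · by_cases h2 : y + z + 1 = k
        · obtain ⟨e, he⟩ : ∃ e, x + z + 1 = j + e := ⟨x + z + 1 - j, by omega⟩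
          obtain ⟨t, ht⟩ : ∃ t, 2 * x + 2 * y + 3 * z + 4 = 2 * e + t :=
            ⟨2 * x + 2 * y + 3 * z + 4 - 2 * e, by omega⟩
          refine ⟨![e, 0, 0], ?_, Or.inr ⟨t, by omega, ?_⟩⟩
          · rw [P1_vec]; omega
          · rw [wt1]
            have e3 : e * (2 * m + 1) + 0 * (2 * m + k) + 0 * (3 * m + k + 1) + m * t =
              m * (2 * e + t) + e := by ring
            have e2 : x + z + 1 + k * (y + z + 1) = m + e := by
              rw [h2, hm]; omega
            rw [e2, e3, ← ht]; ring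
        · have h3 : y + z = k := by omega
          by_cases h4 : x + z + 1 < j
          · obtain ⟨e, he⟩ : ∃ e, x + z + 1 + k = j + e := ⟨x + z + 1 + k - j, by omega⟩
            obtain ⟨t, ht⟩ : ∃ t, 2 * x + 2 * y + 3 * z + 4 = 2 * e + t :=
              ⟨2 * x + 2 * y + 3 * z + 4 - 2 * e, by omega⟩
            refine ⟨![e, 0, 0], ?_, Or.inr ⟨t, by omega, ?_⟩⟩
            · rw [P1_vec]; omega
            · rw [wt1]
              have e3 : e * (2 * m + 1) + 0 * (2 * m + k) + 0 * (3 * m + k + 1) + m * t =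
                m * (2 * e + t) + e := by ring
              have e2 : x + z + 1 + k * (y + z + 1) = m + e := by
                rw [h3, hm, mul_add, mul_one]; omega
              rw [e2, e3, ← ht]; ring
          · have h5 : x + z + 1 = j := by omega
            refine ⟨![0, 1, 0], ?_, Or.inr ⟨2 * x + 2 * y + 3 * z + 2, by omega, ?_⟩⟩
            · rw [P1_vec]; omega
            · rw [wt1]
              have e2 : x + z + 1 + k * (y + z + 1) = m + k := by
                rw [h3, hm, mul_add, mul_one]; omega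
              rw [e2]; ring
      · have h6 : x + z + 1 = k := by omega
        by_cases h7 : y + z + 2 < k ∨ (y + z + 2 = k ∧ 0 < j)
        · obtain ⟨t, ht⟩ : ∃ t, 2 * x + z = t + 1 := ⟨2 * x + z - 1, by omega⟩
          refine ⟨![0, y + z + 2, 0], ?_, Or.inr ⟨t, by omega, ?_⟩⟩
          · rw [P1_vec]; omega
          · rw [wt1]
            have e3 : 2 * x + 2 * y + 3 * z + 3 = 2 * (y + z + 2) + t := by omega
            rw [h6, e3]; ring
        · by_cases h8 : y + z + 2 = k
          · have hj0 : j = 0 := by omega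
            refine ⟨![0, 0, 0], ?_, Or.inr ⟨2 * x + 2 * y + 3 * z + 4, by omega, ?_⟩⟩
            · rw [P1_vec]; omega
            · rw [wt1]
              have e2 : x + z + 1 + k * (y + z + 1) = m := by
                rw [h6, hm, hj0, ← h8]; ring
              rw [e2]; ring
          · by_cases h9 : y + z + 1 = k
            · by_cases hj0 : j = 0
              · refine ⟨![0, 1, 0], ?_, Or.inr ⟨2 * x + 2 * y + 3 * z + 2, by omega, ?_⟩⟩
                · rw [P1_vec]; omega
                · rw [wt1]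
                  have e2 : x + z + 1 + k * (y + z + 1) = m + k := by
                    rw [h6, hm, hj0, h9]; ring
                  rw [e2]; ring
              · obtain ⟨e, he⟩ : ∃ e, k = j + e := ⟨k - j, by omega⟩
                obtain ⟨t, ht⟩ : ∃ t, 2 * x + 2 * y + 3 * z + 4 = 2 * e + t :=
                  ⟨2 * x + 2 * y + 3 * z + 4 - 2 * e, by omega⟩
                refine ⟨![e, 0, 0], ?_, Or.inr ⟨t, by omega, ?_⟩⟩
                · rw [P1_vec]; omega
                · rw [wt1]
                  have e3 : e * (2 * m + 1) + 0 * (2 * m + k) + 0 * (3 * m + k + 1) + m * t =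
                    m * (2 * e + t) + e := by ring
                  have e2 : x + z + 1 + k * (y + z + 1) = m + e := by
                    rw [h6, h9, hm]; omega
                  rw [e2, e3, ← ht]; ring
            · have h10 : y + z = k := by omega
              have hjk : j = k := by omega
              refine ⟨![0, 1, 0], ?_, Or.inr ⟨2 * x + 2 * y + 3 * z + 2, by omega, ?_⟩⟩
              · rw [P1_vec]; omega
              · rw [wt1]
                have e2 : x + z + 1 + k * (y + z + 1) = m + k := by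
                  rw [h6, hm, hjk, h10]; ring
                rw [e2]; ring

end Pool.Agent.Helper151.NS
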