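import Mathlib
import Pool.Agent.Helper151.NS.Fam1

set_option autoImplicit false

namespace Pool.Agent.Helper151.NS

open MvPolynomial

lemma digits_unique {k i l i' l' : ℕ} (hi : i < k) (hi' : i' < k)
    (h : i + k * l = i' + k * l') : i = i' ∧ l = l' := by
  have h1 : i = i' := by
    have e := congrArg (· % k) h
    simp only [Nat.add_mul_mod_self_left, Nat.mod_eq_of_lt hi, Nat.mod_eq_of_lt hi'] at e
    exact e
  subst h1
  have h2 : k * l = k * l' := by omega
  exact ⟨rfl, Nat.eq_of_mul_eq_mul_left (by omega) h2⟩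

lemma inj1 (m k j : ℕ) (hk : 2 ≤ k) (hj : j ≤ k) (hm : m = k * k + j) (u v : Fin 3 → ℕ)
    (hu : P1 k j u) (hv : P1 k j v) (h : wt (A1 m k) u ≡ wt (A1 m k) v [MOD m]) : u = v := by
  obtain ⟨x, y, z, rfl⟩ : ∃ x y z, u = ![x, y, z] := ⟨u 0, u 1, u 2, vec_eq u⟩
  obtain ⟨x', y', z', rfl⟩ : ∃ x y z, v = ![x, y, z] := ⟨v 0, v 1, v 2, vec_eq v⟩
  rw [P1_vec] at hu hv
  rw [wt1, wt1] at h
  have key : ∀ x y z : ℕ, (x + z < k ∧ (y + z < k ∨ (y + z = k ∧ x + z < j))) →
      (x * (2 * m + 1) + y * (2 * m + k) + z * (3 * m + k + 1)) % m = (x + z) + k * (y + z) := by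
    intro x y z hxyz
    have e1 : x * (2 * m + 1) + y * (2 * m + k) + z * (3 * m + k + 1) =
      ((x + z) + k * (y + z)) + m * (2 * x + 2 * y + 3 * z) := by ring
    rw [e1, Nat.add_mul_mod_self_left]
    apply Nat.mod_eq_of_lt
    rcases hxyz with ⟨h1, h2 | ⟨h2, h3⟩⟩
    · have : k * (y + z) ≤ k * (k - 1) := Nat.mul_le_mul_left _ (by omega)
      have h4 : k * (k - 1) + k = k * k := by
        obtain ⟨k', rfl⟩ : ∃ k', k = k' + 1 := ⟨k - 1, by omega⟩
        simp; ring
      omega
    · rw [h2]; omega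
  unfold Nat.ModEq at h
  rw [key _ _ _ hu.2, key _ _ _ hv.2] at h
  obtain ⟨h1, h2⟩ := digits_unique hu.2.1 hv.2.1 h
  have hx : x = x' := by omega
  have hy : y = y' := by omega
  have hz : z = z' := by omega
  rw [hx, hy, hz]

/-- the corners of the first family -/
def E1 (k j : ℕ) : Finset (Fin 3 → ℕ) :=
  {![1, 1, 0], ![0, 0, k]} ∪ (Finset.range k).image (fun l => ![k - l, 0, l]) ∪
    (Finset.range k).image (fun l => ![0, (if l < j then k + 1 - l else k - l), l])

lemma card_E1 (k j : ℕ) (hk : 2 ≤ k) (hj : j ≤ k) : (E1 k j).card = 2 * k + 2 := by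
  unfold E1
  have h0 : ({![1, 1, 0], ![0, 0, k]} : Finset (Fin 3 → ℕ)).card = 2 := by
    rw [Finset.card_pair]
    intro h
    have := congrFun h 0
    simp at this
  have h1 : ((Finset.range k).image (fun l => (![k - l, 0, l] : Fin 3 → ℕ))).card = k := by
    rw [Finset.card_image_of_injective, Finset.card_range]
    intro a b hab
    have := congrFun hab 2
    simpa using this
  have h2 : ((Finset.range k).image (fun l =>
      (![0, (if l < j then k + 1 - l else k - l), l] : Fin 3 → ℕ))).card = k := by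
    rw [Finset.card_image_of_injective, Finset.card_range]
    intro a b hab
    have := congrFun hab 2
    simpa using this
  rw [Finset.card_union_of_disjoint, Finset.card_union_of_disjoint, h0, h1, h2]
  · ring
  · rw [Finset.disjoint_left]
    intro u hu hu'
    rw [Finset.mem_image] at hu'
    obtain ⟨l, hl, rfl⟩ := hu'
    rw [Finset.mem_range] at hl
    rw [Finset.mem_insert, Finset.mem_singleton] at hu
    rcases hu with h | h
    · have := congrFun h 1
      simp at this
    · have := congrFun h 2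
      simp at this
      omega
  · rw [Finset.disjoint_left]
    intro u hu hu'
    rw [Finset.mem_image] at hu'
    obtain ⟨l, hl, rfl⟩ := hu'
    rw [Finset.mem_range] at hl
    rw [Finset.mem_union, Finset.mem_insert, Finset.mem_singleton, Finset.mem_image] at hu
    rcases hu with (h | h) | ⟨l', hl', h⟩
    · have := congrFun h 0
      simp at this
    · have := congrFun h 2
      simp at this
      omega
    · have h3 := congrFun h 0
      rw [Finset.mem_range] at hl'
      simp at h3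
      omega

lemma E1_not (k j : ℕ) (hk : 2 ≤ k) (hj : j ≤ k) (u : Fin 3 → ℕ) (hu : u ∈ E1 k j) :
    ¬ P1 k j u := by
  unfold E1 at hu
  simp only [Finset.mem_union, Finset.mem_insert, Finset.mem_singleton, Finset.mem_image,
    Finset.mem_range] at hu
  rcases hu with ((rfl | rfl) | ⟨l, hl, rfl⟩) | ⟨l, hl, rfl⟩
  · rw [P1_vec]; omega
  · rw [P1_vec]; omega
  · rw [P1_vec]; omega
  · rw [P1_vec]
    split_ifs
    · omega
    · omega

lemma E1_div (k j : ℕ) (hk : 2 ≤ k) (hj : j ≤ k) (u : Fin 3 → ℕ) (hu : u ∈ E1 k j) (i : Fin 3)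
    (hi : 0 < u i) : P1 k j (u - ei i) := by
  unfold E1 at hu
  simp only [Finset.mem_union, Finset.mem_insert, Finset.mem_singleton, Finset.mem_image,
    Finset.mem_range] at hu
  have hi3 : i = 0 ∨ i = 1 ∨ i = 2 := by fin_cases i <;> simp
  rcases hu with ((rfl | rfl) | ⟨l, hl, rfl⟩) | ⟨l, hl, rfl⟩
  · rcases hi3 with rfl | rfl | rfl
    · rw [se0, P1_vec]; omega
    · rw [se1, P1_vec]; omega
    · simp at hi
  · rcases hi3 with rfl | rfl | rfl
    · simp at hi
    · simp at hi
    · rw [se2, P1_vec]; omega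
  · rcases hi3 with rfl | rfl | rfl
    · rw [se0, P1_vec]; omega
    · simp at hi
    · simp at hi
      rw [se2, P1_vec]; omega
  · rcases hi3 with rfl | rfl | rfl
    · simp at hi
    · rw [se1, P1_vec]
      split_ifs <;> omega
    · simp at hi
      rw [se2, P1_vec]
      split_ifs <;> omega

theorem family1 (m k j : ℕ) (hk : 2 ≤ k) (hj : j ≤ k) (hm : m = k * k + j) :
    ∃ a : Fin 4 → ℕ, StrictMono a ∧ a 0 = m ∧ Finset.univ.gcd a = 1 ∧
      (∀ i : Fin 4, a i ∉ AddSubmonoid.closure (a '' {j : Fin 4 | j ≠ i})) ∧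
      ∀ s : Finset (MvPolynomial (Fin 4) ℚ),
        Ideal.span (s : Set (MvPolynomial (Fin 4) ℚ)) = tor a → 2 * k + 2 ≤ s.card := by
  have hm0 : 0 < m := by
    rw [hm]
    have := Nat.mul_le_mul hk hk
    omega
  have hkm : k < m := by
    rw [hm]
    have := Nat.mul_le_mul_right k hk
    omega
  have hmono : StrictMono (A1 m k) := by
    rw [Fin.strictMono_iff_lt_succ]
    intro i
    fin_cases i
    · show m < 2 * m + 1
      omega
    · show 2 * m + 1 < 2 * m + k
      omega
    · show 2 * m + k < 3 * m + k + 1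
      omega
  have hP0 : P1 k j 0 := by
    have : (0 : Fin 3 → ℕ) = ![0, 0, 0] := vec_eq _
    rw [this, P1_vec]; omega
  have hP1 : ∀ i, P1 k j (ei i) := by
    intro i
    have h1 : ei i = ![0, 0, 0] + ei i := by
      have : (0 : Fin 3 → ℕ) = ![0, 0, 0] := vec_eq _
      rw [← this, zero_add]
    have hi3 : i = 0 ∨ i = 1 ∨ i = 2 := by fin_cases i <;> simp
    rw [h1]
    rcases hi3 with rfl | rfl | rfl
    · rw [ei0, P1_vec]; omega
    · rw [ei1, P1_vec]; omega
    · rw [ei2, P1_vec]; omega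
  refine ⟨A1 m k, hmono, rfl, ?_, ?_, ?_⟩
  · have h0 : Finset.univ.gcd (A1 m k) ∣ m := Finset.gcd_dvd (Finset.mem_univ (0 : Fin 4))
    have h1 : Finset.univ.gcd (A1 m k) ∣ 2 * m + 1 := Finset.gcd_dvd (Finset.mem_univ (1 : Fin 4))
    have h2 : Finset.univ.gcd (A1 m k) ∣ 2 * m := Dvd.dvd.mul_left h0 2
    have h3 := (Nat.dvd_add_right h2).mp h1
    exact Nat.dvd_one.mp h3
  · exact minimal m hm0 _ rfl hmono (P1 k j) hP0 (step1 m k j hk hj hm)
      (fun u v hu hv h => inj1 m k j hk hj hm u v hu hv h) hP1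
  · intro s hs
    rw [← card_E1 k j hk hj]
    exact fam_lower m hm0 _ rfl (P1 k j) hP0 (step1 m k j hk hj hm)
      (fun u v hu hv h => inj1 m k j hk hj hm u v hu hv h) (E1 k j) (E1_not k j hk hj)
      (E1_div k j hk hj) s hs

end Pool.Agent.Helper151.NS
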