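import Mathlib
import Pool.Agent.Helper151.NS.Fam1b

set_option autoImplicit false

namespace Pool.Agent.Helper151.NS

open MvPolynomial

/-- standard monomials of the second family, order of the exponents is x, z, y -/
def P2 (k j : ℕ) (u : Fin 3 → ℕ) : Prop :=
  (u 0 = 0 ∨ u 2 = 0) ∧ u 0 + u 1 ≤ k ∧
    (u 2 + u 1 < k ∨ (u 2 + u 1 = k ∧ k + 1 ≤ u 0 + u 1 + j))

lemma P2_vec (k j x z y : ℕ) : P2 k j ![x, z, y] ↔
    ((x = 0 ∨ y = 0) ∧ x + z ≤ k ∧ (y + z < k ∨ (y + z = k ∧ k + 1 ≤ x + z + j))) := Iff.rfl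

/-- generators of the second family (with `m = n + 1`) -/
def A2 (n k : ℕ) : Fin 4 → ℕ := ![n + 1, 2 * n + 1, 2 * n + 2 + k, 2 * n + 3 + k]

lemma wt2 (n k x z y : ℕ) : wt (A2 n k) ![x, z, y] =
    x * (2 * n + 1) + z * (2 * n + 2 + k) + y * (2 * n + 3 + k) := by
  rw [wt_vec]; rfl

lemma step2 (n k j : ℕ) (hk : 2 ≤ k) (hj1 : 1 ≤ j) (hj : j ≤ k) (hm : n + 1 = k * k + k + j) :
    Step (n + 1) (A2 n k) (P2 k j) := by
  intro u hu i
  obtain ⟨x, z, y, rfl⟩ : ∃ x z y, u = ![x, z, y] := ⟨u 0, u 1, u 2, vec_eq u⟩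
  rw [P2_vec] at hu
  obtain ⟨hxy, hx, hy⟩ := hu
  have hi : i = 0 ∨ i = 1 ∨ i = 2 := by fin_cases i <;> simp
  have hmZ : (n : ℤ) + 1 = k * k + k + j := by exact_mod_cast hm
  rcases hi with rfl | rfl | rfl
  · rw [ei0]
    simp only [wt2]
    rcases Nat.eq_zero_or_pos y with hy0 | hy0
    · subst hy0
      by_cases h1 : x + 1 + z ≤ k
      · refine ⟨![x + 1, z, 0], ?_, Or.inl rfl⟩
        rw [P2_vec]; omega
      · have hk1 : k = x + z := by omega
        rcases Nat.eq_zero_or_pos z with hz0 | hz0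
        · obtain ⟨j', rfl⟩ : ∃ j', j = j' + 1 := ⟨j - 1, by omega⟩
          obtain ⟨e, he⟩ : ∃ e, k = j' + e := ⟨k - j', by omega⟩
          refine ⟨![0, e, j'], ?_, Or.inr ⟨1, by omega, ?_⟩⟩
          · rw [P2_vec]; omega
          · rw [wt2]
            have hxk : x = k := by omega
            subst hz0 hxk
            have heZ : (x : ℤ) = j' + e := by exact_mod_cast he
            zify
            push_cast at hmZ
            linear_combination hmZ + (2 * (n : ℤ) + 2 + x) * heZ
        · obtain ⟨z, rfl⟩ : ∃ z', z = z' + 1 := ⟨z - 1, by omega⟩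
          refine ⟨![0, 0, z], ?_, Or.inr ⟨2 * x + 4, by omega, ?_⟩⟩
          · rw [P2_vec]; omega
          · rw [wt2, hk1]; ring
    · have hx0 : x = 0 := by omega
      subst hx0
      obtain ⟨y, rfl⟩ : ∃ y', y = y' + 1 := ⟨y - 1, by omega⟩
      refine ⟨![0, z + 1, y], ?_, Or.inr ⟨2, by omega, ?_⟩⟩
      · rw [P2_vec]; omega
      · rw [wt2]; ring
  · rw [ei1]
    simp only [wt2]
    rcases Nat.eq_zero_or_pos y with hy0 | hy0
    · subst hy0
      by_cases h1 : x + (z + 1) ≤ k
      · refine ⟨![x, z + 1, 0], ?_, Or.inl rfl⟩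
        rw [P2_vec]; omega
      · have hk1 : k = x + z := by omega
        by_cases hzk : z < k
        · refine ⟨![0, 0, z], ?_, Or.inr ⟨2 * x + 2, by omega, ?_⟩⟩
          · rw [P2_vec]; omega
          · rw [wt2, hk1]; ring
        · have hx0 : x = 0 := by omega
          subst hx0
          obtain ⟨e, he⟩ : ∃ e, k + 1 = j + e := ⟨k + 1 - j, by omega⟩
          refine ⟨![j, 0, 0], ?_, Or.inr ⟨2 * e + 1, by omega, ?_⟩⟩
          · rw [P2_vec]; omega
          · rw [wt2]
            have hzk' : z = k := by omega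
            subst hzk'
            have heZ : (z : ℤ) + 1 = j + e := by exact_mod_cast he
            zify
            linear_combination (-1) * hmZ + (2 * (n : ℤ) + 2) * heZ
    · have hx0 : x = 0 := by omega
      subst hx0
      by_cases h1 : y + z + 1 < k ∨ (y + z + 1 = k ∧ k + 1 ≤ z + 1 + j)
      · refine ⟨![0, z + 1, y], ?_, Or.inl rfl⟩
        rw [P2_vec]; omega
      · by_cases h2 : y + z + 1 = k
        · obtain ⟨e, he⟩ : ∃ e, y = j + e := ⟨y - j, by omega⟩
          refine ⟨![z + 1 + j, 0, 0], ?_, Or.inr ⟨2 * e + 1, by omega, ?_⟩⟩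
          · rw [P2_vec]; omega
          · rw [wt2]
            have heZ : (y : ℤ) = j + e := by exact_mod_cast he
            have h2Z : (y : ℤ) + z + 1 = k := by exact_mod_cast h2
            zify
            linear_combination (-1) * hmZ + (2 * (n : ℤ) + 2) * heZ + (k + 1) * h2Z
        · have h3 : y + z = k := by omega
          obtain ⟨e, he⟩ : ∃ e, y + 1 + k = j + e := ⟨y + 1 + k - j, by omega⟩
          obtain ⟨d, hd⟩ : ∃ d, z + j = k + d := ⟨z + j - k, by omega⟩
          refine ⟨![d, 0, 0], ?_, Or.inr ⟨2 * e + 1, by omega, ?_⟩⟩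
          · rw [P2_vec]; omega
          · rw [wt2]
            have heZ : (y : ℤ) + 1 + k = j + e := by exact_mod_cast he
            have hdZ : (z : ℤ) + j = k + d := by exact_mod_cast hd
            have h3Z : (y : ℤ) + z = k := by exact_mod_cast h3
            zify
            linear_combination (-1) * hmZ + (2 * (n : ℤ) + 2) * heZ + (2 * (n : ℤ) + 1) * hdZ +
              (k + 1) * h3Z
  · rw [ei2]
    simp only [wt2]
    rcases Nat.eq_zero_or_pos x with hx0 | hx0
    · subst hx0
      by_cases h1 : y + 1 + z < k ∨ (y + 1 + z = k ∧ k + 1 ≤ z + j)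
      · refine ⟨![0, z, y + 1], ?_, Or.inl rfl⟩
        rw [P2_vec]; omega
      · by_cases h2 : y + 1 + z = k
        · obtain ⟨e, he⟩ : ∃ e, y + 1 = j + e := ⟨y + 1 - j, by omega⟩
          refine ⟨![z + j, 0, 0], ?_, Or.inr ⟨2 * e + 1, by omega, ?_⟩⟩
          · rw [P2_vec]; omega
          · rw [wt2]
            have heZ : (y : ℤ) + 1 = j + e := by exact_mod_cast he
            have h2Z : (y : ℤ) + 1 + z = k := by exact_mod_cast h2
            zify
            linear_combination (-1) * hmZ + (2 * (n : ℤ) + 2) * heZ + (k + 1) * h2Z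
        · have h3 : y + z = k := by omega
          obtain ⟨e, he⟩ : ∃ e, y + k + 2 = j + e := ⟨y + k + 2 - j, by omega⟩
          obtain ⟨d, hd⟩ : ∃ d, z + j = k + 1 + d := ⟨z + j - k - 1, by omega⟩
          refine ⟨![d, 0, 0], ?_, Or.inr ⟨2 * e + 1, by omega, ?_⟩⟩
          · rw [P2_vec]; omega
          · rw [wt2]
            have heZ : (y : ℤ) + k + 2 = j + e := by exact_mod_cast he
            have hdZ : (z : ℤ) + j = k + 1 + d := by exact_mod_cast hd
            have h3Z : (y : ℤ) + z = k := by exact_mod_cast h3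
            zify
            linear_combination (-1) * hmZ + (2 * (n : ℤ) + 2) * heZ + (2 * (n : ℤ) + 1) * hdZ +
              (k + 1) * h3Z
    · have hy0 : y = 0 := by omega
      subst hy0
      obtain ⟨x, rfl⟩ : ∃ x', x = x' + 1 := ⟨x - 1, by omega⟩
      refine ⟨![x, z + 1, 0], ?_, Or.inr ⟨2, by omega, ?_⟩⟩
      · rw [P2_vec]; omega
      · rw [wt2]; ring

end Pool.Agent.Helper151.NS
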