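import Mathlib
import Pool.Agent.Helper151.NS.Fam2

set_option autoImplicit false

namespace Pool.Agent.Helper151.NS

open MvPolynomial

lemma inj2 (n k j : ℕ) (hm : n + 1 = k * k + k + j) (u v : Fin 3 → ℕ)
    (hu : P2 k j u) (hv : P2 k j v) (h : wt (A2 n k) u ≡ wt (A2 n k) v [MOD (n + 1)]) :
    u = v := by
  obtain ⟨x, z, y, rfl⟩ : ∃ x z y, u = ![x, z, y] := ⟨u 0, u 1, u 2, vec_eq u⟩
  obtain ⟨x', z', y', rfl⟩ : ∃ x z y, v = ![x, z, y] := ⟨v 0, v 1, v 2, vec_eq v⟩
  rw [P2_vec] at hu hv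
  have h' := Nat.ModEq.add_right k h
  rw [wt2, wt2] at h'
  have key : ∀ x z y : ℕ, (x + z ≤ k ∧ (y + z < k ∨ (y + z = k ∧ k + 1 ≤ x + z + j))) →
      (x * (2 * n + 1) + z * (2 * n + 2 + k) + y * (2 * n + 3 + k) + k) % (n + 1) =
        (k - (x + z)) + (k + 1) * (y + z) := by
    intro x z y hxyz
    obtain ⟨c, hc⟩ : ∃ c, k = c + (x + z) := ⟨k - (x + z), by omega⟩
    have hc' : k - (x + z) = c := by omega
    rw [hc']
    have e1 : x * (2 * n + 1) + z * (2 * n + 2 + k) + y * (2 * n + 3 + k) + k =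
      (c + (k + 1) * (y + z)) + (n + 1) * (2 * x + 2 * y + 2 * z) := by
      have hcZ : (k : ℤ) = c + (x + z) := by exact_mod_cast hc
      zify
      linear_combination hcZ
    rw [e1, Nat.add_mul_mod_self_left]
    apply Nat.mod_eq_of_lt
    rcases hxyz with ⟨h1, h2 | ⟨h2, h3⟩⟩
    · obtain ⟨d, hd⟩ : ∃ d, k = y + z + 1 + d := ⟨k - (y + z + 1), by omega⟩
      have : (k + 1) * (y + z) + (k + 1) * (d + 1) = (k + 1) * k := by
        rw [hd]; ring
      have h4 : k + 1 ≤ (k + 1) * (d + 1) := Nat.le_mul_of_pos_right _ (by omega)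
      have h5 : (k + 1) * k = k * k + k := by ring
      omega
    · rw [h2]
      have h5 : (k + 1) * k = k * k + k := by ring
      omega
  unfold Nat.ModEq at h'
  rw [key _ _ _ hu.2, key _ _ _ hv.2] at h'
  obtain ⟨h1, h2⟩ := digits_unique (by omega) (by omega) h'
  have hx : x = x' := by omega
  have hy : y = y' := by omega
  have hz : z = z' := by omega
  rw [hx, hy, hz]

/-- the corners of the second family -/
def E2 (k j : ℕ) : Finset (Fin 3 → ℕ) :=
  {![1, 0, 1], ![0, k + 1, 0]} ∪ (Finset.range (k + 1)).image (fun l => ![k + 1 - l, l, 0]) ∪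
    (Finset.range k).image (fun t => ![0, (if t + j ≤ k then t else t + 1), k - t])

lemma card_E2 (k j : ℕ) : (E2 k j).card = 2 * k + 3 := by
  unfold E2
  have h0 : ({![1, 0, 1], ![0, k + 1, 0]} : Finset (Fin 3 → ℕ)).card = 2 := by
    rw [Finset.card_pair]
    intro h
    have := congrFun h 0
    simp at this
  have h1 : ((Finset.range (k + 1)).image
      (fun l => (![k + 1 - l, l, 0] : Fin 3 → ℕ))).card = k + 1 := by
    rw [Finset.card_image_of_injective, Finset.card_range]
    intro a b hab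
    have := congrFun hab 1
    simpa using this
  have h2 : ((Finset.range k).image (fun t =>
      (![0, (if t + j ≤ k then t else t + 1), k - t] : Fin 3 → ℕ))).card = k := by
    rw [Finset.card_image_of_injOn, Finset.card_range]
    intro a ha b hb hab
    have := congrFun hab 2
    simp at this ha hb
    omega
  rw [Finset.card_union_of_disjoint, Finset.card_union_of_disjoint, h0, h1, h2]
  · ring
  · rw [Finset.disjoint_left]
    intro u hu hu'
    rw [Finset.mem_image] at hu'
    obtain ⟨l, hl, rfl⟩ := hu'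
    rw [Finset.mem_range] at hl
    rw [Finset.mem_insert, Finset.mem_singleton] at hu
    rcases hu with h | h
    · have := congrFun h 2
      simp at this
    · have := congrFun h 1
      simp at this
      omega
  · rw [Finset.disjoint_left]
    intro u hu hu'
    rw [Finset.mem_image] at hu'
    obtain ⟨l, hl, rfl⟩ := hu'
    rw [Finset.mem_range] at hl
    rw [Finset.mem_union, Finset.mem_insert, Finset.mem_singleton, Finset.mem_image] at hu
    rcases hu with (h | h) | ⟨l', hl', h⟩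
    · have := congrFun h 0
      simp at this
    · have := congrFun h 2
      simp at this
      omega
    · have h3 := congrFun h 0
      rw [Finset.mem_range] at hl'
      simp at h3
      omega

lemma E2_not (k j : ℕ) (u : Fin 3 → ℕ) (hu : u ∈ E2 k j) :
    ¬ P2 k j u := by
  unfold E2 at hu
  simp only [Finset.mem_union, Finset.mem_insert, Finset.mem_singleton, Finset.mem_image,
    Finset.mem_range] at hu
  rcases hu with ((rfl | rfl) | ⟨l, hl, rfl⟩) | ⟨l, hl, rfl⟩
  · rw [P2_vec]; omega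
  · rw [P2_vec]; omega
  · rw [P2_vec]; omega
  · rw [P2_vec]
    split_ifs
    · omega
    · omega

lemma E2_div (k j : ℕ) (hk : 2 ≤ k) (hj1 : 1 ≤ j) (u : Fin 3 → ℕ) (hu : u ∈ E2 k j) (i : Fin 3)
    (hi : 0 < u i) : P2 k j (u - ei i) := by
  unfold E2 at hu
  simp only [Finset.mem_union, Finset.mem_insert, Finset.mem_singleton, Finset.mem_image,
    Finset.mem_range] at hu
  have hi3 : i = 0 ∨ i = 1 ∨ i = 2 := by fin_cases i <;> simp
  rcases hu with ((rfl | rfl) | ⟨l, hl, rfl⟩) | ⟨l, hl, rfl⟩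
  · rcases hi3 with rfl | rfl | rfl
    · rw [se0, P2_vec]; omega
    · simp at hi
    · rw [se2, P2_vec]; omega
  · rcases hi3 with rfl | rfl | rfl
    · simp at hi
    · rw [se1, P2_vec]; omega
    · simp at hi
  · rcases hi3 with rfl | rfl | rfl
    · rw [se0, P2_vec]; omega
    · simp at hi
      rw [se1, P2_vec]; omega
    · simp at hi
  · rcases hi3 with rfl | rfl | rfl
    · simp at hi
    · rw [se1, P2_vec]
      simp at hi
      split_ifs at hi ⊢ <;> omega
    · rw [se2, P2_vec]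
      simp at hi
      split_ifs <;> omega

theorem family2 (n k j : ℕ) (hk : 2 ≤ k) (hj1 : 1 ≤ j) (hj : j ≤ k) (hm : n + 1 = k * k + k + j) :
    ∃ a : Fin 4 → ℕ, StrictMono a ∧ a 0 = n + 1 ∧ Finset.univ.gcd a = 1 ∧
      (∀ i : Fin 4, a i ∉ AddSubmonoid.closure (a '' {j : Fin 4 | j ≠ i})) ∧
      ∀ s : Finset (MvPolynomial (Fin 4) ℚ),
        Ideal.span (s : Set (MvPolynomial (Fin 4) ℚ)) = tor a → 2 * k + 3 ≤ s.card := by
  have hm0 : 0 < n + 1 := by omega
  have hn : 0 < n := by
    have := Nat.mul_le_mul hk hk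
    omega
  have hmono : StrictMono (A2 n k) := by
    rw [Fin.strictMono_iff_lt_succ]
    intro i
    fin_cases i
    · show n + 1 < 2 * n + 1
      omega
    · show 2 * n + 1 < 2 * n + 2 + k
      omega
    · show 2 * n + 2 + k < 2 * n + 3 + k
      omega
  have hP0 : P2 k j 0 := by
    have : (0 : Fin 3 → ℕ) = ![0, 0, 0] := vec_eq _
    rw [this, P2_vec]; omega
  have hP1 : ∀ i, P2 k j (ei i) := by
    intro i
    have h1 : ei i = ![0, 0, 0] + ei i := by
      have : (0 : Fin 3 → ℕ) = ![0, 0, 0] := vec_eq _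
      rw [← this, zero_add]
    have hi3 : i = 0 ∨ i = 1 ∨ i = 2 := by fin_cases i <;> simp
    rw [h1]
    rcases hi3 with rfl | rfl | rfl
    · rw [ei0, P2_vec]; omega
    · rw [ei1, P2_vec]; omega
    · rw [ei2, P2_vec]; omega
  refine ⟨A2 n k, hmono, rfl, ?_, ?_, ?_⟩
  · have h0 : Finset.univ.gcd (A2 n k) ∣ n + 1 := Finset.gcd_dvd (Finset.mem_univ (0 : Fin 4))
    have h1 : Finset.univ.gcd (A2 n k) ∣ 2 * n + 1 := Finset.gcd_dvd (Finset.mem_univ (1 : Fin 4))
    have h2 : Finset.univ.gcd (A2 n k) ∣ 2 * (n + 1) := Dvd.dvd.mul_left h0 2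
    have h3 : 2 * (n + 1) = (2 * n + 1) + 1 := by ring
    rw [h3] at h2
    exact Nat.dvd_one.mp ((Nat.dvd_add_right h1).mp h2)
  · exact minimal (n + 1) hm0 _ rfl hmono (P2 k j) hP0 (step2 n k j hk hj1 hj hm)
      (fun u v hu hv h => inj2 n k j hm u v hu hv h) hP1
  · intro s hs
    rw [← card_E2 k j]
    exact fam_lower (n + 1) hm0 _ rfl (P2 k j) hP0 (step2 n k j hk hj1 hj hm)
      (fun u v hu hv h => inj2 n k j hm u v hu hv h) (E2 k j) (E2_not k j)
      (E2_div k j hk hj1) s hs

end Pool.Agent.Helper151.NS
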