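import Mathlib
import Pool.Agent.Helper151.NS.Fam2b

set_option autoImplicit false

namespace Pool.Agent.Helper151.NS

open MvPolynomial

/-- the combinatorial inequality -/
def Comb : Prop := ∀ (m : ℕ) (r : Fin 3 → ZMod m) (B C : Finset (Fin 3 → ℕ)), 0 < m →
  Stair m r B C → (C.card - 2) * (C.card - 2) ≤ 4 * m

lemma floor_eq (m : ℕ) : ⌊(2 : ℝ) + 2 * Real.sqrt (m : ℝ)⌋₊ = 2 + Nat.sqrt (4 * m) := by
  have h1 : (2 : ℝ) * Real.sqrt m = Real.sqrt ((4 * m : ℕ) : ℝ) := by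
    push_cast
    rw [Real.sqrt_mul (by norm_num)]
    congr 1
    rw [show (4 : ℝ) = 2 ^ 2 by norm_num, Real.sqrt_sq (by norm_num)]
  rw [h1, add_comm, show (2 : ℝ) = ((2 : ℕ) : ℝ) by norm_num,
    Nat.floor_add_natCast (Real.sqrt_nonneg _), Real.nat_floor_real_sqrt_eq_nat_sqrt]
  ring

lemma upper_bound (H : Comb) (m : ℕ) (hm : 0 < m) (a : Fin 4 → ℕ) (hmono : StrictMono a)
    (ha0 : a 0 = m) :
    ∃ s : Finset (MvPolynomial (Fin 4) ℚ), Ideal.span (s : Set _) = tor a ∧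
      s.card ≤ 2 + Nat.sqrt (4 * m) := by
  have hpos : ∀ i, 0 < a i := by
    intro i
    have := hmono.monotone (Fin.zero_le i)
    omega
  obtain ⟨B, C, hst, s, hs, hspan⟩ := upper m hm a ha0 hpos
  refine ⟨s, hspan, ?_⟩
  have h1 := H m _ B C hm hst
  have h2 : C.card - 2 ≤ Nat.sqrt (4 * m) := Nat.le_sqrt.mpr h1
  omega

theorem main_of_comb (H : Comb) :
    ∀ m : ℕ, 3 < m →
      (∀ a : Fin 4 → ℕ, StrictMono a → a 0 = m → Finset.univ.gcd a = 1 →
        (∀ i : Fin 4, a i ∉ AddSubmonoid.closure (a '' {j : Fin 4 | j ≠ i})) →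
        sInf {n : ℕ | ∃ s : Finset (MvPolynomial (Fin 4) ℚ), s.card = n ∧
          Ideal.span (s : Set (MvPolynomial (Fin 4) ℚ)) =
            RingHom.ker (MvPolynomial.aeval
              (fun i : Fin 4 => (Polynomial.X : Polynomial ℚ) ^ (a i)))}
          ≤ ⌊(2 : ℝ) + 2 * Real.sqrt (m : ℝ)⌋₊) ∧
      (∃ a : Fin 4 → ℕ, StrictMono a ∧ a 0 = m ∧ Finset.univ.gcd a = 1 ∧
        (∀ i : Fin 4, a i ∉ AddSubmonoid.closure (a '' {j : Fin 4 | j ≠ i})) ∧
        sInf {n : ℕ | ∃ s : Finset (MvPolynomial (Fin 4) ℚ), s.card = n ∧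
          Ideal.span (s : Set (MvPolynomial (Fin 4) ℚ)) =
            RingHom.ker (MvPolynomial.aeval
              (fun i : Fin 4 => (Polynomial.X : Polynomial ℚ) ^ (a i)))}
          = ⌊(2 : ℝ) + 2 * Real.sqrt (m : ℝ)⌋₊) := by
  intro m hm
  rw [floor_eq]
  have hup : ∀ a : Fin 4 → ℕ, StrictMono a → a 0 = m →
        sInf {n : ℕ | ∃ s : Finset (MvPolynomial (Fin 4) ℚ), s.card = n ∧
          Ideal.span (s : Set (MvPolynomial (Fin 4) ℚ)) =
            RingHom.ker (MvPolynomial.aeval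
              (fun i : Fin 4 => (Polynomial.X : Polynomial ℚ) ^ (a i)))}
          ≤ 2 + Nat.sqrt (4 * m) := by
    intro a hmono ha0
    obtain ⟨s, hs, hcard⟩ := upper_bound H m (by omega) a hmono ha0
    refine le_trans (Nat.sInf_le ?_) hcard
    exact ⟨s, rfl, hs⟩
  refine ⟨fun a h1 h2 _ _ => hup a h1 h2, ?_⟩
  have hex : ∃ a : Fin 4 → ℕ, StrictMono a ∧ a 0 = m ∧ Finset.univ.gcd a = 1 ∧
      (∀ i : Fin 4, a i ∉ AddSubmonoid.closure (a '' {j : Fin 4 | j ≠ i})) ∧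
      ∀ s : Finset (MvPolynomial (Fin 4) ℚ),
        Ideal.span (s : Set (MvPolynomial (Fin 4) ℚ)) = tor a → 2 + Nat.sqrt (4 * m) ≤ s.card := by
    have hk1 := Nat.sqrt_le m
    have hk2 := Nat.sqrt_lt_self (n := m) (by omega)
    have hk3 := Nat.lt_succ_sqrt m
    have hk4 : 2 ≤ Nat.sqrt m := by
      rw [Nat.le_sqrt]; omega
    set k := Nat.sqrt m with hk
    obtain ⟨r, hr⟩ : ∃ r, m = k * k + r := ⟨m - k * k, by omega⟩
    have hr2 : r ≤ 2 * k := by
      have : Nat.succ k * Nat.succ k = k * k + 2 * k + 1 := by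
        simp only [Nat.succ_eq_add_one]; ring
      omega
    by_cases hrk : r ≤ k
    · obtain ⟨a, h1, h2, h3, h4, h5⟩ := family1 m k r hk4 hrk hr
      refine ⟨a, h1, h2, h3, h4, fun s hs => ?_⟩
      have h6 : Nat.sqrt (4 * m) = 2 * k := by
        have e : 4 * m = 2 * k * (2 * k) + 4 * r := by rw [hr]; ring
        rw [e, Nat.sqrt_add_eq _ (by omega)]
      have := h5 s hs
      omega
    · obtain ⟨n, hn⟩ : ∃ n, m = n + 1 := ⟨m - 1, by omega⟩
      obtain ⟨j, hj⟩ : ∃ j, r = k + j := ⟨r - k, by omega⟩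
      obtain ⟨a, h1, h2, h3, h4, h5⟩ := family2 n k j hk4 (by omega) (by omega) (by omega)
      refine ⟨a, h1, by omega, h3, h4, fun s hs => ?_⟩
      have h6 : Nat.sqrt (4 * m) = 2 * k + 1 := by
        have e : 4 * m = (2 * k + 1) * (2 * k + 1) + (4 * j - 1) := by
          obtain ⟨j', rfl⟩ : ∃ j', j = j' + 1 := ⟨j - 1, by omega⟩
          have : 4 * (j' + 1) - 1 = 4 * j' + 3 := by omega
          rw [hr, hj, this]; ring
        rw [e, Nat.sqrt_add_eq _ (by omega)]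
      have := h5 s hs
      omega
  obtain ⟨a, h1, h2, h3, h4, h5⟩ := hex
  refine ⟨a, h1, h2, h3, h4, le_antisymm (hup a h1 h2) ?_⟩
  obtain ⟨s, hs, _⟩ := upper_bound H m (by omega) a h1 h2
  refine le_csInf ⟨s.card, s, rfl, hs⟩ ?_
  rintro n ⟨s, rfl, hs⟩
  exact h5 s hs

end Pool.Agent.Helper151.NS
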