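import Mathlib

set_option autoImplicit false

namespace Pool.Agent.Helper151.NS.VPlanar

open Finset

/-! triangle of lattice points -/

def tri (N : ℕ) : Finset (ℕ × ℕ) :=
  (Finset.Icc 1 N ×ˢ Finset.Icc 1 N).filter (fun t => t.1 + t.2 ≤ N)

lemma mem_tri (N : ℕ) (t : ℕ × ℕ) : t ∈ tri N ↔ 1 ≤ t.1 ∧ 1 ≤ t.2 ∧ t.1 + t.2 ≤ N := by
  simp only [tri, Finset.mem_filter, Finset.mem_product, Finset.mem_Icc]
  omega

lemma card_tri (N : ℕ) : 2 * (tri N).card = N * (N - 1) := by
  induction N with
  | zero => simp [tri]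
  | succ N ih =>
    have h : tri (N + 1) = tri N ∪ (Finset.Icc 1 N).image (fun x => (x, N + 1 - x)) := by
      ext ⟨x, y⟩
      simp only [Finset.mem_union, mem_tri, Finset.mem_image, Finset.mem_Icc, Prod.mk.injEq]
      constructor
      · intro h
        by_cases h2 : x + y ≤ N
        · left; omega
        · right; exact ⟨x, by omega, rfl, by omega⟩
      · rintro (h | ⟨a, ha, rfl, rfl⟩) <;> omega
    have hd : Disjoint (tri N) ((Finset.Icc 1 N).image (fun x => (x, N + 1 - x))) := by
      rw [Finset.disjoint_left]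
      rintro ⟨x, y⟩ h1 h2
      simp only [mem_tri, Finset.mem_image, Finset.mem_Icc, Prod.mk.injEq] at h1 h2
      obtain ⟨a, ha, rfl, rfl⟩ := h2
      omega
    rw [h, Finset.card_union_of_disjoint hd, Finset.card_image_of_injective _ (by
      intro a b hab
      simp only [Prod.mk.injEq] at hab
      exact hab.1), Nat.card_Icc, Nat.mul_add, ih]
    rcases N with _ | N
    · simp
    · simp only [Nat.add_sub_cancel]
      ring

/-! four boxes -/

def boxes (a b c a' b' c' : ℕ) : Finset (ℕ × ℕ × ℕ) :=
  ((Finset.Icc 1 a ×ˢ (Finset.Icc 1 b ×ˢ Finset.Icc 1 c)) ∪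
   ({a + 1} ×ˢ (Finset.Icc 1 b' ×ˢ Finset.Icc 1 c'))) ∪
  ((Finset.Icc 1 a' ×ˢ ({b + 1} ×ˢ Finset.Icc 1 c')) ∪
   (Finset.Icc 1 a' ×ˢ (Finset.Icc 1 b' ×ˢ {c + 1})))

lemma card_boxes (a b c a' b' c' : ℕ) (ha : a' ≤ a) (hb : b' ≤ b) (_ : c' ≤ c) :
    (boxes a b c a' b' c').card = a * (b * c) + b' * c' + a' * c' + a' * b' := by
  unfold boxes
  rw [Finset.card_union_of_disjoint, Finset.card_union_of_disjoint,
    Finset.card_union_of_disjoint]
  · simp only [Finset.card_product, Nat.card_Icc, Nat.add_sub_cancel, Finset.card_singleton]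
    ring
  · rw [Finset.disjoint_left]
    rintro ⟨x, y, z⟩ h1 h2
    simp only [Finset.mem_product, Finset.mem_Icc, Finset.mem_singleton] at h1 h2
    omega
  · rw [Finset.disjoint_left]
    rintro ⟨x, y, z⟩ h1 h2
    simp only [Finset.mem_product, Finset.mem_Icc, Finset.mem_singleton] at h1 h2
    omega
  · rw [Finset.disjoint_left]
    rintro ⟨x, y, z⟩ h1 h2
    simp only [Finset.mem_product, Finset.mem_Icc, Finset.mem_singleton,
      Finset.mem_union] at h1 h2
    omega

/-! patterns -/

def lab (u : Fin 3 → ℕ) : Bool × Bool × Bool :=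
  (decide (0 < u 0), decide (0 < u 1), decide (0 < u 2))

def num (S : Finset (Fin 3 → ℕ)) (a b c : Bool) : ℕ :=
  (S.filter (fun u => lab u = (a, b, c))).card

lemma card_eq_num (S : Finset (Fin 3 → ℕ)) :
    S.card = num S true true true + num S true true false + num S true false true
      + num S true false false + num S false true true + num S false true false
      + num S false false true + num S false false false := by
  have h := Finset.card_eq_sum_card_fiberwise (f := lab) (s := S)
    (t := (Finset.univ : Finset (Bool × Bool × Bool))) (by intro x _; simp)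
  rw [h]
  simp only [Fintype.sum_prod_type, Fintype.sum_bool, num]
  ring

def e (t : ℕ × ℕ × ℕ) : Fin 3 → ℕ := ![t.1, t.2.1, t.2.2]

lemma e_inj : Function.Injective e := by
  rintro ⟨a, b, c⟩ ⟨a', b', c'⟩ h
  have h0 := congrFun h 0
  have h1 := congrFun h 1
  have h2 := congrFun h 2
  simp [e] at h0 h1 h2
  simp [h0, h1, h2]

lemma e_surj (u : Fin 3 → ℕ) : u = e (u 0, u 1, u 2) := by
  funext i
  fin_cases i <;> simp [e]

lemma card_le_num (S : Finset (Fin 3 → ℕ)) (a b c : Bool) (T : Finset (ℕ × ℕ × ℕ))
    (h : ∀ t ∈ T, e t ∈ S ∧ lab (e t) = (a, b, c)) : T.card ≤ num S a b c := by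
  unfold num
  refine Finset.card_le_card_of_injOn e ?_ (e_inj.injOn)
  intro t ht
  have := h t ht
  simp [this.1, this.2]

/-! the plane bound -/

lemma corner_min (B : Finset (Fin 3 → ℕ)) (down : ∀ u ∈ B, ∀ v, v ≤ u → v ∈ B)
    (u : Fin 3 → ℕ) (hu : ∀ l, 0 < u l → u - Pi.single l 1 ∈ B)
    (v : Fin 3 → ℕ) (hv : v ∉ B) (hvu : v ≤ u) : v = u := by
  by_contra hne
  have : ∃ l, v l < u l := by
    by_contra hcon
    push Not at hcon
    exact hne (le_antisymm hvu hcon)
  obtain ⟨l, hl⟩ := this
  apply hv
  apply down _ (hu l (by omega))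
  intro k
  by_cases hk : k = l
  · subst hk
    simp only [Pi.sub_apply, Pi.single_eq_same]
    omega
  · simp only [Pi.sub_apply, Pi.single_eq_of_ne hk]
    have := hvu k
    omega

lemma plane_bound (B : Finset (Fin 3 → ℕ)) (down : ∀ u ∈ B, ∀ v, v ≤ u → v ∈ B)
    (D : Finset (Fin 3 → ℕ))
    (hD : ∀ u ∈ D, u ∉ B ∧ ∀ l, 0 < u l → u - Pi.single l 1 ∈ B) (i j : Fin 3)
    (hsup : ∀ u ∈ D, 0 < u i ∧ 0 < u j ∧ ∀ l, l ≠ i → l ≠ j → u l = 0)
    (w : Fin 3 → ℕ) (hw : w ∉ B) (hwi : 0 < w i) (hwj : 0 < w j)
    (hwl : ∀ l, l ≠ i → l ≠ j → w l = 0) : D.card + 1 ≤ w i + w j := by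
  have key : ∀ u ∈ D, ∀ v, v ∉ B → v ≤ u → v = u := fun u hu v hv hvu =>
    corner_min B down u (hD u hu).2 v hv hvu
  have inj1 : ∀ u ∈ D, ∀ v ∈ D, u i = v i → u = v := by
    intro u hu v hv huv
    rcases le_total (u j) (v j) with h | h
    · refine key v hv u (hD u hu).1 (Pi.le_def.mpr ?_)
      intro l
      by_cases h1 : l = i
      · subst h1; omega
      · by_cases h2 : l = j
        · subst h2; omega
        · rw [(hsup u hu).2.2 l h1 h2]; omega
    · symm
      refine key u hu v (hD v hv).1 (Pi.le_def.mpr ?_)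
      intro l
      by_cases h1 : l = i
      · subst h1; omega
      · by_cases h2 : l = j
        · subst h2; omega
        · rw [(hsup v hv).2.2 l h1 h2]; omega
  have inj2 : ∀ u ∈ D, ∀ v ∈ D, u j = v j → u = v := by
    intro u hu v hv huv
    rcases le_total (u i) (v i) with h | h
    · refine key v hv u (hD u hu).1 (Pi.le_def.mpr ?_)
      intro l
      by_cases h1 : l = i
      · subst h1; omega
      · by_cases h2 : l = j
        · subst h2; omega
        · rw [(hsup u hu).2.2 l h1 h2]; omega
    · symm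
      refine key u hu v (hD v hv).1 (Pi.le_def.mpr ?_)
      intro l
      by_cases h1 : l = i
      · subst h1; omega
      · by_cases h2 : l = j
        · subst h2; omega
        · rw [(hsup v hv).2.2 l h1 h2]; omega
  have hsub : D ⊆ (D.filter (fun u => u i < w i) ∪ D.filter (fun u => u j < w j)) ∪ {w} := by
    intro u hu
    simp only [Finset.mem_union, Finset.mem_filter, Finset.mem_singleton]
    by_cases h1 : u i < w i
    · exact Or.inl (Or.inl ⟨hu, h1⟩)
    · by_cases h2 : u j < w j
      · exact Or.inl (Or.inr ⟨hu, h2⟩)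
      · right
        symm
        refine key u hu w hw (Pi.le_def.mpr ?_)
        intro l
        by_cases h3 : l = i
        · subst h3; omega
        · by_cases h4 : l = j
          · subst h4; omega
          · rw [hwl l h3 h4]; omega
  have c1 : (D.filter (fun u => u i < w i)).card ≤ (Finset.Icc 1 (w i - 1)).card := by
    refine Finset.card_le_card_of_injOn (fun u => u i) ?_ ?_
    · intro u hu
      simp only [Finset.coe_filter, Set.mem_ofPred_eq] at hu
      have := (hsup u hu.1).1
      simp only [Finset.coe_Icc, Set.mem_Icc]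
      omega
    · intro u hu v hv huv
      simp only [Finset.coe_filter, Set.mem_ofPred_eq] at hu hv
      exact inj1 u hu.1 v hv.1 huv
  have c2 : (D.filter (fun u => u j < w j)).card ≤ (Finset.Icc 1 (w j - 1)).card := by
    refine Finset.card_le_card_of_injOn (fun u => u j) ?_ ?_
    · intro u hu
      simp only [Finset.coe_filter, Set.mem_ofPred_eq] at hu
      have := (hsup u hu.1).2.1
      simp only [Finset.coe_Icc, Set.mem_Icc]
      omega
    · intro u hu v hv huv
      simp only [Finset.coe_filter, Set.mem_ofPred_eq] at hu hv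
      exact inj2 u hu.1 v hv.1 huv
  have c3 := Finset.card_le_card hsub
  have c4 := Finset.card_union_le (D.filter (fun u => u i < w i) ∪ D.filter (fun u => u j < w j)) {w}
  have c5 := Finset.card_union_le (D.filter (fun u => u i < w i)) (D.filter (fun u => u j < w j))
  rw [Nat.card_Icc] at c1 c2
  rw [Finset.card_singleton] at c4
  omega

/-! arithmetic -/

lemma arith_big (p q r S V I : ℤ) (hp : 0 ≤ p) (hq : 0 ≤ q) (hr : 0 ≤ r)
    (h1 : 1 ≤ p) (hpqr : q + r ≤ p) (hS : 3 * (p + q + r + 1) ≤ 2 * S)
    (hI0 : 0 ≤ I) (hI : 1 ≤ q → 1 ≤ r → (r - 1) * (q - 1) ≤ I)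
    (hV : 2 * S - 4 + p * (p - 1) + q * (q - 1) + r * (r - 1) + 2 * I ≤ 2 * V) :
    (p + q + r + 1) * (p + q + r + 1) ≤ 4 * V := by
  by_cases hq1 : 1 ≤ q
  · by_cases hr1 : 1 ≤ r
    · have := hI hq1 hr1
      nlinarith [sq_nonneg (p - q - r + 1)]
    · have hr0 : r = 0 := by omega
      subst hr0
      nlinarith [sq_nonneg (p - q), mul_nonneg hp hq]
  · have hq0 : q = 0 := by omega
    subst hq0
    by_cases hr1 : 1 ≤ r
    · nlinarith [sq_nonneg (p - r), mul_nonneg hp hr]
    · have hr0 : r = 0 := by omega
      subst hr0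
      nlinarith [mul_nonneg (by linarith : (0:ℤ) ≤ p - 1) (by linarith : (0:ℤ) ≤ p)]

lemma arith_even (a b c S V I : ℤ) (ha : 1 ≤ a) (hb : 1 ≤ b) (hc : 1 ≤ c)
    (hS : 3 * (2 * (a + b + c) + 1) ≤ 2 * S)
    (hI : a * (b * c) + (b - 1) * (c - 1) + (a - 1) * (c - 1) + (a - 1) * (b - 1) ≤ I)
    (hV : 2 * S - 4 + (b + c) * (b + c - 1) + (a + c) * (a + c - 1) + (a + b) * (a + b - 1)
      + 2 * I ≤ 2 * V) :
    (2 * (a + b + c) + 1) * (2 * (a + b + c) + 1) ≤ 4 * V := by
  have hS2 : 3 * (a + b + c) + 2 ≤ S := by omega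
  obtain ⟨a', rfl⟩ : ∃ a', a = a' + 1 := ⟨a - 1, by ring⟩
  obtain ⟨b', rfl⟩ : ∃ b', b = b' + 1 := ⟨b - 1, by ring⟩
  obtain ⟨c', rfl⟩ : ∃ c', c = c' + 1 := ⟨c - 1, by ring⟩
  have ha' : 0 ≤ a' := by linarith
  have hb' : 0 ≤ b' := by linarith
  have hc' : 0 ≤ c' := by linarith
  have h1 := mul_nonneg ha' hb'
  have h2 := mul_nonneg ha' hc'
  have h3 := mul_nonneg hb' hc'
  have h4 := mul_nonneg ha' h3
  nlinarith

lemma arith_odd (a b c S V I : ℤ) (ha : 0 ≤ a) (hb : 0 ≤ b) (hc : 0 ≤ c)
    (hS : 3 * (2 * (a + b + c) + 4) ≤ 2 * S)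
    (hI : a * (b * c) + b * c + a * c + a * b ≤ I)
    (hV : 2 * S - 4 + (b + c + 1) * (b + c) + (a + c + 1) * (a + c) + (a + b + 1) * (a + b)
      + 2 * I ≤ 2 * V) :
    (2 * (a + b + c) + 4) * (2 * (a + b + c) + 4) ≤ 4 * V := by
  have h3 := mul_nonneg hb hc
  have h4 := mul_nonneg ha h3
  nlinarith

lemma final_arith (p q r S V I : ℕ) (hsum : 3 * (p + q + r + 1) ≤ 2 * S) (hV1 : 1 ≤ V)
    (hVnat : 2 * S + p * (p - 1) + q * (q - 1) + r * (r - 1) + 2 * I ≤ 2 * V + 4)
    (hI : ∀ T : Finset (ℕ × ℕ × ℕ), (∀ t ∈ T, 1 ≤ t.1 ∧ 1 ≤ t.2.1 ∧ 1 ≤ t.2.2 ∧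
      t.1 + t.2.1 ≤ r ∧ t.1 + t.2.2 ≤ q ∧ t.2.1 + t.2.2 ≤ p) → T.card ≤ I) :
    (p + q + r + 1) * (p + q + r + 1) ≤ 4 * V := by
  have cast1 : ∀ n : ℕ, ((n * (n - 1) : ℕ) : ℤ) = (n : ℤ) * ((n : ℤ) - 1) := by
    intro n
    rcases n with _ | n
    · simp
    · push_cast
      simp
  have hV : 2 * ((S : ℕ) : ℤ) - 4 + p * ((p : ℤ) - 1) + q * ((q : ℤ) - 1)
      + r * ((r : ℤ) - 1) + 2 * (I : ℤ) ≤ 2 * (V : ℤ) := by
    have h := hVnat
    have h' : ((2 * S + p * (p - 1) + q * (q - 1) + r * (r - 1)
      + 2 * I : ℕ) : ℤ) ≤ ((2 * V + 4 : ℕ) : ℤ) := by exact_mod_cast h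
    rw [Nat.cast_add, Nat.cast_add, Nat.cast_add, Nat.cast_add, cast1, cast1, cast1] at h'
    push_cast at h' ⊢
    linarith
  have hS : 3 * ((p : ℤ) + q + r + 1) ≤ 2 * ((S : ℕ) : ℤ) := by
    exact_mod_cast hsum
  zify
  by_cases hzero : p + q + r = 0
  · have : p = 0 := by omega
    subst this
    have : q = 0 := by omega
    subst this
    have : r = 0 := by omega
    subst this
    push_cast
    omega
  · by_cases hc1 : q + r ≤ p
    · refine arith_big p q r S V I (by positivity) (by positivity) (by positivity)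
        (by omega) (by omega) hS (by positivity) ?_ hV
      intro hq1 hr1
      have := hI ({1} ×ˢ (Finset.Icc 1 (r - 1) ×ˢ Finset.Icc 1 (q - 1))) (by
        rintro ⟨x, y, z⟩ ht
        simp only [Finset.mem_product, Finset.mem_Icc, Finset.mem_singleton] at ht ⊢
        omega)
      simp only [Finset.card_product, Finset.card_singleton, Nat.card_Icc,
        Nat.add_sub_cancel, one_mul] at this
      zify [show 1 ≤ r by omega, show 1 ≤ q by omega] at this
      exact this
    · by_cases hc2 : p + r ≤ q
      · have := arith_big q p r S V I (by positivity) (by positivity) (by positivity)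
          (by omega) (by omega) (by linarith) (by positivity) ?_ (by linarith)
        · linarith
        · intro hq1 hr1
          have := hI (Finset.Icc 1 (r - 1) ×ˢ ({1} ×ˢ Finset.Icc 1 (p - 1))) (by
            rintro ⟨x, y, z⟩ ht
            simp only [Finset.mem_product, Finset.mem_Icc, Finset.mem_singleton] at ht ⊢
            omega)
          simp only [Finset.card_product, Finset.card_singleton, Nat.card_Icc,
            Nat.add_sub_cancel, one_mul] at this
          zify [show 1 ≤ r by omega, show 1 ≤ p by omega] at this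
          exact this
      · by_cases hc3 : p + q ≤ r
        · have := arith_big r p q S V I (by positivity) (by positivity) (by positivity)
            (by omega) (by omega) (by linarith) (by positivity) ?_ (by linarith)
          · linarith
          · intro hq1 hr1
            have := hI (Finset.Icc 1 (q - 1) ×ˢ (Finset.Icc 1 (p - 1) ×ˢ {1})) (by
              rintro ⟨x, y, z⟩ ht
              simp only [Finset.mem_product, Finset.mem_Icc, Finset.mem_singleton] at ht ⊢
              omega)
            simp only [Finset.card_product, Finset.card_singleton, Nat.card_Icc,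
              Nat.add_sub_cancel, mul_one] at this
            zify [show 1 ≤ q by omega, show 1 ≤ p by omega] at this
            exact this
        · rcases Nat.even_or_odd' (p + q + r) with ⟨s, hs | hs⟩
          · obtain ⟨a, ha⟩ : ∃ a, a = s - p := ⟨_, rfl⟩
            obtain ⟨b, hb⟩ : ∃ b, b = s - q := ⟨_, rfl⟩
            obtain ⟨c, hc⟩ : ∃ c, c = s - r := ⟨_, rfl⟩
            have ha1 : 1 ≤ a := by omega
            have hb1 : 1 ≤ b := by omega
            have hc1' : 1 ≤ c := by omega
            have hp' : p = b + c := by omega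
            have hq' : q = a + c := by omega
            have hr' : r = a + b := by omega
            have hbox := hI (boxes a b c (a - 1) (b - 1) (c - 1)) (by
              rintro ⟨x, y, z⟩ ht
              simp only [boxes, Finset.mem_union, Finset.mem_product, Finset.mem_Icc,
                Finset.mem_singleton] at ht ⊢
              omega)
            rw [card_boxes _ _ _ _ _ _ (by omega) (by omega) (by omega)] at hbox
            zify [ha1, hb1, hc1'] at hbox
            subst hp' hq' hr'
            push_cast at hV hS ⊢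
            have := arith_even a b c S V I (by omega) (by omega) (by omega)
              (by linarith) hbox (by linarith)
            linarith
          · obtain ⟨a, ha⟩ : ∃ a, a = s - p := ⟨_, rfl⟩
            obtain ⟨b, hb⟩ : ∃ b, b = s - q := ⟨_, rfl⟩
            obtain ⟨c, hc⟩ : ∃ c, c = s - r := ⟨_, rfl⟩
            have hp' : p = b + c + 1 := by omega
            have hq' : q = a + c + 1 := by omega
            have hr' : r = a + b + 1 := by omega
            have hbox := hI (boxes a b c a b c) (by
              rintro ⟨x, y, z⟩ ht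
              simp only [boxes, Finset.mem_union, Finset.mem_product, Finset.mem_Icc,
                Finset.mem_singleton] at ht ⊢
              omega)
            rw [card_boxes _ _ _ _ _ _ (by omega) (by omega) (by omega)] at hbox
            zify at hbox
            subst hp' hq' hr'
            push_cast at hV hS ⊢
            have := arith_odd a b c S V I (by omega) (by omega) (by omega)
              (by linarith) hbox (by linarith)
            linarith


/-! the main count -/

lemma lab_e (t : ℕ × ℕ × ℕ) :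
    lab (e t) = (decide (0 < t.1), decide (0 < t.2.1), decide (0 < t.2.2)) := rfl

lemma single0 (k : ℕ) : (Pi.single 0 k : Fin 3 → ℕ) = e (k, 0, 0) := by
  funext i
  fin_cases i <;> simp [e]

lemma single1 (k : ℕ) : (Pi.single 1 k : Fin 3 → ℕ) = e (0, k, 0) := by
  funext i
  fin_cases i <;> simp [e]

lemma single2 (k : ℕ) : (Pi.single 2 k : Fin 3 → ℕ) = e (0, 0, k) := by
  funext i
  fin_cases i <;> simp [e]

/-- existence of a corner below every vector outside a set -/
lemma exists_corner (B : Finset (Fin 3 → ℕ)) :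
    ∀ (n : ℕ) (w : Fin 3 → ℕ), w 0 + w 1 + w 2 = n → w ∉ B →
      ∃ u, u ≤ w ∧ u ∉ B ∧ ∀ i, 0 < u i → u - Pi.single i 1 ∈ B := by
  intro n
  induction n using Nat.strong_induction_on with
  | _ n ih =>
    intro w hw hwB
    by_cases h : ∀ i, 0 < w i → w - Pi.single i 1 ∈ B
    · exact ⟨w, le_refl _, hwB, h⟩
    · push Not at h
      obtain ⟨i, hi, hiB⟩ := h
      obtain ⟨w', hw'⟩ : ∃ w' : Fin 3 → ℕ, w' = w - Pi.single i 1 := ⟨_, rfl⟩
      have hle : w' ≤ w := by
        subst hw'
        intro k
        simp only [Pi.sub_apply]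
        exact Nat.sub_le _ _
      have hs : w' 0 + w' 1 + w' 2 < n := by
        subst hw'
        fin_cases i <;> simp at hi ⊢ <;> omega
      rw [← hw'] at hiB
      obtain ⟨u, h1, h2⟩ := ih _ hs w' rfl hiB
      exact ⟨u, le_trans h1 hle, h2⟩

lemma axis_corner (B C : Finset (Fin 3 → ℕ))
    (corner : ∀ u, u ∈ C ↔ (u ∉ B ∧ ∀ i, 0 < u i → u - Pi.single i 1 ∈ B))
    (A : Fin 3 → ℕ) (hA : ∀ i k, Pi.single i k ∈ B ↔ k < A i) (h0 : (0 : Fin 3 → ℕ) ∈ B)
    (i : Fin 3) (u : Fin 3 → ℕ) :
    (u ∈ C ∧ 0 < u i ∧ ∀ l, l ≠ i → u l = 0) ↔ u = Pi.single i (A i) := by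
  have hpos : 0 < A i := by
    rw [← hA i 0]
    simpa using h0
  constructor
  · rintro ⟨huC, hui, hul⟩
    have hu : u = Pi.single i (u i) := by
      funext l
      by_cases h : l = i
      · subst h; simp
      · rw [Pi.single_eq_of_ne h, hul l h]
    rw [corner] at huC
    have h1 : ¬ (u i < A i) := by
      rw [← hA i (u i), ← hu]
      exact huC.1
    have h2 : u i - 1 < A i := by
      rw [← hA i (u i - 1)]
      have := huC.2 i hui
      have h3 : u - Pi.single i 1 = Pi.single i (u i - 1) := by
        funext l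
        by_cases h : l = i
        · subst h; simp
        · simp only [Pi.sub_apply]
          rw [Pi.single_eq_of_ne h, Pi.single_eq_of_ne h, hul l h]
          rfl
      rwa [h3] at this
    rw [hu]
    congr 1
    omega
  · rintro rfl
    refine ⟨?_, by simpa using hpos, fun l hl => Pi.single_eq_of_ne hl _⟩
    rw [corner]
    refine ⟨?_, ?_⟩
    · rw [hA i (A i)]
      omega
    · intro l hl
      by_cases h : l = i
      · subst h
        have h3 : (Pi.single l (A l) : Fin 3 → ℕ) - Pi.single l 1 = Pi.single l (A l - 1) := by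
          funext k
          by_cases h : k = l
          · subst h; simp
          · simp only [Pi.sub_apply]
            rw [Pi.single_eq_of_ne h, Pi.single_eq_of_ne h, Pi.single_eq_of_ne h]
            rfl
        rw [h3, hA l]
        omega
      · rw [Pi.single_eq_of_ne h] at hl
        omega

lemma lab_iff (u : Fin 3 → ℕ) (a b c : Bool) :
    lab u = (a, b, c) ↔ ((0 < u 0 ↔ a = true) ∧ (0 < u 1 ↔ b = true) ∧ (0 < u 2 ↔ c = true)) := by
  unfold lab
  cases a <;> cases b <;> cases c <;> simp

theorem planar_final (B C : Finset (Fin 3 → ℕ)) (down : ∀ u ∈ B, ∀ v, v ≤ u → v ∈ B)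
    (corner : ∀ u, u ∈ C ↔ (u ∉ B ∧ ∀ i, 0 < u i → u - Pi.single i 1 ∈ B))
    (nofull : ∀ u ∈ C, ∃ i, u i = 0) (h0 : (0 : Fin 3 → ℕ) ∈ B)
    (A : Fin 3 → ℕ) (hA : ∀ i k, Pi.single i k ∈ B ↔ k < A i)
    (hsum : 3 * (C.card - 2) ≤ 2 * (A 0 + A 1 + A 2)) :
    (C.card - 2) * (C.card - 2) ≤ 4 * B.card := by
  have hpos : ∀ i, 0 < A i := by
    intro i
    rw [← hA i 0]
    simpa using h0
  -- corner counts
  have n111 : num C true true true = 0 := by
    unfold num
    rw [Finset.card_eq_zero, Finset.filter_eq_empty_iff]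
    intro u hu h
    rw [lab_iff] at h
    obtain ⟨i, hi⟩ := nofull u hu
    fin_cases i <;> simp at hi h <;> omega
  have n000 : num C false false false = 0 := by
    unfold num
    rw [Finset.card_eq_zero, Finset.filter_eq_empty_iff]
    intro u hu h
    rw [lab_iff] at h
    have : u = 0 := by
      funext i
      fin_cases i <;> simp at h ⊢ <;> omega
    rw [this, corner] at hu
    exact hu.1 h0
  have n100 : num C true false false = 1 := by
    unfold num
    rw [Finset.card_eq_one]
    refine ⟨Pi.single 0 (A 0), ?_⟩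
    ext u
    rw [Finset.mem_filter, Finset.mem_singleton, ← axis_corner B C corner A hA h0 0 u, lab_iff]
    constructor
    · rintro ⟨h1, h2⟩
      refine ⟨h1, by simpa using h2.1, ?_⟩
      intro l hl
      fin_cases l <;> simp at hl h2 ⊢ <;> omega
    · rintro ⟨h1, h2, h3⟩
      have h31 := h3 1 (by decide)
      have h32 := h3 2 (by decide)
      exact ⟨h1, by simpa using h2, by simp [h31], by simp [h32]⟩
  have n010 : num C false true false = 1 := by
    unfold num
    rw [Finset.card_eq_one]
    refine ⟨Pi.single 1 (A 1), ?_⟩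
    ext u
    rw [Finset.mem_filter, Finset.mem_singleton, ← axis_corner B C corner A hA h0 1 u, lab_iff]
    constructor
    · rintro ⟨h1, h2⟩
      refine ⟨h1, by simpa using h2.2.1, ?_⟩
      intro l hl
      fin_cases l <;> simp at hl h2 ⊢ <;> omega
    · rintro ⟨h1, h2, h3⟩
      have h31 := h3 0 (by decide)
      have h32 := h3 2 (by decide)
      exact ⟨h1, by simp [h31], by simpa using h2, by simp [h32]⟩
  have n001 : num C false false true = 1 := by
    unfold num
    rw [Finset.card_eq_one]
    refine ⟨Pi.single 2 (A 2), ?_⟩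
    ext u
    rw [Finset.mem_filter, Finset.mem_singleton, ← axis_corner B C corner A hA h0 2 u, lab_iff]
    constructor
    · rintro ⟨h1, h2⟩
      refine ⟨h1, by simpa using h2.2.2, ?_⟩
      intro l hl
      fin_cases l <;> simp at hl h2 ⊢ <;> omega
    · rintro ⟨h1, h2, h3⟩
      have h31 := h3 0 (by decide)
      have h32 := h3 1 (by decide)
      exact ⟨h1, by simp [h31], by simp [h32], by simpa using h2⟩
  obtain ⟨r, hr⟩ : ∃ r, r = num C true true false := ⟨_, rfl⟩
  obtain ⟨q, hq⟩ : ∃ q, q = num C true false true := ⟨_, rfl⟩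
  obtain ⟨p, hp⟩ : ∃ p, p = num C false true true := ⟨_, rfl⟩
  have hC : C.card = p + q + r + 3 := by
    rw [card_eq_num C, n111, n000, n100, n010, n001, ← hr, ← hq, ← hp]
    ring
  have hU : C.card - 2 = p + q + r + 1 := by omega
  rw [hU] at hsum ⊢
  -- planar containment
  have c01 : ∀ x y, 1 ≤ x → 1 ≤ y → x + y ≤ r → e (x, y, 0) ∈ B := by
    intro x y hx hy hxy
    by_contra hcon
    have := plane_bound B down (C.filter (fun u => lab u = (true, true, false)))
      (fun u hu => (corner u).1 (Finset.mem_filter.1 hu).1) 0 1 (by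
        intro u hu
        have h := (Finset.mem_filter.1 hu).2
        rw [lab_iff] at h
        refine ⟨by simpa using h.1, by simpa using h.2.1, ?_⟩
        intro l h1 h2
        fin_cases l <;> simp at h1 h2 h ⊢ <;> omega) (e (x, y, 0)) hcon
      (by simp [e]; omega) (by simp [e]; omega) (by
        intro l h1 h2
        fin_cases l <;> simp [e] at h1 h2 ⊢)
    simp [e] at this
    unfold num at hr
    omega
  have c02 : ∀ x y, 1 ≤ x → 1 ≤ y → x + y ≤ q → e (x, 0, y) ∈ B := by
    intro x y hx hy hxy
    by_contra hcon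
    have := plane_bound B down (C.filter (fun u => lab u = (true, false, true)))
      (fun u hu => (corner u).1 (Finset.mem_filter.1 hu).1) 0 2 (by
        intro u hu
        have h := (Finset.mem_filter.1 hu).2
        rw [lab_iff] at h
        refine ⟨by simpa using h.1, by simpa using h.2.2, ?_⟩
        intro l h1 h2
        fin_cases l <;> simp at h1 h2 h ⊢ <;> omega) (e (x, 0, y)) hcon
      (by simp [e]; omega) (by simp [e]; omega) (by
        intro l h1 h2
        fin_cases l <;> simp [e] at h1 h2 ⊢)
    simp [e] at this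
    unfold num at hq
    omega
  have c12 : ∀ x y, 1 ≤ x → 1 ≤ y → x + y ≤ p → e (0, x, y) ∈ B := by
    intro x y hx hy hxy
    by_contra hcon
    have := plane_bound B down (C.filter (fun u => lab u = (false, true, true)))
      (fun u hu => (corner u).1 (Finset.mem_filter.1 hu).1) 1 2 (by
        intro u hu
        have h := (Finset.mem_filter.1 hu).2
        rw [lab_iff] at h
        refine ⟨by simpa using h.2.1, by simpa using h.2.2, ?_⟩
        intro l h1 h2
        fin_cases l <;> simp at h1 h2 h ⊢ <;> omega) (e (0, x, y)) hcon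
      (by simp [e]; omega) (by simp [e]; omega) (by
        intro l h1 h2
        fin_cases l <;> simp [e] at h1 h2 ⊢)
    simp [e] at this
    unfold num at hp
    omega
  have c012 : ∀ x y z, 1 ≤ x → 1 ≤ y → 1 ≤ z → x + y ≤ r → x + z ≤ q → y + z ≤ p →
      e (x, y, z) ∈ B := by
    intro x y z hx hy hz h1 h2 h3
    by_contra hcon
    obtain ⟨u, hu1, hu2, hu3⟩ := exists_corner B _ (e (x, y, z)) rfl hcon
    obtain ⟨i, hi⟩ := nofull u ((corner u).2 ⟨hu2, hu3⟩)
    have l0 := hu1 0
    have l1 := hu1 1
    have l2 := hu1 2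
    simp [e] at l0 l1 l2
    fin_cases i
    · apply hu2
      apply down _ (c12 y z hy hz h3)
      intro k
      fin_cases k <;> simp [e] at hi ⊢ <;> omega
    · apply hu2
      apply down _ (c02 x z hx hz h2)
      intro k
      fin_cases k <;> simp [e] at hi ⊢ <;> omega
    · apply hu2
      apply down _ (c01 x y hx hy h1)
      intro k
      fin_cases k <;> simp [e] at hi ⊢ <;> omega
  -- lower bounds for the pieces of B
  have b000 : 1 ≤ num B false false false := by
    have := card_le_num B false false false {(0, 0, 0)} (by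
      intro t ht
      rw [Finset.mem_singleton] at ht
      subst ht
      refine ⟨?_, by simp [lab_e]⟩
      rw [← single0]
      simpa using h0)
    simpa using this
  have b100 : A 0 - 1 ≤ num B true false false := by
    have := card_le_num B true false false ((Finset.Icc 1 (A 0 - 1)).image (fun k => (k, 0, 0)))
      (by
        intro t ht
        simp only [Finset.mem_image, Finset.mem_Icc] at ht
        obtain ⟨k, hk, rfl⟩ := ht
        refine ⟨?_, by simp [lab_e]; omega⟩
        rw [← single0, hA]
        omega)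
    rw [Finset.card_image_of_injective _ (by intro a b hab; simpa using hab), Nat.card_Icc] at this
    simpa using this
  have b010 : A 1 - 1 ≤ num B false true false := by
    have := card_le_num B false true false ((Finset.Icc 1 (A 1 - 1)).image (fun k => (0, k, 0)))
      (by
        intro t ht
        simp only [Finset.mem_image, Finset.mem_Icc] at ht
        obtain ⟨k, hk, rfl⟩ := ht
        refine ⟨?_, by simp [lab_e]; omega⟩
        rw [← single1, hA]
        omega)
    rw [Finset.card_image_of_injective _ (by intro a b hab; simpa using hab), Nat.card_Icc] at this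
    simpa using this
  have b001 : A 2 - 1 ≤ num B false false true := by
    have := card_le_num B false false true ((Finset.Icc 1 (A 2 - 1)).image (fun k => (0, 0, k)))
      (by
        intro t ht
        simp only [Finset.mem_image, Finset.mem_Icc] at ht
        obtain ⟨k, hk, rfl⟩ := ht
        refine ⟨?_, by simp [lab_e]; omega⟩
        rw [← single2, hA]
        omega)
    rw [Finset.card_image_of_injective _ (by intro a b hab; simpa using hab), Nat.card_Icc] at this
    simpa using this
  have b110 : (tri r).card ≤ num B true true false := by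
    have := card_le_num B true true false ((tri r).image (fun t => (t.1, t.2, 0)))
      (by
        intro t ht
        simp only [Finset.mem_image] at ht
        obtain ⟨k, hk, rfl⟩ := ht
        rw [mem_tri] at hk
        refine ⟨c01 _ _ hk.1 hk.2.1 hk.2.2, by simp [lab_e]; omega⟩)
    rwa [Finset.card_image_of_injective _ (by
      rintro ⟨a, b⟩ ⟨c, d⟩ hab; simpa using hab)] at this
  have b101 : (tri q).card ≤ num B true false true := by
    have := card_le_num B true false true ((tri q).image (fun t => (t.1, 0, t.2)))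
      (by
        intro t ht
        simp only [Finset.mem_image] at ht
        obtain ⟨k, hk, rfl⟩ := ht
        rw [mem_tri] at hk
        refine ⟨c02 _ _ hk.1 hk.2.1 hk.2.2, by simp [lab_e]; omega⟩)
    rwa [Finset.card_image_of_injective _ (by
      rintro ⟨a, b⟩ ⟨c, d⟩ hab; simpa using hab)] at this
  have b011 : (tri p).card ≤ num B false true true := by
    have := card_le_num B false true true ((tri p).image (fun t => (0, t.1, t.2)))
      (by
        intro t ht
        simp only [Finset.mem_image] at ht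
        obtain ⟨k, hk, rfl⟩ := ht
        rw [mem_tri] at hk
        refine ⟨c12 _ _ hk.1 hk.2.1 hk.2.2, by simp [lab_e]; omega⟩)
    rwa [Finset.card_image_of_injective _ (by
      rintro ⟨a, b⟩ ⟨c, d⟩ hab; simpa using hab)] at this
  have hI : ∀ T : Finset (ℕ × ℕ × ℕ), (∀ t ∈ T, 1 ≤ t.1 ∧ 1 ≤ t.2.1 ∧ 1 ≤ t.2.2 ∧
      t.1 + t.2.1 ≤ r ∧ t.1 + t.2.2 ≤ q ∧ t.2.1 + t.2.2 ≤ p) → T.card ≤ num B true true true := by
    intro T hT
    apply card_le_num
    intro t ht
    have h := hT t ht
    refine ⟨c012 _ _ _ h.1 h.2.1 h.2.2.1 h.2.2.2.1 h.2.2.2.2.1 h.2.2.2.2.2, ?_⟩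
    simp [lab_e]
    omega
  obtain ⟨I, hIdef⟩ : ∃ I, I = num B true true true := ⟨_, rfl⟩
  rw [← hIdef] at hI
  have hB := card_eq_num B
  have t1 := card_tri p
  have t2 := card_tri q
  have t3 := card_tri r
  have := hpos 0
  have := hpos 1
  have := hpos 2
  exact final_arith p q r (A 0 + A 1 + A 2) B.card I hsum (by omega) (by omega) hI

end Pool.Agent.Helper151.NS.VPlanar
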