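import Mathlib
import Pool.Agent.Helper151.NS.VPlanar
import Pool.Agent.Helper151.NS.VDelta1
import Pool.Agent.Helper151.NS.Claim2

set_option autoImplicit false

namespace Pool.Agent.Helper151.NS.VBridge

open Finset Pool.Agent.Helper151.NS

variable {m : ℕ} {r : Fin 3 → ZMod m} {B C : Finset (Fin 3 → ℕ)}

lemma card_le_m (hm : 0 < m) (h : Stair m r B C) : B.card ≤ m := by
  haveI : NeZero m := ⟨by omega⟩
  have h1 : B.card ≤ (Finset.univ : Finset (ZMod m)).card := by
    refine Finset.card_le_card_of_injOn (fun u => res m r u) (fun _ _ => Finset.mem_coe.2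
      (Finset.mem_univ _)) ?_
    intro u hu v hv he
    exact h.inj u hu v hv he
  rwa [Finset.card_univ, ZMod.card] at h1

lemma extents (h : Stair m r B C) :
    ∃ A : Fin 3 → ℕ, ∀ i k, (Pi.single i k : Fin 3 → ℕ) ∈ B ↔ k < A i := by
  have hex : ∀ i : Fin 3, ∃ k : ℕ, (Pi.single i k : Fin 3 → ℕ) ∉ B := by
    intro i
    refine ⟨B.sup (fun u => u i) + 1, ?_⟩
    intro hcon
    have := Finset.le_sup (f := fun u : Fin 3 → ℕ => u i) hcon
    simp only [Pi.single_eq_same] at this
    omega
  classical
  refine ⟨fun i => Nat.find (hex i), ?_⟩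
  intro i k
  constructor
  · intro hk
    by_contra hcon
    push Not at hcon
    apply Nat.find_spec (hex i)
    refine h.down _ hk _ ?_
    intro j
    by_cases hj : j = i
    · subst hj
      simpa using hcon
    · rw [Pi.single_eq_of_ne hj]
      exact Nat.zero_le _
  · intro hk
    have := Nat.find_min (hex i) hk
    push Not at this
    exact this

lemma zero_mem (h : Stair m r B C) : (0 : Fin 3 → ℕ) ∈ B := by
  obtain ⟨u, hu, -⟩ := h.surj 0
  exact h.down u hu 0 (by intro i; exact Nat.zero_le _)

def Pr (B : Finset (Fin 3 → ℕ)) (x y z : ℕ) : Prop := (![x, y, z] : Fin 3 → ℕ) ∈ B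

lemma vec (u : Fin 3 → ℕ) : ![u 0, u 1, u 2] = u := by
  funext i
  fin_cases i <;> simp

lemma vec2 (u : Fin 3 → ℕ) (h : u 2 = 0) : ![u 0, u 1, 0] = u := by
  funext i
  fin_cases i <;> simp [h]

lemma vec1 (u : Fin 3 → ℕ) (h : u 1 = 0) : ![u 0, 0, u 2] = u := by
  funext i
  fin_cases i <;> simp [h]

lemma vec0 (u : Fin 3 → ℕ) (h : u 0 = 0) : ![0, u 1, u 2] = u := by
  funext i
  fin_cases i <;> simp [h]

lemma res_vec (x y z : ℕ) : res m r ![x, y, z] = (x : ZMod m) * r 0 + (y : ZMod m) * r 1
    + (z : ZMod m) * r 2 := by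
  unfold res
  rw [Fin.sum_univ_three]
  simp

lemma tile (h : Stair m r B C) : VDelta1.Tile (Pr B) (r 0) (r 1) (r 2) where
  down := by
    intro x y z x' y' z' hp hx hy hz
    refine h.down _ hp _ ?_
    intro i
    fin_cases i <;> simpa
  inj := by
    intro x y z x' y' z' hp hp' he
    have := h.inj _ hp _ hp' (by rw [res_vec, res_vec]; exact he)
    have h0 := congrFun this 0
    have h1 := congrFun this 1
    have h2 := congrFun this 2
    simp at h0 h1 h2
    exact ⟨h0, h1, h2⟩
  surj := by
    intro x y z
    obtain ⟨u, hu, he⟩ := h.surj ![x, y, z]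
    refine ⟨u 0, u 1, u 2, ?_, ?_⟩
    · unfold Pr
      rw [vec]
      exact hu
    · rw [← res_vec, ← res_vec, vec]
      exact he.symm

lemma full_of (h : Stair m r B C) (u : Fin 3 → ℕ) (hu : u ∈ C) (hpos : ∀ i, 0 < u i) :
    VDelta1.Full (Pr B) (u 0) (u 1) (u 2) := by
  obtain ⟨h1, h2⟩ := (h.corner u).1 hu
  refine ⟨hpos 0, hpos 1, hpos 2, ?_, ?_, ?_, ?_⟩
  · unfold Pr
    rwa [vec]
  · have := h2 0 (hpos 0)
    unfold Pr
    convert this using 1
    funext i
    fin_cases i <;> simp [ei]
  · have := h2 1 (hpos 1)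
    unfold Pr
    convert this using 1
    funext i
    fin_cases i <;> simp [ei]
  · have := h2 2 (hpos 2)
    unfold Pr
    convert this using 1
    funext i
    fin_cases i <;> simp [ei]

lemma full_unique (h : Stair m r B C) (u v : Fin 3 → ℕ) (hu : u ∈ C) (hv : v ∈ C)
    (hup : ∀ i, 0 < u i) (hvp : ∀ i, 0 < v i) : u = v := by
  have z1 := VDelta1.full_zero (tile h) (full_of h u hu hup)
  have z2 := VDelta1.full_zero (tile h) (full_of h v hv hvp)
  have f1 := (full_of h u hu hup).2.2.2.2.1
  have f2 := (full_of h v hv hvp).2.2.2.2.1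
  have p1 := hup 0
  have p2 := hvp 0
  obtain ⟨a, ha⟩ : ∃ a, u 0 = a + 1 := ⟨u 0 - 1, by omega⟩
  obtain ⟨b, hb⟩ : ∃ b, v 0 = b + 1 := ⟨v 0 - 1, by omega⟩
  rw [ha] at f1 z1
  rw [hb] at f2 z2
  simp only [Nat.add_sub_cancel] at f1 f2
  have := (tile h).inj _ _ _ _ _ _ f1 f2 (by
    push_cast at z1 z2
    linear_combination z1 - z2)
  funext i
  fin_cases i
  · simp [ha, hb, this.1]
  · exact this.2.1
  · exact this.2.2

lemma single_iff0 (k : ℕ) : Pr B k 0 0 ↔ (Pi.single 0 k : Fin 3 → ℕ) ∈ B := by
  unfold Pr
  have : (![k, 0, 0] : Fin 3 → ℕ) = Pi.single 0 k := by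
    funext i
    fin_cases i <;> simp
  rw [this]

lemma single_iff1 (k : ℕ) : Pr B 0 k 0 ↔ (Pi.single 1 k : Fin 3 → ℕ) ∈ B := by
  unfold Pr
  have : (![0, k, 0] : Fin 3 → ℕ) = Pi.single 1 k := by
    funext i
    fin_cases i <;> simp
  rw [this]

lemma single_iff2 (k : ℕ) : Pr B 0 0 k ↔ (Pi.single 2 k : Fin 3 → ℕ) ∈ B := by
  unfold Pr
  have : (![0, 0, k] : Fin 3 → ℕ) = Pi.single 2 k := by
    funext i
    fin_cases i <;> simp
  rw [this]

lemma cor12 (h : Stair m r B C) (a b : ℕ) :
    VDelta1.IsCor (fun x y => Pr B x y 0) a b ↔ (0 < a ∧ 0 < b ∧ (![a, b, 0] : Fin 3 → ℕ) ∈ C) := by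
  rw [h.corner]
  unfold VDelta1.IsCor Pr
  have e0 : (![a, b, 0] : Fin 3 → ℕ) - ei 0 = ![a - 1, b, 0] := by
    funext i
    fin_cases i <;> simp [ei]
  have e1 : (![a, b, 0] : Fin 3 → ℕ) - ei 1 = ![a, b - 1, 0] := by
    funext i
    fin_cases i <;> simp [ei]
  constructor
  · rintro ⟨h1, h2, h3, h4, h5⟩
    refine ⟨h1, h2, h3, ?_⟩
    intro i hi
    fin_cases i
    · show (![a, b, 0] : Fin 3 → ℕ) - ei 0 ∈ B
      rw [e0]; exact h4
    · show (![a, b, 0] : Fin 3 → ℕ) - ei 1 ∈ B
      rw [e1]; exact h5
    · simp at hi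
  · rintro ⟨h1, h2, h3, h4⟩
    refine ⟨h1, h2, h3, ?_, ?_⟩
    · have := h4 0 (by simpa using h1)
      rwa [e0] at this
    · have := h4 1 (by simpa using h2)
      rwa [e1] at this

lemma cor13 (h : Stair m r B C) (a b : ℕ) :
    VDelta1.IsCor (fun x y => Pr B x 0 y) a b ↔ (0 < a ∧ 0 < b ∧ (![a, 0, b] : Fin 3 → ℕ) ∈ C) := by
  rw [h.corner]
  unfold VDelta1.IsCor Pr
  have e0 : (![a, 0, b] : Fin 3 → ℕ) - ei 0 = ![a - 1, 0, b] := by
    funext i
    fin_cases i <;> simp [ei]
  have e1 : (![a, 0, b] : Fin 3 → ℕ) - ei 2 = ![a, 0, b - 1] := by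
    funext i
    fin_cases i <;> simp [ei]
  constructor
  · rintro ⟨h1, h2, h3, h4, h5⟩
    refine ⟨h1, h2, h3, ?_⟩
    intro i hi
    fin_cases i
    · show (![a, 0, b] : Fin 3 → ℕ) - ei 0 ∈ B
      rw [e0]; exact h4
    · simp at hi
    · show (![a, 0, b] : Fin 3 → ℕ) - ei 2 ∈ B
      rw [e1]; exact h5
  · rintro ⟨h1, h2, h3, h4⟩
    refine ⟨h1, h2, h3, ?_, ?_⟩
    · have := h4 0 (by simpa using h1)
      rwa [e0] at this
    · have := h4 2 (by simpa using h2)
      rwa [e1] at this

lemma cor23 (h : Stair m r B C) (a b : ℕ) :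
    VDelta1.IsCor (fun x y => Pr B 0 x y) a b ↔ (0 < a ∧ 0 < b ∧ (![0, a, b] : Fin 3 → ℕ) ∈ C) := by
  rw [h.corner]
  unfold VDelta1.IsCor Pr
  have e0 : (![0, a, b] : Fin 3 → ℕ) - ei 1 = ![0, a - 1, b] := by
    funext i
    fin_cases i <;> simp [ei]
  have e1 : (![0, a, b] : Fin 3 → ℕ) - ei 2 = ![0, a, b - 1] := by
    funext i
    fin_cases i <;> simp [ei]
  constructor
  · rintro ⟨h1, h2, h3, h4, h5⟩
    refine ⟨h1, h2, h3, ?_⟩
    intro i hi
    fin_cases i
    · simp at hi
    · show (![0, a, b] : Fin 3 → ℕ) - ei 1 ∈ B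
      rw [e0]; exact h4
    · show (![0, a, b] : Fin 3 → ℕ) - ei 2 ∈ B
      rw [e1]; exact h5
  · rintro ⟨h1, h2, h3, h4⟩
    refine ⟨h1, h2, h3, ?_, ?_⟩
    · have := h4 1 (by simpa using h1)
      rwa [e0] at this
    · have := h4 2 (by simpa using h2)
      rwa [e1] at this

/-- corner counts in the presence of a full corner -/
lemma counts (h : Stair m r B C) (A : Fin 3 → ℕ)
    (hA : ∀ i k, (Pi.single i k : Fin 3 → ℕ) ∈ B ↔ k < A i)
    (u : Fin 3 → ℕ) (hu : u ∈ C) (hpos : ∀ i, 0 < u i) :
    C.card = VPlanar.num C true true false + VPlanar.num C true false true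
      + VPlanar.num C false true true + 4 := by
  have h0 := zero_mem h
  have corner := h.corner
  have n111 : VPlanar.num C true true true = 1 := by
    unfold VPlanar.num
    rw [Finset.card_eq_one]
    refine ⟨u, ?_⟩
    ext v
    rw [Finset.mem_filter, Finset.mem_singleton, VPlanar.lab_iff]
    constructor
    · rintro ⟨h1, h2, h3, h4⟩
      refine (full_unique h v u h1 hu ?_ hpos)
      intro i
      fin_cases i
      · simpa using h2
      · simpa using h3
      · simpa using h4
    · rintro rfl
      exact ⟨hu, by simpa using hpos 0, by simpa using hpos 1, by simpa using hpos 2⟩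
  have n000 : VPlanar.num C false false false = 0 := by
    unfold VPlanar.num
    rw [Finset.card_eq_zero, Finset.filter_eq_empty_iff]
    intro v hv hh
    rw [VPlanar.lab_iff] at hh
    have : v = 0 := by
      funext i
      fin_cases i <;> simp at hh ⊢ <;> omega
    rw [this, corner] at hv
    exact hv.1 h0
  have n100 : VPlanar.num C true false false = 1 := by
    unfold VPlanar.num
    rw [Finset.card_eq_one]
    refine ⟨Pi.single 0 (A 0), ?_⟩
    ext v
    rw [Finset.mem_filter, Finset.mem_singleton,
      ← VPlanar.axis_corner B C corner A hA h0 0 v, VPlanar.lab_iff]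
    constructor
    · rintro ⟨h1, h2⟩
      refine ⟨h1, by simpa using h2.1, ?_⟩
      intro l hl
      fin_cases l <;> simp at hl h2 ⊢ <;> omega
    · rintro ⟨h1, h2, h3⟩
      have h31 := h3 1 (by decide)
      have h32 := h3 2 (by decide)
      exact ⟨h1, by simpa using h2, by simp [h31], by simp [h32]⟩
  have n010 : VPlanar.num C false true false = 1 := by
    unfold VPlanar.num
    rw [Finset.card_eq_one]
    refine ⟨Pi.single 1 (A 1), ?_⟩
    ext v
    rw [Finset.mem_filter, Finset.mem_singleton,
      ← VPlanar.axis_corner B C corner A hA h0 1 v, VPlanar.lab_iff]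
    constructor
    · rintro ⟨h1, h2⟩
      refine ⟨h1, by simpa using h2.2.1, ?_⟩
      intro l hl
      fin_cases l <;> simp at hl h2 ⊢ <;> omega
    · rintro ⟨h1, h2, h3⟩
      have h31 := h3 0 (by decide)
      have h32 := h3 2 (by decide)
      exact ⟨h1, by simp [h31], by simpa using h2, by simp [h32]⟩
  have n001 : VPlanar.num C false false true = 1 := by
    unfold VPlanar.num
    rw [Finset.card_eq_one]
    refine ⟨Pi.single 2 (A 2), ?_⟩
    ext v
    rw [Finset.mem_filter, Finset.mem_singleton,
      ← VPlanar.axis_corner B C corner A hA h0 2 v, VPlanar.lab_iff]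
    constructor
    · rintro ⟨h1, h2⟩
      refine ⟨h1, by simpa using h2.2.2, ?_⟩
      intro l hl
      fin_cases l <;> simp at hl h2 ⊢ <;> omega
    · rintro ⟨h1, h2, h3⟩
      have h31 := h3 0 (by decide)
      have h32 := h3 1 (by decide)
      exact ⟨h1, by simp [h31], by simp [h32], by simpa using h2⟩
  rw [VPlanar.card_eq_num C, n111, n000, n100, n010, n001]
  ring

theorem comb_of_claim (hm : 0 < m) (h : Stair m r B C)
    (claim : ∀ A : Fin 3 → ℕ, (∀ i k, (Pi.single i k : Fin 3 → ℕ) ∈ B ↔ k < A i) →
      C.card ≤ A 0 + A 1 + 2 ∧ C.card ≤ A 1 + A 2 + 2 ∧ C.card ≤ A 0 + A 2 + 2 ∧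
      3 * (C.card - 2) ≤ 2 * (A 0 + A 1 + A 2)) :
    (C.card - 2) * (C.card - 2) ≤ 4 * m := by
  obtain ⟨A, hA⟩ := extents h
  obtain ⟨c1, c2, c3, c4⟩ := claim A hA
  have hB := card_le_m hm h
  by_cases hnf : ∀ u ∈ C, ∃ i, u i = 0
  · have := VPlanar.planar_final B C h.down h.corner hnf (zero_mem h) A hA c4
    omega
  · push Not at hnf
    obtain ⟨u, hu, hu0⟩ := hnf
    have hpos : ∀ i, 0 < u i := fun i => Nat.pos_of_ne_zero (hu0 i)
    have hcount := counts h A hA u hu hpos
    have key := VDelta1.delta1 (tile h) (full_of h u hu hpos)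
      (B.image (fun w => (w 0, w 1, w 2))) (by
        intro x y z
        rw [Finset.mem_image]
        constructor
        · rintro ⟨w, hw, he⟩
          simp only [Prod.mk.injEq] at he
          unfold Pr
          rw [← he.1, ← he.2.1, ← he.2.2, vec]
          exact hw
        · intro hp
          exact ⟨_, hp, by simp⟩)
      ((C.filter (fun w => VPlanar.lab w = (true, true, false))).image (fun w => (w 0, w 1)))
      ((C.filter (fun w => VPlanar.lab w = (true, false, true))).image (fun w => (w 0, w 2)))
      ((C.filter (fun w => VPlanar.lab w = (false, true, true))).image (fun w => (w 1, w 2)))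
      (by
        intro a b
        rw [cor12 h, Finset.mem_image]
        constructor
        · rintro ⟨w, hw, he⟩
          rw [Finset.mem_filter, VPlanar.lab_iff] at hw
          simp only [Prod.mk.injEq] at he
          have w2 : w 2 = 0 := by
            have := hw.2.2.2
            simp at this
            exact this
          have w0 : 0 < w 0 := by simpa using hw.2.1
          have w1 : 0 < w 1 := by simpa using hw.2.2.1
          rw [← he.1, ← he.2]
          refine ⟨w0, w1, ?_⟩
          rw [vec2 w w2]
          exact hw.1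
        · rintro ⟨h1, h2, h3⟩
          refine ⟨![a, b, 0], ?_, by simp⟩
          rw [Finset.mem_filter, VPlanar.lab_iff]
          exact ⟨h3, by simpa using h1, by simpa using h2, by simp⟩)
      (by
        intro a b
        rw [cor13 h, Finset.mem_image]
        constructor
        · rintro ⟨w, hw, he⟩
          rw [Finset.mem_filter, VPlanar.lab_iff] at hw
          simp only [Prod.mk.injEq] at he
          have w1 : w 1 = 0 := by
            have := hw.2.2.1
            simp at this
            exact this
          have w0 : 0 < w 0 := by simpa using hw.2.1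
          have w2 : 0 < w 2 := by simpa using hw.2.2.2
          rw [← he.1, ← he.2]
          refine ⟨w0, w2, ?_⟩
          rw [vec1 w w1]
          exact hw.1
        · rintro ⟨h1, h2, h3⟩
          refine ⟨![a, 0, b], ?_, by simp⟩
          rw [Finset.mem_filter, VPlanar.lab_iff]
          exact ⟨h3, by simpa using h1, by simp, by simpa using h2⟩)
      (by
        intro a b
        rw [cor23 h, Finset.mem_image]
        constructor
        · rintro ⟨w, hw, he⟩
          rw [Finset.mem_filter, VPlanar.lab_iff] at hw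
          simp only [Prod.mk.injEq] at he
          have w0 : w 0 = 0 := by
            have := hw.2.1
            simp at this
            exact this
          have w1 : 0 < w 1 := by simpa using hw.2.2.1
          have w2 : 0 < w 2 := by simpa using hw.2.2.2
          rw [← he.1, ← he.2]
          refine ⟨w1, w2, ?_⟩
          rw [vec0 w w0]
          exact hw.1
        · rintro ⟨h1, h2, h3⟩
          refine ⟨![0, a, b], ?_, by simp⟩
          rw [Finset.mem_filter, VPlanar.lab_iff]
          exact ⟨h3, by simp, by simpa using h1, by simpa using h2⟩)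
      (A 0) (A 1) (A 2)
      (fun k => by rw [single_iff0, hA]) (fun k => by rw [single_iff1, hA])
      (fun k => by rw [single_iff2, hA])
    have i12 : ((C.filter (fun w => VPlanar.lab w = (true, true, false))).image
        (fun w => (w 0, w 1))).card = VPlanar.num C true true false := by
      rw [Finset.card_image_of_injOn]
      · rfl
      · intro v hv w hw he
        simp only [Finset.mem_coe, Finset.mem_filter, VPlanar.lab_iff, Prod.mk.injEq] at hv hw he
        funext i
        fin_cases i
        · exact he.1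
        · exact he.2
        · have := hv.2.2.2
          have := hw.2.2.2
          simp at *
          omega
    have i13 : ((C.filter (fun w => VPlanar.lab w = (true, false, true))).image
        (fun w => (w 0, w 2))).card = VPlanar.num C true false true := by
      rw [Finset.card_image_of_injOn]
      · rfl
      · intro v hv w hw he
        simp only [Finset.mem_coe, Finset.mem_filter, VPlanar.lab_iff, Prod.mk.injEq] at hv hw he
        funext i
        fin_cases i
        · exact he.1
        · have := hv.2.2.1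
          have := hw.2.2.1
          simp at *
          omega
        · exact he.2
    have i23 : ((C.filter (fun w => VPlanar.lab w = (false, true, true))).image
        (fun w => (w 1, w 2))).card = VPlanar.num C false true true := by
      rw [Finset.card_image_of_injOn]
      · rfl
      · intro v hv w hw he
        simp only [Finset.mem_coe, Finset.mem_filter, VPlanar.lab_iff, Prod.mk.injEq] at hv hw he
        funext i
        fin_cases i
        · have := hv.2.1
          have := hw.2.1
          simp at *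
          omega
        · exact he.1
        · exact he.2
    rw [i12, i13, i23] at key
    have key2 := key (by omega) (by omega) (by omega)
    have hcardB := Finset.card_image_le (s := B) (f := fun w : Fin 3 → ℕ => (w 0, w 1, w 2))
    have e : C.card - 2 = VPlanar.num C true true false + VPlanar.num C true false true
      + VPlanar.num C false true true + 2 := by omega
    rw [e]
    omega

theorem comb (m : ℕ) (r : Fin 3 → ZMod m) (B C : Finset (Fin 3 → ℕ)) (hm : 0 < m)
    (h : Stair m r B C) : (C.card - 2) * (C.card - 2) ≤ 4 * m :=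
  comb_of_claim hm h (fun A hA => claim1_sum h A hA)

end Pool.Agent.Helper151.NS.VBridge
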